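import Mathlib
import Pool.Graph.R_pool_sql_team_seeded_63374d34.N746.Self.Multi

/-!
# Many words of the same degree
-/

namespace Pool.Agent.H423.AB

open Finset Filter Pool.Agent.N746.Self

variable {ι : Type*} [DecidableEq ι]

/-- many words with the same length and the same degree -/
theorem exists_words (L : Finset ι) (d : ι → ℕ) (M : ℕ) (hd : ∀ l ∈ L, 2 ≤ d l ∧ d l ≤ M) (s : ℝ)
    (hs : 1 < ∑ l ∈ L, (d l : ℝ) ^ (-s)) :
    ∃ (k D : ℕ) (W : Finset (List ι)), (∀ w ∈ W, w.length = k ∧ (∀ l ∈ w, l ∈ L) ∧ (w.map d).prod = D) ∧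
      2 ≤ D ∧ (D : ℝ) ^ s < W.card := by
  classical
  set S : ℝ := ∑ l ∈ L, (d l : ℝ) ^ (-s) with hS
  -- choice of `k`
  obtain ⟨k, hk1, hk⟩ : ∃ k : ℕ, 1 ≤ k ∧ ((k : ℝ) + 1) ^ (M + 1) < S ^ k := by
    have h1 := tendsto_pow_const_div_const_pow_of_one_lt (M + 1) hs
    have hS0 : 0 < 1 / S := by positivity
    have h2 := (h1.eventually (gt_mem_nhds hS0)).and (eventually_ge_atTop 2)
    obtain ⟨n, hn, hn2⟩ := h2.exists
    refine ⟨n - 1, by omega, ?_⟩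
    obtain ⟨j, rfl⟩ : ∃ j, n = j + 1 := ⟨n - 1, by omega⟩
    have hSpos : 0 < S := by linarith
    rw [show j + 1 - 1 = j by omega]
    rw [div_lt_div_iff₀ (by positivity) hSpos, pow_succ S j] at hn
    push_cast at hn
    have := lt_of_mul_lt_mul_right (a := S) (by linarith : ((j : ℝ) + 1) ^ (M + 1) * S < S ^ j * S) hSpos.le
    exact this
  by_contra hcon
  push Not at hcon
  set T : Finset (Fin k → ι) := Fintype.piFinset fun _ : Fin k => L with hT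
  have hmem : ∀ f ∈ T, ∀ i, 2 ≤ d (f i) := fun f hf i => (hd _ (Fintype.mem_piFinset.1 hf i)).1
  have h1 : S ^ k = ∑ f ∈ T, ((∏ i, d (f i) : ℕ) : ℝ) ^ (-s) := by
    have h2 := Finset.prod_univ_sum (fun _ : Fin k => L) (fun _ l => (d l : ℝ) ^ (-s))
    rw [Finset.prod_const, Finset.card_univ, Fintype.card_fin] at h2
    rw [hS, h2]
    refine Finset.sum_congr rfl fun f _ => ?_
    push_cast
    rw [← Real.finsetProd_rpow _ _ (fun i _ => Nat.cast_nonneg _)]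
  have h3 : ∑ f ∈ T, ((∏ i, d (f i) : ℕ) : ℝ) ^ (-s) =
      ∑ D ∈ T.image (fun f => ∏ i, d (f i)), ∑ f ∈ T with ∏ i, d (f i) = D, ((∏ i, d (f i) : ℕ) : ℝ) ^ (-s) :=
    (Finset.sum_fiberwise_of_maps_to (fun f hf => Finset.mem_image_of_mem _ hf) _).symm
  have h4 : ∀ D ∈ T.image (fun f => ∏ i, d (f i)),
      ∑ f ∈ T with ∏ i, d (f i) = D, ((∏ i, d (f i) : ℕ) : ℝ) ^ (-s) ≤ 1 := by
    intro D hD
    obtain ⟨f₀, hf₀, hf₀D⟩ := Finset.mem_image.1 hD
    have hD2 : 2 ≤ D := by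
      rw [← hf₀D]
      have h0 : (0 : ℕ) < k := by omega
      have h5 : d (f₀ ⟨0, h0⟩) ∣ ∏ i, d (f₀ i) := Finset.dvd_prod_of_mem _ (Finset.mem_univ _)
      have h6 : 0 < ∏ i, d (f₀ i) := Finset.prod_pos fun i _ => by have := hmem f₀ hf₀ i; omega
      exact (hmem f₀ hf₀ _).trans (Nat.le_of_dvd h6 h5)
    have hD0 : (0 : ℝ) < D := by exact_mod_cast (by omega : 0 < D)
    have h5 : ∑ f ∈ T with ∏ i, d (f i) = D, ((∏ i, d (f i) : ℕ) : ℝ) ^ (-s) =
        ((T.filter fun f => ∏ i, d (f i) = D).card : ℝ) * (D : ℝ) ^ (-s) := by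
      rw [Finset.sum_congr rfl (g := fun _ => (D : ℝ) ^ (-s)), Finset.sum_const, nsmul_eq_mul]
      intro f hf
      rw [(Finset.mem_filter.1 hf).2]
    rw [h5]
    have h6 := hcon k D ((T.filter fun f => ∏ i, d (f i) = D).image List.ofFn) (by
      intro w hw
      obtain ⟨f, hf, rfl⟩ := Finset.mem_image.1 hw
      rw [Finset.mem_filter] at hf
      refine ⟨List.length_ofFn, ?_, by rw [List.map_ofFn, List.prod_ofFn]; exact hf.2⟩
      intro m hm
      rw [List.mem_ofFn] at hm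
      obtain ⟨i, rfl⟩ := hm
      exact Fintype.mem_piFinset.1 hf.1 i) hD2
    rw [Finset.card_image_of_injective _ List.ofFn_injective] at h6
    calc ((T.filter fun f => ∏ i, d (f i) = D).card : ℝ) * (D : ℝ) ^ (-s)
        ≤ (D : ℝ) ^ s * (D : ℝ) ^ (-s) := mul_le_mul_of_nonneg_right h6 (by positivity)
      _ = 1 := by rw [← Real.rpow_add hD0]; simp
  have hsub : T.image (fun f => ∏ i, d (f i)) ⊆
      (Fintype.piFinset fun _ : Fin k => Icc 2 M).image fun f => ∏ i, f i := by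
    intro D hD
    obtain ⟨f, hf, rfl⟩ := Finset.mem_image.1 hD
    refine Finset.mem_image.2 ⟨fun i => d (f i), ?_, rfl⟩
    rw [Fintype.mem_piFinset]
    intro i
    rw [Finset.mem_Icc]
    exact hd _ (Fintype.mem_piFinset.1 hf i)
  have h7 : S ^ k ≤ ((k : ℝ) + 1) ^ (M + 1) := by
    rw [h1, h3]
    calc _ ≤ ∑ D ∈ T.image (fun f => ∏ i, d (f i)), (1 : ℝ) := Finset.sum_le_sum h4
      _ = ((T.image fun f => ∏ i, d (f i)).card : ℝ) := by simp
      _ ≤ (((k + 1) ^ (M + 1) : ℕ) : ℝ) := by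
          exact_mod_cast (Finset.card_le_card hsub).trans (few_products M k)
      _ = _ := by push_cast; ring
  linarith

theorem words_pow (L : Finset ι) (d : ι → ℕ) (k D : ℕ) (W : Finset (List ι))
    (hW : ∀ w ∈ W, w.length = k ∧ (∀ l ∈ w, l ∈ L) ∧ (w.map d).prod = D) (j : ℕ) :
    ∃ V : Finset (List ι), (∀ w ∈ V, (∀ l ∈ w, l ∈ L) ∧ (w.map d).prod = D ^ j) ∧ V.card = W.card ^ j := by
  classical
  induction j with
  | zero => exact ⟨{[]}, by simp, by simp⟩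
  | succ j ih =>
    obtain ⟨V, hV, hc⟩ := ih
    refine ⟨Finset.image₂ (fun u v => u ++ v) W V, ?_, ?_⟩
    · intro w hw
      obtain ⟨u, hu, v, hv, rfl⟩ := Finset.mem_image₂.1 hw
      refine ⟨?_, ?_⟩
      · intro m hm
        rcases List.mem_append.1 hm with h | h
        · exact (hW u hu).2.1 m h
        · exact (hV v hv).1 m h
      · rw [List.map_append, List.prod_append, (hW u hu).2.2, (hV v hv).2, pow_succ']
    · rw [Finset.card_image₂_iff.2, hc, pow_succ']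
      rintro ⟨u, v⟩ ⟨hu, hv⟩ ⟨u', v'⟩ ⟨hu', hv'⟩ h
      have hl : u.length = u'.length := by
        rw [(hW u hu).1, (hW u' hu').1]
      obtain ⟨h1, h2⟩ := List.append_inj h hl
      exact Prod.ext h1 h2

/-- **The growth principle.** -/
theorem growth (L : Finset ι) (d : ι → ℕ) (M : ℕ) (hd : ∀ l ∈ L, 2 ≤ d l ∧ d l ≤ M) (s : ℝ) (hs0 : 0 ≤ s)
    (hs : 1 < ∑ l ∈ L, (d l : ℝ) ^ (-s)) (ε₁ : ℝ) (hε₁0 : 0 < ε₁) :
    ∃ δ₁ : ℝ, 0 < δ₁ ∧ ∀ ε : ℝ, 0 < ε → ε < δ₁ → ∃ (D : ℕ) (V : Finset (List ι)), 1 ≤ D ∧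
      (∀ w ∈ V, (∀ l ∈ w, l ∈ L) ∧ (w.map d).prod = D) ∧ D * ε ≤ ε₁ ∧ ε ^ (-s) ≤ V.card := by
  obtain ⟨k, D, W, hW, hD2, hWD⟩ := exists_words L d M hd s hs
  have hD0 : (0 : ℝ) < D := by exact_mod_cast (by omega : 0 < D)
  have hD1 : (1 : ℝ) < D := by exact_mod_cast (by omega : 1 < D)
  have hDs : 0 < (D : ℝ) ^ s := by positivity
  set θ : ℝ := W.card / (D : ℝ) ^ s with hθ
  have hθ1 : 1 < θ := by rw [hθ, one_lt_div hDs]; exact hWD
  have hWθ : (W.card : ℝ) = θ * (D : ℝ) ^ s := by rw [hθ]; field_simp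
  obtain ⟨j₀, hj₀⟩ := pow_unbounded_of_one_lt ((D / ε₁) ^ s) hθ1
  refine ⟨ε₁ / D ^ (j₀ + 1), by positivity, fun ε hε hεδ => ?_⟩
  have hεD : (D : ℝ) ^ (j₀ + 1) < ε₁ / ε := by
    rw [lt_div_iff₀ (by positivity)] at hεδ
    rw [lt_div_iff₀ hε]; linarith
  have hex : ∃ j : ℕ, ε₁ / ε < (D : ℝ) ^ (j + 1) := by
    obtain ⟨j, hj⟩ := pow_unbounded_of_one_lt (ε₁ / ε) hD1
    exact ⟨j, hj.trans (pow_lt_pow_right₀ hD1 (Nat.lt_succ_self j))⟩
  set j := Nat.find hex with hj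
  have hj1 : ε₁ / ε < (D : ℝ) ^ (j + 1) := Nat.find_spec hex
  have hjj : j₀ < j := by
    have := (pow_lt_pow_iff_right₀ hD1).1 (hεD.trans hj1)
    omega
  have hj2 : (D : ℝ) ^ j ≤ ε₁ / ε := by
    have := Nat.find_min hex (show j - 1 < Nat.find hex by omega)
    push Not at this
    rwa [show j - 1 + 1 = j by omega] at this
  obtain ⟨V, hV, hVc⟩ := words_pow L d k D W hW j
  refine ⟨D ^ j, V, Nat.one_le_pow _ _ (by omega), hV, ?_, ?_⟩
  · push_cast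
    rw [le_div_iff₀ hε] at hj2
    exact hj2
  · rw [hVc, Nat.cast_pow]
    rw [hWθ, mul_pow]
    have h4 : ε ^ (-s) * (ε₁ / D) ^ s ≤ ((D : ℝ) ^ s) ^ j := by
      have e1 : ((D : ℝ) ^ s) ^ j = ((D : ℝ) ^ j) ^ s := by
        rw [← Real.rpow_natCast, ← Real.rpow_mul hD0.le, mul_comm, Real.rpow_mul hD0.le,
          Real.rpow_natCast]
      have e2 : ε ^ (-s) * (ε₁ / D) ^ s = (ε₁ / ε / D) ^ s := by
        rw [Real.rpow_neg hε.le, ← Real.inv_rpow hε.le, ← Real.mul_rpow (by positivity) (by positivity)]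
        congr 1
        field_simp
      rw [e1, e2]
      apply Real.rpow_le_rpow (by positivity) _ hs0
      rw [div_le_iff₀ hD0, ← pow_succ]
      exact hj1.le
    have h5 : (D / ε₁) ^ s ≤ θ ^ j := hj₀.le.trans (pow_le_pow_right₀ hθ1.le hjj.le)
    have h6 : (D / ε₁) ^ s * (ε₁ / D) ^ s = 1 := by
      rw [← Real.mul_rpow (by positivity) (by positivity)]
      rw [show D / ε₁ * (ε₁ / D) = 1 by field_simp, Real.one_rpow]
    calc ε ^ (-s) = (D / ε₁) ^ s * (ε ^ (-s) * (ε₁ / D) ^ s) := by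
          calc ε ^ (-s) = ε ^ (-s) * ((D / ε₁) ^ s * (ε₁ / D) ^ s) := by rw [h6, mul_one]
            _ = _ := by ring
      _ ≤ θ ^ j * ((D : ℝ) ^ s) ^ j := mul_le_mul h5 h4 (by positivity) (pow_nonneg (by linarith) _)

end Pool.Agent.H423.AB
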