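import Mathlib

/-!
# Partial sums of the binomial expansion
-/

namespace Pool.Agent.H423.AB

open Finset

/-- the terms of the expansion of `(x + y) ^ m` which are divisible by `x ^ a` -/
def ps {R : Type*} [CommSemiring R] (m a : ℕ) (x y : R) : R :=
  ∑ j ∈ Ico a (m + 1), (m.choose j : R) * x ^ j * y ^ (m - j)

/-- the cofactor of `x ^ a` in `ps m a x y` -/
def qs {R : Type*} [CommSemiring R] (m a : ℕ) (x y : R) : R :=
  ∑ i ∈ range (m + 1 - a), (m.choose (a + i) : R) * x ^ i * y ^ (m - (a + i))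

section
variable {R : Type*} [CommSemiring R]

theorem ps_eq (m a : ℕ) (x y : R) : ps m a x y = x ^ a * qs m a x y := by
  unfold ps qs
  rw [Finset.sum_Ico_eq_sum_range, Finset.mul_sum]
  refine Finset.sum_congr rfl fun i _ => ?_
  rw [pow_add]; ring

theorem ps_zero (m : ℕ) (x y : R) : ps m 0 x y = (x + y) ^ m := by
  unfold ps
  rw [add_pow, Nat.Ico_zero_eq_range]
  refine Finset.sum_congr rfl fun j _ => ?_
  ring

theorem ps_last (m : ℕ) (x y : R) : ps m (m + 1) x y = 0 := by
  unfold ps
  simp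

theorem ps_first (m a : ℕ) (ha : a ≤ m) (x y : R) :
    ps m a x y = (m.choose a : R) * x ^ a * y ^ (m - a) + ps m (a + 1) x y := by
  unfold ps
  rw [Finset.sum_eq_sum_Ico_succ_bot (by omega)]

theorem ps_add (m a : ℕ) (ha : a ≤ m + 1) (x y : R) :
    ps m a x y + ps m (m + 1 - a) y x = (x + y) ^ m := by
  induction a with
  | zero => rw [ps_zero, Nat.sub_zero, ps_last, add_zero]
  | succ a ih =>
    have h1 := ih (by omega)
    rw [ps_first m a (by omega)] at h1
    have h2 := ps_first m (m - a) (by omega) y x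
    have e1 : m + 1 - (a + 1) = m - a := by omega
    have e2 : m - a + 1 = m + 1 - a := by omega
    have e3 : m - (m - a) = a := by omega
    rw [e1, h2, e2, e3, Nat.choose_symm (by omega : a ≤ m), ← h1]
    ring

theorem ps_succ (m a : ℕ) (ha : a ≤ m) (x y : R) :
    ps (m + 1) (a + 1) x y = (x + y) * ps m (a + 1) x y + (m.choose a : R) * x ^ (a + 1) * y ^ (m - a) := by
  obtain ⟨d, hd⟩ : ∃ d, m - a = d := ⟨_, rfl⟩
  induction d generalizing a with
  | zero =>
    have : a = m := by omega
    subst this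
    rw [ps_last, ps_first (a + 1) (a + 1) le_rfl, ps_last]
    simp
  | succ d ih =>
    have h1 := ih (a + 1) (by omega) (by omega)
    rw [ps_first (m + 1) (a + 1) (by omega), h1, ps_first m (a + 1) (by omega)]
    have e1 : m + 1 - (a + 1) = m - a := by omega
    have e2 : m - a = (m - (a + 1)) + 1 := by omega
    rw [e1, Nat.choose_succ_succ, e2]
    push_cast
    rw [Nat.succ_eq_add_one]
    ring

theorem map_ps {S : Type*} [CommSemiring S] (f : R →+* S) (m a : ℕ) (x y : R) :
    f (ps m a x y) = ps m a (f x) (f y) := by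
  unfold ps
  simp [map_sum]

theorem ps_smul (m a : ℕ) (t x y : R) : ps m a (t * x) (t * y) = t ^ m * ps m a x y := by
  unfold ps
  rw [Finset.mul_sum]
  refine Finset.sum_congr rfl fun j hj => ?_
  have : t ^ m = t ^ j * t ^ (m - j) := by
    rw [← pow_add]; congr 1
    have := Finset.mem_Ico.1 hj
    omega
  rw [this, mul_pow, mul_pow]; ring

end

theorem qs_le (m a : ℕ) (ha : a ≤ m) (x y : ℕ) : qs m a x y ≤ 2 ^ m * (x + y) ^ (m - a) := by
  unfold qs
  calc ∑ i ∈ range (m + 1 - a), ((m.choose (a + i) : ℕ) : ℕ) * x ^ i * y ^ (m - (a + i))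
      ≤ ∑ i ∈ range (m + 1 - a), m.choose (a + i) * (x + y) ^ (m - a) := by
        refine Finset.sum_le_sum fun i hi => ?_
        have hi' : i < m + 1 - a := Finset.mem_range.1 hi
        have e : m - a = i + (m - (a + i)) := by omega
        rw [e, pow_add, mul_assoc]
        exact Nat.mul_le_mul_left _ (Nat.mul_le_mul (Nat.pow_le_pow_left (by omega) _)
          (Nat.pow_le_pow_left (by omega) _))
    _ = (∑ i ∈ range (m + 1 - a), m.choose (a + i)) * (x + y) ^ (m - a) := by rw [Finset.sum_mul]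
    _ ≤ _ := by
        apply Nat.mul_le_mul_right
        rw [← Finset.sum_Ico_eq_sum_range (fun j => m.choose j) a (m + 1), ← Nat.sum_range_choose]
        apply Finset.sum_le_sum_of_subset
        intro j hj
        rw [Finset.mem_range]
        exact (Finset.mem_Ico.1 hj).2

theorem ps_pos (m a : ℕ) (ha : a ≤ m) (x y : ℕ) (hx : 0 < x) : 0 < ps m a x y := by
  unfold ps
  apply Finset.sum_pos'
  · intro j _; exact Nat.zero_le _
  · refine ⟨m, Finset.mem_Ico.2 ⟨ha, by omega⟩, ?_⟩
    simp
    positivity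

/-- a common prime factor of `x + y` and a partial sum divides `m ! * x` -/
theorem prime_dvd_ps (m a : ℕ) (ha1 : 1 ≤ a) (ha : a ≤ m) (x y p : ℕ) (hp : p.Prime) (h1 : p ∣ x + y)
    (h2 : p ∣ ps m a x y) : p ∣ m.factorial ∨ p ∣ x := by
  obtain ⟨m, rfl⟩ : ∃ k, m = k + 1 := ⟨m - 1, by omega⟩
  obtain ⟨a, rfl⟩ : ∃ k, a = k + 1 := ⟨a - 1, by omega⟩
  rw [ps_succ m a (by omega)] at h2
  have h3 : p ∣ (m.choose a : ℕ) * x ^ (a + 1) * y ^ (m - a) := by
    have := (Nat.dvd_add_iff_right (h1.mul_right (ps m (a + 1) x y))).2 h2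
    simpa using this
  rcases (hp.dvd_mul).1 h3 with h | h
  · rcases (hp.dvd_mul).1 h with h | h
    · left
      have h4 : m.choose a ∣ m.factorial := by
        rw [← Nat.choose_mul_factorial_mul_factorial (show a ≤ m by omega)]
        exact (Dvd.intro _ rfl).mul_right _
      exact (h.trans h4).trans (Nat.factorial_dvd_factorial (by omega))
    · right; exact hp.dvd_of_dvd_pow h
  · right
    have := hp.dvd_of_dvd_pow h
    exact (Nat.dvd_add_iff_left this).2 h1

end Pool.Agent.H423.AB
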