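import Mathlib
import Pool.Agent.H423.AB.Ps

/-!
# The semigroup of polynomials generated by the partial sums of the binomial expansions is free
-/

namespace Pool.Agent.H423.AB

open Finset Polynomial

variable {K : Type*} [Field K]

/-- the leading behaviour at zero: order `E` and relative second coefficient `r` -/
def Loc (f : K[X]) (E : ℕ) (r : K) : Prop :=
  ∃ w : K[X], f = X ^ E * w ∧ w.eval 0 ≠ 0 ∧ (derivative w).eval 0 = r * E * w.eval 0

theorem Loc_lt {f : K[X]} {E E' : ℕ} {r r' : K} (h : Loc f E r) (h' : Loc f E' r') : ¬ E < E' := by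
  intro hlt
  obtain ⟨w, h1, h2, -⟩ := h
  obtain ⟨w', h1', -, -⟩ := h'
  obtain ⟨d, rfl⟩ := Nat.exists_eq_add_of_lt hlt
  have h3 : X ^ E * w = X ^ E * (X ^ (d + 1) * w') := by
    rw [← h1, h1', ← mul_assoc, ← pow_add]; rfl
  have h4 := mul_left_cancel₀ (pow_ne_zero _ X_ne_zero) h3
  apply h2
  rw [h4]; simp

theorem Loc_unique [CharZero K] {f : K[X]} {E E' : ℕ} {r r' : K} (h : Loc f E r) (h' : Loc f E' r') (hE : 1 ≤ E) :
    E = E' ∧ r = r' := by
  have e : E = E' := by
    have h1 := Loc_lt h h'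
    have h2 := Loc_lt h' h
    omega
  subst e
  refine ⟨rfl, ?_⟩
  obtain ⟨w, h1, h2, h3⟩ := h
  obtain ⟨w', h1', h2', h3'⟩ := h'
  have h4 : X ^ E * w = X ^ E * w' := by rw [← h1, h1']
  have h5 := mul_left_cancel₀ (pow_ne_zero _ X_ne_zero) h4
  rw [← h5] at h3'
  rw [h3] at h3'
  have h6 := mul_right_cancel₀ h2 h3'
  exact mul_right_cancel₀ (by exact_mod_cast (by omega : E ≠ 0)) h6

theorem Loc_comp {g h : K[X]} {F e : ℕ} {r s : K} (hg : Loc g F s) (hh : Loc h e r) (hF : 1 ≤ F) (he : 2 ≤ e) :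
    Loc (g.comp h) (F * e) r := by
  obtain ⟨u, g1, g2, -⟩ := hg
  obtain ⟨v, h1, h2, h3⟩ := hh
  obtain ⟨F, rfl⟩ : ∃ k, F = k + 1 := ⟨F - 1, by omega⟩
  obtain ⟨e, rfl⟩ : ∃ k, e = k + 2 := ⟨e - 2, by omega⟩
  have h0 : h.eval 0 = 0 := by rw [h1]; simp
  have h0' : (derivative h).eval 0 = 0 := by
    rw [h1, derivative_mul, derivative_X_pow]
    simp
  refine ⟨v ^ (F + 1) * u.comp h, ?_, ?_, ?_⟩
  · conv_lhs => rw [g1]
    rw [mul_comp, pow_comp, X_comp]
    conv_lhs => rw [h1]
    rw [mul_pow, ← pow_mul, mul_comm (e + 2) (F + 1)]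
    rw [← h1]
    ring
  · rw [eval_mul, eval_pow, eval_comp, h0]
    exact mul_ne_zero (pow_ne_zero _ h2) g2
  · rw [derivative_mul, derivative_pow, derivative_comp]
    simp only [eval_add, eval_mul, eval_pow, eval_comp, h0, h0', h3]
    simp
    ring

/-- `1 - f (1 - x)` -/
noncomputable def flip (f : K[X]) : K[X] := 1 - f.comp (1 - X)

theorem flip_comp (g h : K[X]) : flip (g.comp h) = (flip g).comp (flip h) := by
  unfold flip
  rw [sub_comp, one_comp, comp_assoc, comp_assoc]
  simp

/-- the polynomial `∑ j ≥ a, (m choose j) x ^ j (1 - x) ^ (m - j)` -/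
noncomputable def bp (m a : ℕ) : K[X] := ps m a X (1 - X)

theorem flip_bp (m a : ℕ) (ha : a ≤ m + 1) : flip (bp m a : K[X]) = bp m (m + 1 - a) := by
  have h := ps_add m (m + 1 - a) (by omega) (X : K[X]) (1 - X)
  have e : m + 1 - (m + 1 - a) = a := by omega
  rw [e] at h
  have h2 : (bp m a : K[X]).comp (1 - X) = ps m a (1 - X) X := by
    have := map_ps (compRingHom (1 - X : K[X])) m a X (1 - X)
    simp only [coe_compRingHom] at this
    rw [bp, this]
    simp
  rw [flip, h2, bp]
  have h3 : (X + (1 - X) : K[X]) ^ m = 1 := by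
    rw [add_sub_cancel, one_pow]
  rw [h3] at h
  linear_combination (-1 : K[X]) * h

theorem qs_first {R : Type*} [CommSemiring R] (m a : ℕ) (ha : a ≤ m) (x y : R) :
    qs m a x y = (m.choose a : R) * y ^ (m - a) + x * qs m (a + 1) x y := by
  unfold qs
  have e : m + 1 - a = (m + 1 - (a + 1)) + 1 := by omega
  rw [e, Finset.sum_range_succ', Finset.mul_sum, add_comm]
  congr 1
  · simp
  · refine Finset.sum_congr rfl fun i _ => ?_
    rw [show a + (i + 1) = a + 1 + i by omega]
    ring

theorem eval_qs (m a : ℕ) (t : K) : (qs m a (X : K[X]) (1 - X)).eval t = qs m a t (1 - t) := by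
  unfold qs
  rw [eval_finsetSum]
  simp

theorem qs_zero_left (m a : ℕ) (ha : a ≤ m) : qs m a (0 : K) 1 = (m.choose a : K) := by
  rw [qs_first m a ha]; simp

/-- the relative second coefficient of `bp m a` -/
noncomputable def rc (m a : ℕ) : K := -(((m - a : ℕ) : K) / ((a : K) + 1))

theorem Loc_bp [CharZero K] (m a : ℕ) (ha : 1 ≤ a) (ham : a ≤ m) : Loc (bp m a : K[X]) a (rc m a) := by
  refine ⟨qs m a X (1 - X), ps_eq _ _ _ _, ?_, ?_⟩
  · rw [eval_qs, sub_zero, qs_zero_left m a ham]
    have : m.choose a ≠ 0 := (Nat.choose_pos ham).ne'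
    exact_mod_cast this
  · rw [eval_qs, sub_zero, qs_zero_left m a ham, qs_first m a ham]
    have h1 : (derivative (qs m (a + 1) (X : K[X]) (1 - X))).eval 0 * 0 = 0 := mul_zero _
    have h2 : (qs m (a + 1) (X : K[X]) (1 - X)).eval 0 * ((a : K) + 1) = (m.choose a : K) * ((m - a : ℕ) : K) := by
      rw [eval_qs, sub_zero]
      rcases Nat.lt_or_ge a m with h | h
      · rw [qs_zero_left m (a + 1) (by omega)]
        have := Nat.choose_succ_right_eq m a
        exact_mod_cast this
      · have : a = m := by omega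
        subst this
        unfold qs
        simp
    have ha1 : ((a : K) + 1) ≠ 0 := by exact_mod_cast (by omega : a + 1 ≠ 0)
    have h3 : (qs m (a + 1) (X : K[X]) (1 - X)).eval 0 = (m.choose a : K) * ((m - a : ℕ) : K) / ((a : K) + 1) := by
      rw [eq_div_iff ha1, h2]
    have h4 : (derivative ((m.choose a : K[X]) * (1 - X) ^ (m - a))).eval 0 =
        -((m.choose a : K) * ((m - a : ℕ) : K)) := by
      rw [derivative_mul, derivative_pow]
      simp
    have h5 : (derivative (X * qs m (a + 1) (X : K[X]) (1 - X))).eval 0 =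
        (qs m (a + 1) (X : K[X]) (1 - X)).eval 0 := by
      rw [derivative_mul]
      simp
    rw [derivative_add, eval_add, h4, h5, h3]
    unfold rc
    field_simp
    ring

/-- a letter -/
def Good (l : ℕ × ℕ) : Prop := 2 ≤ l.2 ∧ l.2 < l.1

/-- the flipped letter -/
def fl (l : ℕ × ℕ) : ℕ × ℕ := (l.1, l.1 + 1 - l.2)

theorem good_fl {l : ℕ × ℕ} (h : Good l) : Good (fl l) := by
  unfold Good fl at *
  simp only
  omega

/-- the polynomial of a word; the head is applied first -/
noncomputable def wp : List (ℕ × ℕ) → K[X]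
  | [] => X
  | l :: w => (wp w).comp (bp l.1 l.2)

theorem flip_wp (w : List (ℕ × ℕ)) (hw : ∀ l ∈ w, Good l) : flip (wp w : K[X]) = wp (w.map fl) := by
  induction w with
  | nil => simp [wp, flip]
  | cons l w ih =>
    have hl : Good l := hw l (by simp)
    rw [wp, flip_comp, ih (fun k hk => hw k (by simp [hk])), flip_bp _ _ (by unfold Good at hl; omega),
      List.map_cons, wp]
    rfl

theorem Loc_wp [CharZero K] (w : List (ℕ × ℕ)) (hw : ∀ l ∈ w, Good l) :
    ∃ E r, 1 ≤ E ∧ Loc (wp w : K[X]) E r ∧ (w = [] → E = 1) ∧ ∀ l v, w = l :: v → 2 ≤ E ∧ r = rc l.1 l.2 := by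
  induction w with
  | nil =>
    refine ⟨1, 0, le_rfl, ⟨1, by simp [wp], by simp, by simp⟩, fun _ => rfl, ?_⟩
    intro l v h
    simp at h
  | cons l w ih =>
    obtain ⟨E, r, h1, h2, -, -⟩ := ih (fun k hk => hw k (by simp [hk]))
    have hl : Good l := hw l (by simp)
    unfold Good at hl
    have h5 := Loc_comp h2 (Loc_bp (K := K) l.1 l.2 (by omega) (by omega)) h1 hl.1
    have h6 : 2 ≤ E * l.2 := by nlinarith
    refine ⟨E * l.2, rc l.1 l.2, by omega, h5, fun h => by simp at h, ?_⟩
    intro l' v h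
    rw [List.cons.injEq] at h
    rw [← h.1]
    exact ⟨h6, rfl⟩

/-- the two second coefficients determine the letter -/
theorem letter_eq [CharZero K] (l k : ℕ × ℕ) (hl : Good l) (hk : Good k) (h1 : (rc l.1 l.2 : K) = rc k.1 k.2)
    (h2 : (rc (fl l).1 (fl l).2 : K) = rc (fl k).1 (fl k).2) : l = k := by
  obtain ⟨m, a⟩ := l
  obtain ⟨n, c⟩ := k
  unfold Good at hl hk
  simp only at hl hk
  obtain ⟨b, hb⟩ : ∃ b, m + 1 - a = b := ⟨_, rfl⟩
  obtain ⟨d, hd⟩ : ∃ d, n + 1 - c = d := ⟨_, rfl⟩
  unfold rc fl at *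
  simp only at h1 h2
  rw [hb, hd] at h2
  have e1 : m - a = b - 1 := by omega
  have e2 : m - b = a - 1 := by omega
  have e3 : n - c = d - 1 := by omega
  have e4 : n - d = c - 1 := by omega
  rw [e1, e3, neg_inj] at h1
  rw [e2, e4, neg_inj] at h2
  have p1 : ((a : K) + 1) ≠ 0 := by exact_mod_cast (by omega : a + 1 ≠ 0)
  have p2 : ((b : K) + 1) ≠ 0 := by exact_mod_cast (by omega : b + 1 ≠ 0)
  have p3 : ((c : K) + 1) ≠ 0 := by exact_mod_cast (by omega : c + 1 ≠ 0)
  have p4 : ((d : K) + 1) ≠ 0 := by exact_mod_cast (by omega : d + 1 ≠ 0)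
  rw [div_eq_div_iff p1 p3] at h1
  rw [div_eq_div_iff p2 p4] at h2
  have q1 : (b - 1) * (c + 1) = (d - 1) * (a + 1) := by exact_mod_cast h1
  have q2 : (a - 1) * (d + 1) = (c - 1) * (b + 1) := by exact_mod_cast h2
  zify [show 1 ≤ b by omega, show 1 ≤ d by omega, show 1 ≤ a by omega, show 1 ≤ c by omega] at q1 q2
  have key : ∀ a b c d : ℤ, 0 < c + d → (b - 1) * (c + 1) = (d - 1) * (a + 1) →
      (a - 1) * (d + 1) = (c - 1) * (b + 1) → a = c := by
    intro a b c d h0 q1 q2
    have : 2 * ((a - c) * (c + d)) = 0 := by linear_combination (c + 1) * q2 + (c - 1) * q1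
    have := (mul_eq_zero.1 this).resolve_left (by norm_num)
    rcases mul_eq_zero.1 this with h | h
    · linarith
    · omega
  have hac : (a : ℤ) = c := key a b c d (by omega) q1 q2
  have hbd : (b : ℤ) = d := key b a d c (by omega) q2 q1
  ext
  · simp only; omega
  · simp only; omega

theorem bp_eval_zero (m a : ℕ) (ha : 1 ≤ a) : (bp m a : K[X]).eval 0 = 0 := by
  rw [bp, ps_eq, eval_mul, eval_pow, eval_X, zero_pow (by omega), zero_mul]

theorem bp_not_const (m a : ℕ) (ha : 1 ≤ a) (ham : a ≤ m) (q : K) : (bp m a : K[X]) ≠ C q := by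
  intro h
  have h0 : (bp m a : K[X]).eval 0 = 0 := bp_eval_zero m a ha
  have h1 : (bp m a : K[X]).eval 1 = 1 := by
    have := congrArg (fun f : K[X] => f.eval 0) (flip_bp (K := K) m a (by omega))
    simp only [flip] at this
    rw [bp_eval_zero _ _ (by omega), eval_sub, eval_comp] at this
    simp only [eval_sub, eval_one, eval_X, sub_zero] at this
    linear_combination -this
  rw [h, eval_C] at h0 h1
  rw [h0] at h1
  exact zero_ne_one h1

/-- different words have different polynomials -/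
theorem wp_inj [CharZero K] (w : List (ℕ × ℕ)) : ∀ w' : List (ℕ × ℕ), (∀ l ∈ w, Good l) → (∀ l ∈ w', Good l) →
    (wp w : K[X]) = wp w' → w = w' := by
  induction w with
  | nil =>
    intro w' hw hw' h
    cases w' with
    | nil => rfl
    | cons k w' =>
      exfalso
      obtain ⟨E, r, h1, h2, h3, -⟩ := Loc_wp (K := K) [] hw
      obtain ⟨E', r', h1', h2', -, h4'⟩ := Loc_wp (K := K) _ hw'
      rw [h] at h2
      have := (Loc_unique h2 h2' h1).1
      have := h3 rfl
      have := (h4' _ _ rfl).1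
      omega
  | cons l w ih =>
    intro w' hw hw' h
    cases w' with
    | nil =>
      exfalso
      obtain ⟨E, r, h1, h2, h3, -⟩ := Loc_wp (K := K) [] hw'
      obtain ⟨E', r', h1', h2', -, h4'⟩ := Loc_wp (K := K) _ hw
      rw [← h] at h2
      have := (Loc_unique h2 h2' h1).1
      have := h3 rfl
      have := (h4' _ _ rfl).1
      omega
    | cons k w' =>
      have hl : Good l := hw l (by simp)
      have hk : Good k := hw' k (by simp)
      have hww : ∀ k ∈ w, Good k := fun k hk => hw k (by simp [hk])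
      have hww' : ∀ k ∈ w', Good k := fun k hk => hw' k (by simp [hk])
      have key : ∀ (l k : ℕ × ℕ) (w w' : List (ℕ × ℕ)), (∀ i ∈ l :: w, Good i) → (∀ i ∈ k :: w', Good i) →
          (wp (l :: w) : K[X]) = wp (k :: w') → (rc l.1 l.2 : K) = rc k.1 k.2 := by
        intro l k w w' hw hw' h
        obtain ⟨E, r, h1, h2, -, h4⟩ := Loc_wp (K := K) _ hw
        obtain ⟨E', r', h1', h2', -, h4'⟩ := Loc_wp (K := K) _ hw'
        rw [h] at h2
        have := (Loc_unique h2 h2' h1).2
        rw [(h4 _ _ rfl).2, (h4' _ _ rfl).2] at this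
        exact this
      have hlk : l = k := by
        apply letter_eq (K := K) l k hl hk (key _ _ _ _ hw hw' h)
        have h' := congrArg flip h
        rw [flip_wp _ hw, flip_wp _ hw', List.map_cons, List.map_cons] at h'
        refine key _ _ _ _ ?_ ?_ h'
        · intro i hi
          rw [← List.map_cons] at hi
          obtain ⟨j, hj, rfl⟩ := List.mem_map.1 hi
          exact good_fl (hw j hj)
        · intro i hi
          rw [← List.map_cons] at hi
          obtain ⟨j, hj, rfl⟩ := List.mem_map.1 hi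
          exact good_fl (hw' j hj)
      subst hlk
      congr 1
      apply ih w' hww hww'
      rw [wp, wp] at h
      have h2 : (wp w - wp w' : K[X]).comp (bp l.1 l.2) = 0 := by rw [sub_comp, h, sub_self]
      rw [comp_eq_zero_iff] at h2
      rcases h2 with h2 | ⟨-, h2⟩
      · exact sub_eq_zero.1 h2
      · exfalso
        unfold Good at hl
        exact bp_not_const _ _ (by omega) (by omega) _ h2

end Pool.Agent.H423.AB
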