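import Mathlib
import Pool.Graph.R_pool_sql_team_seeded_63374d34.N746.Self.Multi
import Pool.Agent.H423.AB.Poly

/-!
# The action of the words on coprime pairs
-/

namespace Pool.Agent.H423.AB

open Finset Polynomial Pool.Agent.N746.Self

/-- the action on pairs `(a, c)` -/
def run : List (ℕ × ℕ) → ℕ × ℕ → ℕ × ℕ
  | [], p => p
  | l :: w, p => run w (ps l.1 l.2 p.1 (p.2 - p.1), p.2 ^ l.1)

/-- the degree of a word -/
def deg (w : List (ℕ × ℕ)) : ℕ := (w.map Prod.fst).prod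

/-- the sum of the degrees of the letters -/
def tot (w : List (ℕ × ℕ)) : ℕ := (w.map Prod.fst).sum

theorem deg_cons (l : ℕ × ℕ) (w : List (ℕ × ℕ)) : deg (l :: w) = l.1 * deg w := by simp [deg]

theorem tot_cons (l : ℕ × ℕ) (w : List (ℕ × ℕ)) : tot (l :: w) = l.1 + tot w := by simp [tot]

theorem deg_pos (w : List (ℕ × ℕ)) (hw : ∀ l ∈ w, Good l) : 1 ≤ deg w := by
  induction w with
  | nil => simp [deg]
  | cons l w ih =>
    have hl : Good l := hw l (by simp)
    have := ih fun k hk => hw k (by simp [hk])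
    rw [deg_cons]
    unfold Good at hl
    exact Nat.mul_pos (by omega) this

/-- one step -/
theorem step (M N : ℕ) (δ : ℝ) (hδ0 : 0 ≤ δ) (hδ : δ * 2 ^ M ≤ 1) (hN : M.factorial ∣ N) (m a : ℕ) (ha : 2 ≤ a)
    (ham : a < m) (hm : m ≤ M) (x c : ℕ) (hx : 0 < x) (hxc : x < c) (hcop : Nat.Coprime x c) (hNx : N ∣ x)
    (hδx : (x : ℝ) ≤ δ * c) :
    0 < ps m a x (c - x) ∧ ps m a x (c - x) < c ^ m ∧ Nat.Coprime (ps m a x (c - x)) (c ^ m) ∧
      N ∣ ps m a x (c - x) ∧ ((ps m a x (c - x) : ℕ) : ℝ) ≤ δ * ((c ^ m : ℕ) : ℝ) ∧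
      R (ps m a x (c - x) * (c ^ m - ps m a x (c - x)) * c ^ m) ≤ R (x * (c - x) * c) * (4 ^ m * c ^ (m - 1)) ∧
      ((ps m a x (c - x) : ℕ) : ℚ) = ((c ^ m : ℕ) : ℚ) * (bp m a : ℚ[X]).eval ((x : ℚ) / c) := by
  obtain ⟨y, hy⟩ : ∃ y, y = c - x := ⟨_, rfl⟩
  have hy0 : 0 < y := by omega
  have hxy : x + y = c := by omega
  have hc0 : 0 < c := by omega
  rw [← hy]
  have hsum : ps m a x y + ps m (m + 1 - a) y x = c ^ m := by rw [ps_add m a (by omega), hxy]
  have hA : 0 < ps m a x y := ps_pos m a ham.le x y hx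
  have hB : 0 < ps m (m + 1 - a) y x := ps_pos m _ (by omega) y x hy0
  have hBe : c ^ m - ps m a x y = ps m (m + 1 - a) y x := by omega
  have hxA : x ∣ ps m a x y := by
    rw [ps_eq]
    exact (dvd_pow_self x (by omega)).mul_right _
  refine ⟨hA, by omega, ?_, hNx.trans hxA, ?_, ?_, ?_⟩
  · apply Nat.Coprime.pow_right
    apply Nat.Coprime.symm
    rw [Nat.coprime_iff_gcd_eq_one]
    by_contra hne
    obtain ⟨p, hp, hpd⟩ := Nat.exists_prime_and_dvd hne
    have h1 : p ∣ c := hpd.trans (Nat.gcd_dvd_left _ _)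
    have h2 : p ∣ ps m a x y := hpd.trans (Nat.gcd_dvd_right _ _)
    have h3 : p ∣ x := by
      rcases prime_dvd_ps m a (by omega) ham.le x y p hp (by rw [hxy]; exact h1) h2 with h | h
      · exact ((h.trans (Nat.factorial_dvd_factorial hm)).trans hN).trans hNx
      · exact h
    have h4 := Nat.dvd_gcd h3 h1
    rw [hcop] at h4
    exact hp.one_lt.ne' (Nat.dvd_one.1 h4)
  · -- smallness
    have h1 : ps m a x y ≤ x ^ a * (2 ^ m * c ^ (m - a)) := by
      rw [ps_eq]
      apply Nat.mul_le_mul_left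
      have := qs_le m a ham.le x y
      rwa [hxy] at this
    have h2 : ((ps m a x y : ℕ) : ℝ) ≤ (x : ℝ) ^ a * (2 ^ m * (c : ℝ) ^ (m - a)) := by exact_mod_cast h1
    have hcR : (0 : ℝ) < c := by exact_mod_cast hc0
    have hδ1 : δ ≤ 1 := by
      have : δ * 1 ≤ δ * 2 ^ M := mul_le_mul_of_nonneg_left (one_le_pow₀ (by norm_num)) hδ0
      linarith
    have h3 : (x : ℝ) ^ a ≤ (δ * c) ^ a := pow_le_pow_left₀ (Nat.cast_nonneg _) hδx a
    have h4 : δ ^ a * 2 ^ m ≤ δ := by
      have e : δ ^ a = δ * (δ * δ ^ (a - 2)) := by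
        rw [← pow_succ', ← pow_succ']; congr 1; omega
      have h5 : δ ^ (a - 2) ≤ 1 := pow_le_one₀ hδ0 hδ1
      have h6 : (2 : ℝ) ^ m ≤ 2 ^ M := pow_le_pow_right₀ (by norm_num) hm
      have h7 : δ * δ ^ (a - 2) * 2 ^ m ≤ 1 := by
        calc δ * δ ^ (a - 2) * 2 ^ m ≤ δ * 1 * 2 ^ M := by
              apply mul_le_mul (mul_le_mul_of_nonneg_left h5 hδ0) h6 (by positivity) (by linarith)
          _ = δ * 2 ^ M := by ring
          _ ≤ 1 := hδ
      calc δ ^ a * 2 ^ m = δ * (δ * δ ^ (a - 2) * 2 ^ m) := by rw [e]; ring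
        _ ≤ δ * 1 := mul_le_mul_of_nonneg_left h7 hδ0
        _ = δ := mul_one _
    calc ((ps m a x y : ℕ) : ℝ) ≤ (x : ℝ) ^ a * (2 ^ m * (c : ℝ) ^ (m - a)) := h2
      _ ≤ (δ * c) ^ a * (2 ^ m * (c : ℝ) ^ (m - a)) := mul_le_mul_of_nonneg_right h3 (by positivity)
      _ = (δ ^ a * 2 ^ m) * ((c : ℝ) ^ a * (c : ℝ) ^ (m - a)) := by rw [mul_pow]; ring
      _ = (δ ^ a * 2 ^ m) * (c : ℝ) ^ m := by
          rw [← pow_add]; congr 2; omega
      _ ≤ δ * (c : ℝ) ^ m := mul_le_mul_of_nonneg_right h4 (by positivity)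
      _ = _ := by push_cast; ring
  · -- radical
    rw [hBe]
    set A' := qs m a x y with hA'
    set B' := qs m (m + 1 - a) y x with hB'
    have eA : ps m a x y = x ^ a * A' := ps_eq m a x y
    have eB : ps m (m + 1 - a) y x = y ^ (m + 1 - a) * B' := ps_eq _ _ y x
    have hA'0 : A' ≠ 0 := by
      intro h; rw [eA, h] at hA; omega
    have hB'0 : B' ≠ 0 := by
      intro h; rw [eB, h] at hB; omega
    have hA'le : A' ≤ 2 ^ m * c ^ (m - a) := by
      have := qs_le m a ham.le x y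
      rwa [hxy] at this
    have hB'le : B' ≤ 2 ^ m * c ^ (a - 1) := by
      have := qs_le m (m + 1 - a) (by omega) y x
      rwa [show y + x = c by omega, show m - (m + 1 - a) = a - 1 by omega] at this
    have hxyc : x * y * c ≠ 0 := by positivity
    have hprime : ∀ p : ℕ, p.Prime → p ∣ ps m a x y * ps m (m + 1 - a) y x * c ^ m →
        p ∣ x * y * c * (A' * B') := by
      intro p hp hd
      rcases (hp.dvd_mul).1 hd with h | h
      · rcases (hp.dvd_mul).1 h with h | h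
        · rw [eA] at h
          rcases (hp.dvd_mul).1 h with h | h
          · have := hp.dvd_of_dvd_pow h
            exact ((this.mul_right y).mul_right c).mul_right _
          · exact (h.mul_right B').mul_left _
        · rw [eB] at h
          rcases (hp.dvd_mul).1 h with h | h
          · have := hp.dvd_of_dvd_pow h
            exact ((this.mul_left x).mul_right c).mul_right _
          · exact (h.mul_left A').mul_left _
      · have := hp.dvd_of_dvd_pow h
        exact (this.mul_left (x * y)).mul_right _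
    have hAB0 : A' * B' ≠ 0 := mul_ne_zero hA'0 hB'0
    calc R (ps m a x y * ps m (m + 1 - a) y x * c ^ m) ≤ R (x * y * c * (A' * B')) :=
          R_le_of_primes (mul_ne_zero hxyc hAB0) hprime
      _ ≤ R (x * y * c) * R (A' * B') := R_mul_le _ _ hxyc hAB0
      _ ≤ R (x * y * c) * (A' * B') := Nat.mul_le_mul_left _ (R_le (Nat.pos_of_ne_zero hAB0))
      _ ≤ R (x * y * c) * ((2 ^ m * c ^ (m - a)) * (2 ^ m * c ^ (a - 1))) :=
          Nat.mul_le_mul_left _ (Nat.mul_le_mul hA'le hB'le)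
      _ = _ := by
          have e1 : m - 1 = (m - a) + (a - 1) := by omega
          have e2 : (4 : ℕ) = 2 * 2 := by norm_num
          rw [e1, e2, pow_add, mul_pow]; ring
  · have hcQ : (c : ℚ) ≠ 0 := by exact_mod_cast hc0.ne'
    have h1 : (bp m a : ℚ[X]).eval ((x : ℚ) / c) = ps m a ((x : ℚ) / c) (1 - (x : ℚ) / c) := by
      have := map_ps (evalRingHom ((x : ℚ) / c)) m a (X : ℚ[X]) (1 - X)
      simp only [coe_evalRingHom] at this
      rw [bp, this]
      simp
    have h2 : ((ps m a x y : ℕ) : ℚ) = ps m a (x : ℚ) (y : ℚ) := by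
      have := map_ps (Nat.castRingHom ℚ) m a x y
      simpa using this
    rw [h1, h2]
    push_cast
    rw [← ps_smul]
    congr 1
    · field_simp
    · have : (c : ℚ) = x + y := by rw [← hxy]; push_cast; ring
      rw [mul_sub, mul_div_cancel₀ _ hcQ, this]; ring

theorem run_spec (M N : ℕ) (δ : ℝ) (hδ0 : 0 ≤ δ) (hδ : δ * 2 ^ M ≤ 1) (hN : M.factorial ∣ N)
    (w : List (ℕ × ℕ)) (hw : ∀ l ∈ w, Good l ∧ l.1 ≤ M) : ∀ a c : ℕ, 0 < a → a < c → Nat.Coprime a c →
    N ∣ a → (a : ℝ) ≤ δ * c →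
    0 < (run w (a, c)).1 ∧ (run w (a, c)).1 < (run w (a, c)).2 ∧
    Nat.Coprime (run w (a, c)).1 (run w (a, c)).2 ∧ (run w (a, c)).2 = c ^ deg w ∧
    N ∣ (run w (a, c)).1 ∧ ((run w (a, c)).1 : ℝ) ≤ δ * (run w (a, c)).2 ∧
    R ((run w (a, c)).1 * ((run w (a, c)).2 - (run w (a, c)).1) * (run w (a, c)).2) ≤
      R (a * (c - a) * c) * (4 ^ tot w * c ^ (deg w - 1)) ∧
    ((run w (a, c)).1 : ℚ) = (run w (a, c)).2 * (wp w : ℚ[X]).eval ((a : ℚ) / c) := by
  induction w with
  | nil =>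
    intro a c ha hac hcop hNa hδa
    have hc : (c : ℚ) ≠ 0 := by exact_mod_cast (by omega : c ≠ 0)
    refine ⟨ha, hac, hcop, by simp [run, deg], hNa, hδa, by simp [run, deg, tot], ?_⟩
    simp only [run, wp, eval_X]
    field_simp
  | cons l w ih =>
    intro a c ha hac hcop hNa hδa
    obtain ⟨hl, hlM⟩ := hw l (by simp)
    have hw' : ∀ k ∈ w, Good k ∧ k.1 ≤ M := fun k hk => hw k (by simp [hk])
    have hl' := hl
    unfold Good at hl
    obtain ⟨s1, s2, s3, s4, s5, s6, s7⟩ :=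
      step M N δ hδ0 hδ hN l.1 l.2 hl.1 hl.2 hlM a c ha hac hcop hNa hδa
    obtain ⟨h1, h2, h3, h4, h5, h6, h7, h8⟩ := ih hw' _ _ s1 s2 s3 s4 s5
    have hp : 1 ≤ deg w := deg_pos w fun k hk => (hw' k hk).1
    refine ⟨h1, h2, h3, ?_, h5, h6, ?_, ?_⟩
    · rw [run]
      simp only
      rw [h4, deg_cons, pow_mul]
    · rw [run]
      simp only
      refine h7.trans ?_
      calc _ ≤ (R (a * (c - a) * c) * (4 ^ l.1 * c ^ (l.1 - 1))) * (4 ^ tot w * (c ^ l.1) ^ (deg w - 1)) :=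
            Nat.mul_le_mul_right _ s6
        _ = R (a * (c - a) * c) * ((4 ^ l.1 * 4 ^ tot w) * (c ^ (l.1 - 1) * (c ^ l.1) ^ (deg w - 1))) := by ring
        _ = _ := by
            rw [deg_cons, tot_cons, ← pow_mul, ← pow_add, ← pow_add]
            congr 3
            obtain ⟨k, hk⟩ : ∃ k, deg w = k + 1 := ⟨deg w - 1, by omega⟩
            rw [hk, show k + 1 - 1 = k by omega, Nat.mul_succ]
            omega
    · rw [run]
      simp only
      rw [h8]
      congr 1
      rw [wp, eval_comp]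
      congr 1
      have hcm : ((c ^ l.1 : ℕ) : ℚ) ≠ 0 := by
        have hc0 : 0 < c := by omega
        have : 0 < c ^ l.1 := by positivity
        exact_mod_cast this.ne'
      rw [s7]
      field_simp

end Pool.Agent.H423.AB
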