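import Mathlib
import Pool.Graph.R_pool_sql_team_seeded_63374d34.Results.MP_7aad9f_nt.SphericalSignatures
import Pool.Agent.H423.AB.Run
import Pool.Agent.H423.AB.Count

/-!
# Amplification of failures of the abc inequality near a cusp
-/

namespace Pool.Agent.H423.AB

open Finset Polynomial Filter Pool.Agent.N746.Self

/-- the exceptional `a` for `c` that are divisible by `N` and at most `δ c` -/
def nbad (N : ℕ) (δ ε : ℝ) (c : ℕ) : Set ℕ := {a ∈ bad ε c | N ∣ a ∧ (a : ℝ) ≤ δ * c}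

theorem nbad_finite (N : ℕ) (δ ε : ℝ) (c : ℕ) : (nbad N δ ε c).Finite :=
  (bad_finite ε c).subset fun _ ha => ha.1

/-- one exception of large height produces many exceptions of the same height -/
theorem amplify (M N : ℕ) (δ : ℝ) (hδ0 : 0 ≤ δ) (hδ : δ * 2 ^ M ≤ 1) (hN : M.factorial ∣ N) (ε₀ : ℝ) (hε₀ : 0 < ε₀)
    (hbad : ∀ κ : ℝ, ∃ a b c : ℕ, 0 < a ∧ 0 < b ∧ Nat.Coprime a b ∧ a + b = c ∧ N ∣ a ∧ (a : ℝ) ≤ δ * c ∧
      κ * (R (a * b * c) : ℝ) ^ (1 + ε₀) < c)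
    (D : ℕ) (hD : 1 ≤ D) (V : Finset (List (ℕ × ℕ))) (hV : ∀ w ∈ V, (∀ l ∈ w, Good l ∧ l.1 ≤ M) ∧ deg w = D)
    (ε : ℝ) (hε : 0 < ε) (hεD : D * ε ≤ ε₀ / (1 + ε₀)) (B : ℕ) :
    ∃ c : ℕ, B < c ∧ V.card ≤ (nbad N δ ε c).ncard := by
  classical
  -- the ratios to avoid
  set Z : Finset ℚ := (V ×ˢ V).biUnion fun p => (wp p.1 - wp p.2 : ℚ[X]).roots.toFinset with hZ
  set Q₀ : ℕ := ∑ z ∈ Z, z.den with hQ₀
  have hQ : ∀ z ∈ Z, z.den ≤ Q₀ := fun z hz => Finset.single_le_sum (f := fun z : ℚ => z.den)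
    (fun _ _ => Nat.zero_le _) hz
  -- the constant for the radicals
  obtain ⟨T, hT1, hTw⟩ : ∃ T : ℕ, 1 ≤ T ∧ ∀ w ∈ V, 4 ^ tot w ≤ T :=
    ⟨∑ w ∈ V, 4 ^ tot w + 1, by omega, fun w hw =>
      (Finset.single_le_sum (f := fun w : List (ℕ × ℕ) => 4 ^ tot w) (fun _ _ => Nat.zero_le _) hw).trans
        (Nat.le_succ _)⟩
  set ε₁ : ℝ := ε₀ / (1 + ε₀) with hε₁
  have hε₁0 : 0 < ε₁ := by positivity
  have hε₁e : (1 + ε₀) * (1 - ε₁) = 1 := by rw [hε₁]; field_simp; ring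
  have hDR : (1 : ℝ) ≤ D := by exact_mod_cast hD
  have hTR : (1 : ℝ) ≤ T := by exact_mod_cast hT1
  obtain ⟨a, b, c, ha, hb, hab, habc, hNa, hδa, hlt⟩ := hbad ((T : ℝ) ^ (1 + ε₀) + B + Q₀)
  have hac : a < c := by omega
  have hcop : Nat.Coprime a c := by rw [← habc]; simpa using hab
  have hbc : b = c - a := by omega
  set ρ : ℝ := (R (a * b * c) : ℝ) with hρ
  have hρ1 : 1 ≤ ρ := by rw [hρ]; exact_mod_cast R_pos _
  have hρ0 : 0 < ρ := by linarith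
  have hρp : 1 ≤ ρ ^ (1 + ε₀) := Real.one_le_rpow hρ1 (by linarith)
  have hTp : 1 ≤ (T : ℝ) ^ (1 + ε₀) := Real.one_le_rpow hTR (by linarith)
  have hB0 : (0 : ℝ) ≤ B := Nat.cast_nonneg _
  have hQ0 : (0 : ℝ) ≤ Q₀ := Nat.cast_nonneg _
  have hcbig : (T : ℝ) ^ (1 + ε₀) + B + Q₀ < c := by
    refine lt_of_le_of_lt ?_ hlt
    exact le_mul_of_one_le_right (by linarith) hρp
  have hBc : B < c := by
    have : (B : ℝ) < c := by linarith
    exact_mod_cast this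
  have hQc : Q₀ < c := by
    have : (Q₀ : ℝ) < c := by linarith
    exact_mod_cast this
  have hc1 : 1 < c := by
    have : (1 : ℝ) < c := by linarith
    exact_mod_cast this
  have hcR : (1 : ℝ) < c := by exact_mod_cast hc1
  have hc0 : (0 : ℝ) < c := by linarith
  set ℓ : ℝ := Real.log c with hℓ
  have hℓ0 : 0 < ℓ := Real.log_pos hcR
  -- bound for the radical
  have hρD : Real.log T + Real.log ρ ≤ (1 - ε₁) * ℓ := by
    have h1 : ((T : ℝ) * ρ) ^ (1 + ε₀) ≤ c := by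
      rw [Real.mul_rpow (by linarith) hρ0.le]
      refine le_trans ?_ hlt.le
      apply mul_le_mul_of_nonneg_right _ (by positivity)
      linarith
    have h2 := Real.log_le_log (by positivity) h1
    rw [Real.log_rpow (by positivity), Real.log_mul (by positivity) hρ0.ne'] at h2
    have h3 := mul_le_mul_of_nonneg_left h2 (show 0 ≤ 1 - ε₁ by
      by_contra hneg
      push Not at hneg
      have : (1 + ε₀) * (1 - ε₁) < 0 := mul_neg_of_pos_of_neg (by linarith) hneg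
      linarith)
    calc Real.log T + Real.log ρ = ((1 + ε₀) * (1 - ε₁)) * (Real.log T + Real.log ρ) := by
          rw [hε₁e, one_mul]
      _ = (1 - ε₁) * ((1 + ε₀) * (Real.log T + Real.log ρ)) := by ring
      _ ≤ _ := h3
  refine ⟨c ^ D, lt_of_lt_of_le hBc (Nat.le_self_pow (by omega) c), ?_⟩
  have hmaps : ∀ w ∈ V, (run w (a, c)).1 ∈ nbad N δ ε (c ^ D) := by
    intro w hw
    obtain ⟨h1, h2, h3, h4, g1, g2, h5, -⟩ := run_spec M N δ hδ0 hδ hN w (hV w hw).1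
      a c ha hac hcop hNa hδa
    rw [(hV w hw).2] at h4 h5
    rw [h4] at h2 h3 h5 g2
    refine ⟨⟨h1, h2, h3, ?_⟩, g1, g2⟩
    set q := (run w (a, c)).1
    have hR0 : (0 : ℝ) < R (q * (c ^ D - q) * c ^ D) := by exact_mod_cast R_pos _
    have h6 : (R (q * (c ^ D - q) * c ^ D) : ℝ) ≤ ρ * (T * (c : ℝ) ^ (D - 1)) := by
      rw [hρ, hbc]
      have := h5.trans (Nat.mul_le_mul_left _ (Nat.mul_le_mul_right _ (hTw w hw)))
      exact_mod_cast this
    have h7 : Real.log (R (q * (c ^ D - q) * c ^ D)) ≤ (D - ε₁) * ℓ := by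
      have h8 := Real.log_le_log hR0 h6
      rw [Real.log_mul hρ0.ne' (by positivity), Real.log_mul (by positivity) (by positivity),
        Real.log_pow, Nat.cast_sub hD, Nat.cast_one] at h8
      calc _ ≤ _ := h8
        _ = (Real.log T + Real.log ρ) + (D - 1) * ℓ := by ring
        _ ≤ (1 - ε₁) * ℓ + (D - 1) * ℓ := by linarith
        _ = _ := by ring
    rw [Real.rpow_def_of_pos hR0]
    have h9 : ((c ^ D : ℕ) : ℝ) = Real.exp (D * ℓ) := by
      push_cast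
      rw [← Real.rpow_natCast, Real.rpow_def_of_pos hc0, mul_comm]
    rw [h9]
    apply Real.exp_lt_exp.2
    calc Real.log (R (q * (c ^ D - q) * c ^ D)) * (1 + ε) ≤ ((D - ε₁) * ℓ) * (1 + ε) :=
          mul_le_mul_of_nonneg_right h7 (by linarith)
      _ = ((D - ε₁) * (1 + ε)) * ℓ := by ring
      _ < D * ℓ := by
          apply mul_lt_mul_of_pos_right _ hℓ0
          nlinarith [mul_pos hε₁0 hε]
  have hinj : Set.InjOn (fun w => (run w (a, c)).1) V := by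
    intro w hw w' hw' h
    simp only at h
    have hw := Finset.mem_coe.1 hw
    have hw' := Finset.mem_coe.1 hw'
    obtain ⟨-, -, -, h4, -, -, -, h6⟩ := run_spec M N δ hδ0 hδ hN w (hV w hw).1
      a c ha hac hcop hNa hδa
    obtain ⟨-, -, -, g4, -, -, -, g6⟩ := run_spec M N δ hδ0 hδ hN w' (hV w' hw').1
      a c ha hac hcop hNa hδa
    rw [(hV w hw).2] at h4
    rw [(hV w' hw').2] at g4
    rw [h4] at h6
    rw [g4] at g6
    by_contra hne
    have hwp : (wp w : ℚ[X]) ≠ wp w' := fun he =>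
      hne (wp_inj w w' (fun l hl => ((hV w hw).1 l hl).1) (fun l hl => ((hV w' hw').1 l hl).1) he)
    have hcD : ((c ^ D : ℕ) : ℚ) ≠ 0 := by
      have : 0 < c ^ D := by positivity
      exact_mod_cast this.ne'
    have heval : (wp w : ℚ[X]).eval ((a : ℚ) / c) = (wp w' : ℚ[X]).eval ((a : ℚ) / c) := by
      apply mul_left_cancel₀ hcD
      rw [← h6, ← g6, h]
    have hroot : (a : ℚ) / c ∈ Z := by
      rw [hZ, Finset.mem_biUnion]
      refine ⟨(w, w'), Finset.mk_mem_product hw hw', ?_⟩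
      rw [Multiset.mem_toFinset, mem_roots (sub_ne_zero.2 hwp)]
      simp [IsRoot, heval]
    have hden : ((a : ℚ) / c).den = c := by
      have := Rat.den_div_eq_of_coprime (a := (a : ℤ)) (b := (c : ℤ)) (by omega) (by simpa using hcop)
      push_cast at this
      exact_mod_cast this
    have := hQ _ hroot
    rw [hden] at this
    omega
  calc V.card = (V.image fun w => (run w (a, c)).1).card := (Finset.card_image_of_injOn hinj).symm
    _ = ((V.image fun w => (run w (a, c)).1 : Finset ℕ) : Set ℕ).ncard := (Set.ncard_coe_finset _).symm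
    _ ≤ _ := by
        apply Set.ncard_le_ncard _ (nbad_finite _ _ _ _)
        intro q hq
        rw [Finset.mem_coe, Finset.mem_image] at hq
        obtain ⟨w, hw, rfl⟩ := hq
        exact hmaps w hw

/-- the letters of degree at most `M` -/
def letters (M : ℕ) : Finset (ℕ × ℕ) := (Icc 3 M).biUnion fun m => (Icc 2 (m - 1)).image fun a => (m, a)

theorem mem_letters {M : ℕ} {l : ℕ × ℕ} : l ∈ letters M ↔ Good l ∧ l.1 ≤ M := by
  obtain ⟨m, a⟩ := l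
  unfold letters Good
  simp only [Finset.mem_biUnion, Finset.mem_image, Finset.mem_Icc, Prod.mk.injEq]
  constructor
  · rintro ⟨n, hn, c, hc, rfl, rfl⟩
    omega
  · rintro h
    exact ⟨m, by omega, a, by omega, rfl, rfl⟩

theorem sum_letters (M : ℕ) (s : ℝ) :
    ∑ l ∈ letters M, ((l.1 : ℕ) : ℝ) ^ (-s) = ∑ m ∈ Icc 3 M, ((m : ℝ) - 2) * (m : ℝ) ^ (-s) := by
  unfold letters
  rw [Finset.sum_biUnion]
  · refine Finset.sum_congr rfl fun m hm => ?_
    rw [Finset.sum_image (by intro x _ y _ h; exact (Prod.mk.inj h).2)]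
    simp only [Finset.sum_const, Nat.card_Icc, nsmul_eq_mul]
    congr 1
    have := (Finset.mem_Icc.1 hm).1
    rw [show m - 1 + 1 - 2 = m - 2 by omega, Nat.cast_sub (by omega)]
    simp
  · intro m _ n _ hmn
    rw [Function.onFun, Finset.disjoint_left]
    intro l hl hl'
    obtain ⟨x, -, rfl⟩ := Finset.mem_image.1 hl
    obtain ⟨y, -, hy⟩ := Finset.mem_image.1 hl'
    exact hmn (Prod.mk.inj hy).1.symm

/-- the abc inequality near a cusp implies the abc conjecture -/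
theorem abc_of_near (N : ℕ) (hN : 1 ≤ N) (δ : ℝ) (hδ : 0 < δ)
    (h : ABC fun a _ c => N ∣ a ∧ (a : ℝ) ≤ δ * c) : ABC fun _ _ _ => True := by
  obtain ⟨A, B, C, hA, hB, hC, -, hsph⟩ := spherical 1 1 1 le_rfl le_rfl le_rfl (by norm_num)
  have h1 := hsph N 2 δ (fun i => 2 ^ (2 ^ i)) hN hδ
    (fun i => one_lt_pow₀ (by norm_num) (by positivity)) (by
      have h2 : Tendsto (fun i : ℕ => (2 : ℝ) ^ i) atTop atTop := tendsto_pow_atTop_atTop_of_one_lt (by norm_num)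
      have h3 : Tendsto (fun i : ℕ => 2 ^ i) atTop (atTop : Filter ℕ) :=
        tendsto_pow_atTop_atTop_of_one_lt (by norm_num)
      exact h2.comp h3) (fun i => by rw [← pow_mul, pow_succ])
  rw [← h1]
  intro ε hε
  obtain ⟨κ, hκ⟩ := h ε hε
  exact ⟨κ, fun a b c ha hb hab habc hT => hκ a b c ha hb hab habc ⟨hT.2.1, hT.2.2.1⟩⟩

/-- if the abc conjecture fails, the exceptions are numerous -/
theorem many (hnot : ¬ ABC fun _ _ _ => True) (s : ℝ) (hs0 : 0 ≤ s) (M : ℕ)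
    (hs : 1 < ∑ m ∈ Icc 3 M, ((m : ℝ) - 2) * (m : ℝ) ^ (-s)) (N : ℕ) (hN : 1 ≤ N) (δ₀ : ℝ) (hδ₀ : 0 < δ₀) :
    ∃ δ₁ : ℝ, 0 < δ₁ ∧ ∀ ε : ℝ, 0 < ε → ε < δ₁ → ∀ B : ℕ, ∃ c : ℕ, B < c ∧
      ε ^ (-s) ≤ ((nbad N δ₀ ε c).ncard : ℝ) := by
  set N' : ℕ := M.factorial * N with hN'
  set δ : ℝ := min δ₀ (1 / 2 ^ M) with hδ
  have hδ0 : 0 < δ := lt_min hδ₀ (by positivity)
  have hδM : δ * 2 ^ M ≤ 1 := by
    have : δ ≤ 1 / 2 ^ M := min_le_right _ _
    rwa [le_div_iff₀ (by positivity)] at this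
  have hnot' : ¬ ABC fun a _ c => N' ∣ a ∧ (a : ℝ) ≤ δ * c := fun h =>
    hnot (abc_of_near N' (Nat.mul_pos (Nat.factorial_pos _) (by omega)) δ hδ0 h)
  have hbad : ∃ ε₀ : ℝ, 0 < ε₀ ∧ ∀ κ : ℝ, ∃ a b c : ℕ, 0 < a ∧ 0 < b ∧ Nat.Coprime a b ∧ a + b = c ∧
      N' ∣ a ∧ (a : ℝ) ≤ δ * c ∧ κ * (R (a * b * c) : ℝ) ^ (1 + ε₀) < c := by
    unfold ABC at hnot'
    push Not at hnot'
    obtain ⟨ε₀, hε₀, h1⟩ := hnot'
    refine ⟨ε₀, hε₀, fun κ => ?_⟩
    obtain ⟨a, b, c, h2, h3, h4, h5, ⟨h6, h7⟩, h8⟩ := h1 κ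
    exact ⟨a, b, c, h2, h3, h4, h5, h6, h7, h8⟩
  obtain ⟨ε₀, hε₀, hbad⟩ := hbad
  obtain ⟨δ₁, hδ₁, hg⟩ := growth (letters M) Prod.fst M (fun l hl => by
    have := mem_letters.1 hl
    unfold Good at this
    omega) s hs0 (by rw [sum_letters]; exact hs) (ε₀ / (1 + ε₀)) (by positivity)
  refine ⟨δ₁, hδ₁, fun ε hε hεδ B => ?_⟩
  obtain ⟨D, V, hD, hV, hDε, hcard⟩ := hg ε hε hεδ
  obtain ⟨c, hc, hc2⟩ := amplify M N' δ hδ0.le hδM (Dvd.intro _ rfl) ε₀ hε₀ hbad D hD V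
    (fun w hw => ⟨fun l hl => mem_letters.1 ((hV w hw).1 l hl), (hV w hw).2⟩) ε hε hDε B
  refine ⟨c, hc, hcard.trans ?_⟩
  have h3 : (nbad N' δ ε c).ncard ≤ (nbad N δ₀ ε c).ncard := by
    apply Set.ncard_le_ncard _ (nbad_finite _ _ _ _)
    rintro a ⟨h1, h2, h3⟩
    refine ⟨h1, (Dvd.intro_left _ rfl).trans h2, h3.trans ?_⟩
    exact mul_le_mul_of_nonneg_right (min_le_left _ _) (Nat.cast_nonneg _)
  exact_mod_cast hc2.trans h3

theorem multiplicity (s : ℝ) (hs0 : 0 ≤ s) (M : ℕ)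
    (hs : 1 < ∑ m ∈ Icc 3 M, ((m : ℝ) - 2) * (m : ℝ) ^ (-s)) (N : ℕ) (hN : 1 ≤ N) (δ₀ : ℝ) (hδ₀ : 0 < δ₀) :
    (ABC fun _ _ _ => True) ↔
      ∀ δ : ℝ, 0 < δ → ∃ ε : ℝ, 0 < ε ∧ ε < δ ∧ ∃ B : ℕ, ∀ c : ℕ, B < c →
        ((nbad N δ₀ ε c).ncard : ℝ) < ε ^ (-s) := by
  constructor
  · intro h δ hδ
    obtain ⟨B, hB⟩ := eventually_empty h (δ / 2) (by positivity)
    refine ⟨δ / 2, by positivity, by linarith, B, fun c hc => ?_⟩
    have : nbad N δ₀ (δ / 2) c = ∅ := by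
      rw [Set.eq_empty_iff_forall_notMem]
      intro a ha
      have := ha.1
      rw [hB c hc] at this
      exact this
    rw [this]
    simp only [Set.ncard_empty, Nat.cast_zero]
    positivity
  · intro h
    by_contra hnot
    obtain ⟨δ₁, hδ₁, h1⟩ := many hnot s hs0 M hs N hN δ₀ hδ₀
    obtain ⟨ε, hε, hεδ, B, hB⟩ := h δ₁ hδ₁
    obtain ⟨c, hc, h2⟩ := h1 ε hε hεδ B
    have := hB c hc
    linarith

end Pool.Agent.H423.AB
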