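import Mathlib
import Pool.Graph.R_pool_sql_team_seeded_63374d34.N757.OH.Near

/-!
# Every coprime triple has an image near a cusp; explicit form

The construction is the one of the theorem `Pool.Agent.N757.OH.near` of the library. We need it as a
statement about the triples themselves.
-/

set_option autoImplicit false

namespace Pool.Agent.H423.AB

open Pool.Agent.N757.OH

/-- a map of degree `D` which moves every coprime triple to one near the cusp `a = 0`, without losing a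
prime -/
theorem near_primes (N : ℕ) (δ : ℝ) (hN : 1 ≤ N) (hδ : 0 < δ) :
    ∃ (D : ℕ) (K : ℝ), 2 ≤ D ∧ 1 ≤ K ∧ ∀ a b c : ℕ, 0 < a → 0 < b → Nat.Coprime a b → a + b = c → 2 * a ≤ c →
      ∃ a' b' c' w : ℕ, 0 < a' ∧ 0 < b' ∧ Nat.Coprime a' b' ∧ a' + b' = c' ∧ N ∣ a' ∧ (a' : ℝ) ≤ δ * c' ∧
        (c : ℝ) ^ D ≤ K * c' ∧ (c' : ℝ) ≤ K * (c : ℝ) ^ D ∧ w ≠ 0 ∧ (w : ℝ) * c ≤ K * (c : ℝ) ^ D ∧
        (∀ p : ℕ, p.Prime → p ∣ a * b * c → p ∣ a' * b' * c') ∧
        (∀ p : ℕ, p.Prime → p ∣ a' * b' * c' → p ∣ a * b * c * w) := by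
  obtain ⟨m, hm⟩ : ∃ m : ℕ, (1 / 2 : ℝ) ^ m < δ / 16 :=
    exists_pow_lt_of_lt_one (by positivity) (by norm_num)
  obtain ⟨n, hn⟩ : ∃ n : ℕ, n = Nat.totient N * (N + m + 2) := ⟨_, rfl⟩
  have htot : 1 ≤ Nat.totient N := Nat.totient_pos.2 hN
  have hn1 : N + m + 2 ≤ n := by rw [hn]; exact Nat.le_mul_of_pos_left _ htot
  have htn : Nat.totient N ∣ n := ⟨_, hn⟩
  have hsmall : 16 * (1 / 2 : ℝ) ^ n ≤ δ := by
    have h1 : (1 / 2 : ℝ) ^ n ≤ (1 / 2 : ℝ) ^ m :=
      pow_le_pow_of_le_one (by norm_num) (by norm_num) (by omega)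
    linarith
  have hnR : (1 : ℝ) ≤ n := by exact_mod_cast (by omega : 1 ≤ n)
  refine ⟨4 * n, 16 + 4 * n, by omega, by linarith, ?_⟩
  intro a b c ha hb hab habc h2a
  obtain ⟨S, hS, hSc⟩ := exists_geom a b c n habc
  obtain ⟨A₀, hA₀⟩ : ∃ A₀ : ℕ, A₀ = a ^ n := ⟨_, rfl⟩
  obtain ⟨C₀, hC₀⟩ : ∃ C₀ : ℕ, C₀ = c ^ n := ⟨_, rfl⟩
  obtain ⟨B₀, hB₀⟩ : ∃ B₀ : ℕ, B₀ = b * S := ⟨_, rfl⟩
  have hABC : A₀ + B₀ = C₀ := by rw [hA₀, hB₀, hC₀]; exact hS
  have hA0 : 0 < A₀ := by rw [hA₀]; positivity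
  have hpow : 2 ^ n * A₀ ≤ C₀ := by
    rw [hA₀, hC₀, ← mul_pow]
    exact Nat.pow_le_pow_left h2a n
  have h4 : 4 * A₀ ≤ C₀ := by
    have h5 : 2 ^ 2 ≤ 2 ^ n := Nat.pow_le_pow_right (by norm_num) (by omega)
    exact (Nat.mul_le_mul_right A₀ h5).trans hpow
  obtain ⟨U, hU⟩ : ∃ U : ℕ, B₀ = A₀ + U := ⟨B₀ - A₀, by omega⟩
  have hU0 : 0 < U := by omega
  have hB0 : 0 < B₀ := by omega
  have hC0 : 0 < C₀ := by omega
  have hCU : C₀ = 2 * A₀ + U := by omega
  obtain ⟨V, hV⟩ : ∃ V : ℕ, V = C₀ ^ 2 + 4 * A₀ * B₀ := ⟨_, rfl⟩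
  have hid : 16 * A₀ * B₀ * C₀ ^ 2 + U ^ 4 = V ^ 2 := by rw [hV, hU, hCU]; ring
  have hND : N ∣ A₀ * B₀ * C₀ := by
    have h5 := dvd_prod hN htn (by omega) (by omega : a ≤ c) (by
      rw [← habc]; simpa using hab : Nat.Coprime a c)
    have h6 : c ^ n - a ^ n = B₀ := by rw [← hA₀, ← hC₀]; omega
    rwa [h6, ← hA₀, ← hC₀] at h5
  have hSpos : 0 < S := by
    rcases Nat.eq_zero_or_pos S with h5 | h5
    · rw [h5, mul_zero] at hB₀; omega
    · exact h5
  have hV0 : 0 < V := by rw [hV]; positivity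
  have hc0 : 0 < c := by omega
  have habc0 : a * b * c ≠ 0 := by positivity
  obtain ⟨w, hw⟩ : ∃ w : ℕ, w = 2 * S * U * V := ⟨_, rfl⟩
  have hw0 : w ≠ 0 := by rw [hw]; positivity
  -- coprimality facts
  have hac : Nat.Coprime a c := by rw [← habc]; simpa using hab
  have hACp : ∀ p : ℕ, p.Prime → p ∣ A₀ → p ∣ C₀ → False := by
    intro p hp h5 h6
    rw [hA₀] at h5
    rw [hC₀] at h6
    have h7 := hp.dvd_of_dvd_pow h5
    have h8 := hp.dvd_of_dvd_pow h6
    have h9 := Nat.dvd_gcd h7 h8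
    rw [hac] at h9
    exact hp.one_lt.ne' (Nat.dvd_one.1 h9)
  have hBAp : ∀ p : ℕ, p.Prime → p ∣ B₀ → p ∣ A₀ → False := fun p hp h5 h6 =>
    hACp p hp h6 (by rw [← hABC]; exact dvd_add h6 h5)
  have hBCp : ∀ p : ℕ, p.Prime → p ∣ B₀ → p ∣ C₀ → False := fun p hp h5 h6 =>
    hACp p hp ((Nat.dvd_add_left h5).1 (by rw [hABC]; exact h6)) h6
  -- real estimates
  have eA : (A₀ : ℝ) ≤ (1 / 2) ^ n * C₀ := by
    have h5 : (2 : ℝ) ^ n * A₀ ≤ C₀ := by exact_mod_cast hpow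
    rw [one_div, inv_pow, inv_mul_eq_div, le_div_iff₀ (by positivity)]
    linarith
  have eC : (C₀ : ℝ) = (c : ℝ) ^ n := by rw [hC₀]; push_cast; rfl
  have eV : (C₀ : ℝ) ^ 2 ≤ V := by rw [hV]; push_cast; nlinarith [mul_nonneg (Nat.cast_nonneg A₀ : (0 : ℝ) ≤ A₀) (Nat.cast_nonneg B₀)]
  have eV2 : (V : ℝ) ≤ 2 * (C₀ : ℝ) ^ 2 := by
    have h5 : (C₀ : ℝ) = A₀ + B₀ := by exact_mod_cast hABC.symm
    rw [hV]; push_cast; rw [h5]; nlinarith [sq_nonneg ((A₀ : ℝ) - B₀)]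
  have eU : (U : ℝ) ≤ C₀ := by exact_mod_cast (by omega : U ≤ C₀)
  have hcR : (0 : ℝ) < c := by exact_mod_cast hc0
  have hCR : (0 : ℝ) < C₀ := by exact_mod_cast hC0
  have ewc : (w : ℝ) * c ≤ 4 * n * (c : ℝ) ^ (4 * n) := by
    calc (w : ℝ) * c = 2 * (S * c) * U * V := by rw [hw]; push_cast; ring
      _ ≤ 2 * (n * (c : ℝ) ^ n) * C₀ * (2 * (C₀ : ℝ) ^ 2) := by gcongr
      _ = 4 * n * (c : ℝ) ^ (4 * n) := by
          rw [eC, show 4 * n = n + n + n + n by ring, pow_add, pow_add, pow_add]; ring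
  have hwK : (w : ℝ) * c ≤ (16 + 4 * n) * (c : ℝ) ^ (4 * n) := by
    have : (0 : ℝ) < (c : ℝ) ^ (4 * n) := by positivity
    linarith
  have hKn : (0 : ℝ) ≤ 4 * n := by positivity
  rcases Nat.even_or_odd c with hce | hco
  · -- `c` even
    have h5 : 4 ∣ C₀ := by
      rw [hC₀]
      have : 2 ^ 2 ∣ c ^ n := (pow_dvd_pow_of_dvd hce.two_dvd 2).trans (pow_dvd_pow c (by omega))
      simpa using this
    obtain ⟨C₁, hC₁⟩ := h5
    have hAodd : ¬ 2 ∣ A₀ := fun h6 => hACp 2 Nat.prime_two h6 (by rw [hC₁]; exact ⟨2 * C₁, by ring⟩)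
    obtain ⟨U₁, hU₁⟩ : ∃ U₁, A₀ + U₁ = 2 * C₁ := ⟨2 * C₁ - A₀, by omega⟩
    have hUU : U = 2 * U₁ := by omega
    obtain ⟨V₁, hV₁⟩ : ∃ V₁, V₁ = 4 * C₁ ^ 2 + A₀ * B₀ := ⟨_, rfl⟩
    have hVV : V = 4 * V₁ := by rw [hV, hV₁, hC₁]; ring
    have hU10 : 0 < U₁ := by omega
    have hV10 : 0 < V₁ := by omega
    have hid1 : A₀ * B₀ * C₀ ^ 2 + U₁ ^ 4 = V₁ ^ 2 := by
      have h6 : 16 * (A₀ * B₀ * C₀ ^ 2 + U₁ ^ 4) = 16 * V₁ ^ 2 := by
        rw [hUU, hVV] at hid
        linarith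
      exact Nat.eq_of_mul_eq_mul_left (by norm_num) h6
    have eV1 : (C₀ : ℝ) ^ 2 ≤ 4 * V₁ := by
      have : (V : ℝ) = 4 * V₁ := by rw [hVV]; push_cast; ring
      rw [← this]; exact eV
    refine ⟨A₀ * B₀ * C₀ ^ 2, U₁ ^ 4, V₁ ^ 2, w, by positivity, by positivity, ?_, hid1, ?_, ?_, ?_, ?_, hw0, hwK,
      fun p hp h6 => ?_, fun p hp h6 => ?_⟩
    · refine coprime_of_primes fun p hp h6 h7 => ?_
      have h7 := hp.dvd_of_dvd_pow h7
      have hUA : p ∣ A₀ → p ∣ C₀ := fun h8 => by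
        have : p ∣ 2 * C₁ := by rw [← hU₁]; exact dvd_add h8 h7
        rw [hC₁, show 4 * C₁ = 2 * C₁ * 2 by ring]; exact this.mul_right _
      rcases hp.dvd_mul.1 h6 with h8 | h8
      · rcases hp.dvd_mul.1 h8 with h9 | h9
        · exact hACp p hp h9 (hUA h9)
        · -- `p ∣ B₀`
          have h10 : p ∣ U := by rw [hUU]; exact h7.mul_left 2
          exact hBAp p hp h9 ((Nat.dvd_add_left h10).1 (by rw [← hU]; exact h9))
      · have h9 := hp.dvd_of_dvd_pow h8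
        have h10 : p ∣ U := by rw [hUU]; exact h7.mul_left 2
        have h11 : p ∣ 2 * A₀ := (Nat.dvd_add_left h10).1 (by rw [← hCU]; exact h9)
        rcases hp.dvd_mul.1 h11 with h12 | h12
        · have hp2 : p = 2 := (Nat.prime_dvd_prime_iff_eq hp Nat.prime_two).1 h12
          rw [hp2] at h7
          exact hAodd ((Nat.dvd_add_left h7).1 (by rw [hU₁]; exact ⟨C₁, rfl⟩))
        · exact hACp p hp h12 h9
    · rw [pow_two, ← mul_assoc]
      exact hND.mul_right _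
    · push_cast
      have h6 : (B₀ : ℝ) ≤ C₀ := by exact_mod_cast (by omega : B₀ ≤ C₀)
      calc (A₀ : ℝ) * B₀ * C₀ ^ 2 ≤ ((1 / 2) ^ n * C₀) * C₀ * C₀ ^ 2 := by gcongr
        _ = (1 / 2) ^ n * ((C₀ : ℝ) ^ 2) ^ 2 := by ring
        _ ≤ (1 / 2) ^ n * (4 * V₁) ^ 2 := by gcongr
        _ = (16 * (1 / 2) ^ n) * (V₁ : ℝ) ^ 2 := by ring
        _ ≤ δ * (V₁ : ℝ) ^ 2 := by gcongr
    · push_cast
      calc (c : ℝ) ^ (4 * n) = ((C₀ : ℝ) ^ 2) ^ 2 := by
            rw [eC, ← pow_mul, ← pow_mul]; congr 1; ring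
        _ ≤ (4 * (V₁ : ℝ)) ^ 2 := by gcongr
        _ = 16 * (V₁ : ℝ) ^ 2 := by ring
        _ ≤ _ := by gcongr; linarith
    · have e2 : (V : ℝ) = 4 * V₁ := by rw [hVV]; push_cast; ring
      have h8 : (V₁ : ℝ) ≤ (C₀ : ℝ) ^ 2 := by
        have : (0 : ℝ) ≤ (C₀ : ℝ) ^ 2 := by positivity
        linarith
      push_cast
      calc (V₁ : ℝ) ^ 2 ≤ ((C₀ : ℝ) ^ 2) ^ 2 := by gcongr
        _ = (c : ℝ) ^ (4 * n) := by rw [eC, ← pow_mul, ← pow_mul]; congr 1; ring
        _ ≤ _ := by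
            have : (0 : ℝ) < (c : ℝ) ^ (4 * n) := by positivity
            nlinarith
    · rcases hp.dvd_mul.1 h6 with h7 | h7
      · rcases hp.dvd_mul.1 h7 with h8 | h8
        · have : p ∣ A₀ := by rw [hA₀]; exact h8.trans (dvd_pow_self a (by omega))
          exact (((this.mul_right _).mul_right _).mul_right _).mul_right _
        · have : p ∣ B₀ := by rw [hB₀]; exact h8.mul_right _
          exact (((this.mul_left _).mul_right _).mul_right _).mul_right _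
      · have : p ∣ C₀ ^ 2 := by
          rw [hC₀]; exact (h7.trans (dvd_pow_self c (by omega))).trans (dvd_pow_self _ (by norm_num))
        exact ((this.mul_left _).mul_right _).mul_right _
    · rw [hw]
      rcases hp.dvd_mul.1 h6 with h7 | h7
      · rcases hp.dvd_mul.1 h7 with h8 | h8
        · rcases hp.dvd_mul.1 h8 with h9 | h9
          · rcases hp.dvd_mul.1 h9 with h10 | h10
            · rw [hA₀] at h10
              exact (((hp.dvd_of_dvd_pow h10).mul_right _).mul_right _).mul_right _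
            · rw [hB₀] at h10
              rcases hp.dvd_mul.1 h10 with h11 | h11
              · exact ((h11.mul_left _).mul_right _).mul_right _
              · exact (((h11.mul_left _).mul_right _).mul_right _).mul_left _
          · have h10 := hp.dvd_of_dvd_pow h9
            rw [hC₀] at h10
            exact ((hp.dvd_of_dvd_pow h10).mul_left _).mul_right _
        · have h9 := hp.dvd_of_dvd_pow h8
          have : p ∣ U := by rw [hUU]; exact h9.mul_left 2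
          exact ((this.mul_left _).mul_right _).mul_left _
      · have h9 := hp.dvd_of_dvd_pow h7
        have : p ∣ V := by rw [hVV]; exact h9.mul_left 4
        exact (this.mul_left _).mul_left _
  · -- `c` odd
    have hCodd : ¬ 2 ∣ C₀ := by
      intro h6
      rw [hC₀] at h6
      have h7 := Nat.prime_two.dvd_of_dvd_pow h6
      exact (Nat.not_even_iff_odd.2 hco) (even_iff_two_dvd.2 h7)
    refine ⟨16 * A₀ * B₀ * C₀ ^ 2, U ^ 4, V ^ 2, w, by positivity, by positivity, ?_, hid, ?_, ?_, ?_, ?_, hw0, hwK,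
      fun p hp h6 => ?_, fun p hp h6 => ?_⟩
    · refine coprime_of_primes fun p hp h6 h7 => ?_
      have h7 := hp.dvd_of_dvd_pow h7
      have h2 : ¬ p ∣ 2 := fun h8 => by
        have hp2 : p = 2 := (Nat.prime_dvd_prime_iff_eq hp Nat.prime_two).1 h8
        rw [hp2] at h7
        exact hCodd (by rw [hCU]; exact dvd_add ⟨A₀, rfl⟩ h7)
      rcases hp.dvd_mul.1 h6 with h8 | h8
      · rcases hp.dvd_mul.1 h8 with h9 | h9
        · rcases hp.dvd_mul.1 h9 with h10 | h10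
          · exact h2 (hp.dvd_of_dvd_pow (by simpa using h10 : p ∣ 2 ^ 4))
          · exact hACp p hp h10 (by rw [hCU]; exact dvd_add (h10.mul_left 2) h7)
        · exact hBAp p hp h9 ((Nat.dvd_add_left h7).1 (by rw [← hU]; exact h9))
      · have h9 := hp.dvd_of_dvd_pow h8
        have h11 : p ∣ 2 * A₀ := (Nat.dvd_add_left h7).1 (by rw [← hCU]; exact h9)
        rcases hp.dvd_mul.1 h11 with h12 | h12
        · exact h2 h12
        · exact hACp p hp h12 h9
    · have : 16 * A₀ * B₀ * C₀ ^ 2 = (A₀ * B₀ * C₀) * (16 * C₀) := by ring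
      rw [this]
      exact hND.mul_right _
    · push_cast
      have h6 : (B₀ : ℝ) ≤ C₀ := by exact_mod_cast (by omega : B₀ ≤ C₀)
      calc 16 * (A₀ : ℝ) * B₀ * C₀ ^ 2 ≤ 16 * ((1 / 2) ^ n * C₀) * C₀ * C₀ ^ 2 := by gcongr
        _ = 16 * (1 / 2) ^ n * ((C₀ : ℝ) ^ 2) ^ 2 := by ring
        _ ≤ 16 * (1 / 2) ^ n * (V : ℝ) ^ 2 := by gcongr
        _ ≤ δ * (V : ℝ) ^ 2 := by gcongr
    · push_cast
      calc (c : ℝ) ^ (4 * n) = ((C₀ : ℝ) ^ 2) ^ 2 := by
            rw [eC, ← pow_mul, ← pow_mul]; congr 1; ring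
        _ ≤ (V : ℝ) ^ 2 := by gcongr
        _ = 1 * (V : ℝ) ^ 2 := by ring
        _ ≤ _ := by gcongr; linarith
    · push_cast
      calc (V : ℝ) ^ 2 ≤ (2 * (C₀ : ℝ) ^ 2) ^ 2 := by gcongr
        _ = 4 * (c : ℝ) ^ (4 * n) := by rw [eC, mul_pow, ← pow_mul, ← pow_mul]; congr 2 <;> ring
        _ ≤ _ := by
            have : (0 : ℝ) < (c : ℝ) ^ (4 * n) := by positivity
            nlinarith
    · rcases hp.dvd_mul.1 h6 with h7 | h7
      · rcases hp.dvd_mul.1 h7 with h8 | h8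
        · have : p ∣ A₀ := by rw [hA₀]; exact h8.trans (dvd_pow_self a (by omega))
          exact ((((this.mul_left 16).mul_right _).mul_right _).mul_right _).mul_right _
        · have : p ∣ B₀ := by rw [hB₀]; exact h8.mul_right _
          exact (((this.mul_left _).mul_right _).mul_right _).mul_right _
      · have : p ∣ C₀ ^ 2 := by
          rw [hC₀]; exact (h7.trans (dvd_pow_self c (by omega))).trans (dvd_pow_self _ (by norm_num))
        exact ((this.mul_left _).mul_right _).mul_right _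
    · rw [hw]
      rcases hp.dvd_mul.1 h6 with h7 | h7
      · rcases hp.dvd_mul.1 h7 with h8 | h8
        · rcases hp.dvd_mul.1 h8 with h9 | h9
          · rcases hp.dvd_mul.1 h9 with h10 | h10
            · rcases hp.dvd_mul.1 h10 with h11 | h11
              · have h12 := hp.dvd_of_dvd_pow (by simpa using h11 : p ∣ 2 ^ 4)
                exact (((h12.mul_right _).mul_right _).mul_right _).mul_left _
              · rw [hA₀] at h11
                exact (((hp.dvd_of_dvd_pow h11).mul_right _).mul_right _).mul_right _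
            · rw [hB₀] at h10
              rcases hp.dvd_mul.1 h10 with h11 | h11
              · exact ((h11.mul_left _).mul_right _).mul_right _
              · exact (((h11.mul_left _).mul_right _).mul_right _).mul_left _
          · have h10 := hp.dvd_of_dvd_pow h9
            rw [hC₀] at h10
            exact ((hp.dvd_of_dvd_pow h10).mul_left _).mul_right _
        · exact (((hp.dvd_of_dvd_pow h8).mul_left _).mul_right _).mul_left _
      · exact ((hp.dvd_of_dvd_pow h7).mul_left _).mul_left _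

end Pool.Agent.H423.AB
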