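import Mathlib
import Pool.Agent.H423.AB.Run

/-!
# The primes along a word
-/

set_option autoImplicit false

namespace Pool.Agent.H423.AB

open Finset Polynomial Pool.Agent.N746.Self

/-- one step: no prime is lost, and the new primes divide a small number -/
theorem step_primes (m a : ℕ) (ha : 2 ≤ a) (ham : a < m) (x c : ℕ) (hx : 0 < x) (hxc : x < c) :
    ∃ W : ℕ, W ≠ 0 ∧ W ≤ 4 ^ m * c ^ (m - 1) ∧
      (∀ p : ℕ, p.Prime → p ∣ x * (c - x) * c →
        p ∣ ps m a x (c - x) * (c ^ m - ps m a x (c - x)) * c ^ m) ∧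
      (∀ p : ℕ, p.Prime → p ∣ ps m a x (c - x) * (c ^ m - ps m a x (c - x)) * c ^ m →
        p ∣ x * (c - x) * c * W) := by
  obtain ⟨y, hy⟩ : ∃ y, y = c - x := ⟨_, rfl⟩
  have hy0 : 0 < y := by omega
  have hxy : x + y = c := by omega
  have hc0 : 0 < c := by omega
  rw [← hy]
  have hsum : ps m a x y + ps m (m + 1 - a) y x = c ^ m := by rw [ps_add m a (by omega), hxy]
  have hA : 0 < ps m a x y := ps_pos m a ham.le x y hx
  have hB : 0 < ps m (m + 1 - a) y x := ps_pos m _ (by omega) y x hy0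
  have hBe : c ^ m - ps m a x y = ps m (m + 1 - a) y x := by omega
  rw [hBe]
  set A' := qs m a x y with hA'
  set B' := qs m (m + 1 - a) y x with hB'
  have eA : ps m a x y = x ^ a * A' := ps_eq m a x y
  have eB : ps m (m + 1 - a) y x = y ^ (m + 1 - a) * B' := ps_eq _ _ y x
  have hA'0 : A' ≠ 0 := by
    intro h; rw [eA, h] at hA; omega
  have hB'0 : B' ≠ 0 := by
    intro h; rw [eB, h] at hB; omega
  have hA'le : A' ≤ 2 ^ m * c ^ (m - a) := by
    have := qs_le m a ham.le x y
    rwa [hxy] at this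
  have hB'le : B' ≤ 2 ^ m * c ^ (a - 1) := by
    have := qs_le m (m + 1 - a) (by omega) y x
    rwa [show y + x = c by omega, show m - (m + 1 - a) = a - 1 by omega] at this
  refine ⟨A' * B', mul_ne_zero hA'0 hB'0, ?_, ?_, ?_⟩
  · calc A' * B' ≤ (2 ^ m * c ^ (m - a)) * (2 ^ m * c ^ (a - 1)) := Nat.mul_le_mul hA'le hB'le
      _ = _ := by
          have e1 : m - 1 = (m - a) + (a - 1) := by omega
          have e2 : (4 : ℕ) = 2 * 2 := by norm_num
          rw [e1, e2, pow_add, mul_pow]; ring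
  · intro p hp hd
    rw [eA, eB]
    rcases (hp.dvd_mul).1 hd with h | h
    · rcases (hp.dvd_mul).1 h with h | h
      · have : p ∣ x ^ a := h.trans (dvd_pow_self x (by omega))
        exact ((this.mul_right _).mul_right _).mul_right _
      · have : p ∣ y ^ (m + 1 - a) := h.trans (dvd_pow_self y (by omega))
        exact ((this.mul_right _).mul_left _).mul_right _
    · have : p ∣ c ^ m := h.trans (dvd_pow_self c (by omega))
      exact this.mul_left _
  · intro p hp hd
    rcases (hp.dvd_mul).1 hd with h | h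
    · rcases (hp.dvd_mul).1 h with h | h
      · rw [eA] at h
        rcases (hp.dvd_mul).1 h with h | h
        · have := hp.dvd_of_dvd_pow h
          exact ((this.mul_right y).mul_right c).mul_right _
        · exact (h.mul_right B').mul_left _
      · rw [eB] at h
        rcases (hp.dvd_mul).1 h with h | h
        · have := hp.dvd_of_dvd_pow h
          exact ((this.mul_left x).mul_right c).mul_right _
        · exact (h.mul_left A').mul_left _
    · have := hp.dvd_of_dvd_pow h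
      exact (this.mul_left (x * y)).mul_right _

theorem run_primes (M N : ℕ) (δ : ℝ) (hδ0 : 0 ≤ δ) (hδ : δ * 2 ^ M ≤ 1) (hN : M.factorial ∣ N)
    (w : List (ℕ × ℕ)) (hw : ∀ l ∈ w, Good l ∧ l.1 ≤ M) : ∀ a c : ℕ, 0 < a → a < c → Nat.Coprime a c →
    N ∣ a → (a : ℝ) ≤ δ * c → ∃ W : ℕ, W ≠ 0 ∧ W ≤ 4 ^ tot w * c ^ (deg w - 1) ∧
      (∀ p : ℕ, p.Prime → p ∣ a * (c - a) * c →
        p ∣ (run w (a, c)).1 * ((run w (a, c)).2 - (run w (a, c)).1) * (run w (a, c)).2) ∧
      (∀ p : ℕ, p.Prime → p ∣ (run w (a, c)).1 * ((run w (a, c)).2 - (run w (a, c)).1) * (run w (a, c)).2 →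
        p ∣ a * (c - a) * c * W) := by
  induction w with
  | nil =>
    intro a c ha hac hcop hNa hδa
    exact ⟨1, one_ne_zero, by simp [deg, tot], fun p _ h => h, fun p _ h => by rw [mul_one]; exact h⟩
  | cons l w ih =>
    intro a c ha hac hcop hNa hδa
    obtain ⟨hl, hlM⟩ := hw l (by simp)
    have hw' : ∀ k ∈ w, Good k ∧ k.1 ≤ M := fun k hk => hw k (by simp [hk])
    unfold Good at hl
    obtain ⟨s1, s2, s3, s4, s5, -, -⟩ :=
      step M N δ hδ0 hδ hN l.1 l.2 hl.1 hl.2 hlM a c ha hac hcop hNa hδa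
    obtain ⟨W₁, g1, g2, g3, g4⟩ := step_primes l.1 l.2 hl.1 hl.2 a c ha hac
    obtain ⟨W₂, h1, h2, h3, h4⟩ := ih hw' _ _ s1 s2 s3 s4 s5
    have hp : 1 ≤ deg w := deg_pos w fun k hk => (hw' k hk).1
    refine ⟨W₁ * W₂, mul_ne_zero g1 h1, ?_, fun p hp h => ?_, fun p hp h => ?_⟩
    · calc W₁ * W₂ ≤ (4 ^ l.1 * c ^ (l.1 - 1)) * (4 ^ tot w * (c ^ l.1) ^ (deg w - 1)) := Nat.mul_le_mul g2 h2
        _ = (4 ^ l.1 * 4 ^ tot w) * (c ^ (l.1 - 1) * (c ^ l.1) ^ (deg w - 1)) := by ring
        _ = _ := by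
            rw [deg_cons, tot_cons, ← pow_mul, ← pow_add, ← pow_add]
            congr 2
            obtain ⟨k, hk⟩ : ∃ k, deg w = k + 1 := ⟨deg w - 1, by omega⟩
            rw [hk, show k + 1 - 1 = k by omega, Nat.mul_succ]
            omega
    · rw [run]
      exact h3 p hp (g3 p hp h)
    · rw [run] at h
      have h5 := h4 p hp h
      rcases hp.dvd_mul.1 h5 with h6 | h6
      · have h7 := g4 p hp h6
        rcases hp.dvd_mul.1 h7 with h8 | h8
        · exact h8.mul_right _
        · exact (h8.mul_right _).mul_left _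
      · exact (h6.mul_left _).mul_left _

end Pool.Agent.H423.AB
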