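import Mathlib

/-!
# A numerical inequality
-/

namespace Pool.Agent.H423.AB

open Finset

/-- lower bounds for `10 ^ 9 * m ^ (-12 / 5)` -/
def tbl : List ℕ := [0, 0, 0, 71599334, 35896823, 21012222, 13565537, 9370541, 6801176, 5126464, 3981071, 3167069,
2570188, 2120976, 1775385, 1504461, 1288581, 1114095, 971283, 853083, 754272, 670924, 600047,
539328, 486959, 441513, 401849, 367051, 336372, 309203, 285042, 263470, 244140, 226760, 211081,
196895, 184023, 172312, 161629, 151860, 142907, 134684, 127116, 120136, 113687, 107718, 102183,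
97043, 92261, 87807, 83651, 79768, 76136, 72734, 69543, 66547, 63730, 61080, 58583, 56228, 54005,
51904, 49918, 48037, 46255, 44566, 42962, 41440, 39992, 38615, 37304, 36056, 34865, 33730, 32647,
31612, 30622, 29677, 28772, 27905, 27075, 26280, 25518, 24786, 24084, 23409, 22761, 22138, 21539,
20963, 20408, 19874, 19360, 18864, 18386, 17925, 17480, 17050, 16636, 16235, 15848, 15474, 15113,
14763, 14425, 14097, 13780, 13473, 13175, 12887, 12608, 12337, 12074, 11819, 11572, 11332, 11099,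
10873, 10653, 10439, 10232, 10030, 9834, 9643, 9457, 9277, 9101, 8930, 8763, 8601, 8443, 8289, 8139,
7993, 7851, 7712, 7577, 7445, 7316, 7190, 7067, 6948, 6831, 6717, 6605, 6497, 6390, 6286, 6185,
6086, 5989, 5894, 5801, 5711, 5622, 5536, 5451, 5368, 5287, 5207, 5129]

theorem tbl_ok : ∀ m ∈ Icc 3 160, (tbl.getD m 0) ^ 5 * m ^ 12 ≤ 10 ^ 45 := by decide +kernel

theorem tbl_sum : 10 ^ 9 < ∑ m ∈ Icc 3 160, (m - 2) * tbl.getD m 0 := by decide +kernel

theorem num : 1 < ∑ m ∈ Icc (3 : ℕ) 160, ((m : ℝ) - 2) * (m : ℝ) ^ (-(12 / 5 : ℝ)) := by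
  have h1 : ∀ m ∈ Icc 3 160, (((m - 2) * tbl.getD m 0 : ℕ) : ℝ) / 10 ^ 9 ≤ ((m : ℝ) - 2) * (m : ℝ) ^ (-(12 / 5 : ℝ)) := by
    intro m hm
    have hm3 : 3 ≤ m := (Finset.mem_Icc.1 hm).1
    have h2 := tbl_ok m hm
    have hm0 : (0 : ℝ) < m := by exact_mod_cast (by omega : 0 < m)
    rw [Nat.cast_mul, Nat.cast_sub (by omega), mul_div_assoc]
    push_cast
    have h3 : (0 : ℝ) ≤ (m : ℝ) - 2 := by
      have : (3 : ℝ) ≤ m := by exact_mod_cast hm3
      linarith
    apply mul_le_mul_of_nonneg_left _ h3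
    have h4 : (((tbl.getD m 0 : ℕ) : ℝ) / 10 ^ 9) ^ 5 ≤ ((m : ℝ) ^ (-(12 / 5 : ℝ))) ^ 5 := by
      rw [← Real.rpow_natCast ((m : ℝ) ^ (-(12 / 5 : ℝ))), ← Real.rpow_mul hm0.le, div_pow]
      have e : (-(12 / 5 : ℝ)) * ((5 : ℕ) : ℝ) = -((12 : ℕ) : ℝ) := by norm_num
      rw [e, Real.rpow_neg hm0.le, Real.rpow_natCast, div_le_iff₀ (by positivity), inv_mul_eq_div,
        le_div_iff₀ (by positivity)]
      rw [← pow_mul]
      exact_mod_cast h2
    exact le_of_pow_le_pow_left₀ (by norm_num) (by positivity) h4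
  have h5 := Finset.sum_le_sum h1
  refine lt_of_lt_of_le ?_ h5
  rw [← Finset.sum_div, lt_div_iff₀ (by positivity), ← Nat.cast_sum, one_mul]
  exact_mod_cast tbl_sum

end Pool.Agent.H423.AB
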