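import Mathlib
import Pool.Agent.H423.AB.GNear
import Pool.Agent.H423.AB.GRun
import Pool.Agent.H423.AB.Amp
import Pool.Agent.H423.AB.Num

/-!
# Amplification for functions like the radical, in an arbitrary scale
-/

set_option autoImplicit false

namespace Pool.Agent.H423.AB

open Finset Polynomial Filter Pool.Agent.N757.OH

/-- the strength `log (c / Φ (abc))` of a triple -/
noncomputable def str (Φ : ℕ → ℝ) (a b c : ℕ) : ℝ := Real.log ((c : ℝ) / Φ (a * b * c))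

/-- the `a` with `N ∣ a`, `a ≤ δ c`, prime to `c`, for which the triple `(a, c - a, c)` has strength at least
`y (log c)` -/
def repG (Φ : ℕ → ℝ) (N : ℕ) (δ : ℝ) (y : ℝ → ℝ) (c : ℕ) : Set ℕ :=
  {a | 0 < a ∧ a < c ∧ Nat.Coprime a c ∧ N ∣ a ∧ (a : ℝ) ≤ δ * c ∧ y (Real.log c) ≤ str Φ a (c - a) c}

/-- for all large `c` there are at most `B` of them -/
def FewG (Φ : ℕ → ℝ) (N : ℕ) (δ : ℝ) (y : ℝ → ℝ) (B : ℝ) : Prop :=
  ∃ c₀ : ℕ, ∀ c : ℕ, c₀ < c → ((repG Φ N δ y c).ncard : ℝ) ≤ B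

/-- the triples with large `c` have strength less than `y (log c)` -/
def EvG (Φ : ℕ → ℝ) (y : ℝ → ℝ) : Prop :=
  ∃ c₀ : ℕ, ∀ a b c : ℕ, 0 < a → 0 < b → Nat.Coprime a b → a + b = c → c₀ < c →
    str Φ a b c < y (Real.log c)

/-- a scale of order at most `θ` -/
structure Gauge (g : ℝ → ℝ) (θ G x₀ : ℝ) : Prop where
  order : 0 ≤ θ
  base : 0 < x₀
  pos : ∀ x : ℝ, x₀ ≤ x → 0 < g x
  growth : ∀ x y : ℝ, x₀ ≤ x → x ≤ y → g y ≤ G * (y / x) ^ θ * g x
  lim : Tendsto g atTop atTop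

theorem Gauge.one_le {g : ℝ → ℝ} {θ G x₀ : ℝ} (h : Gauge g θ G x₀) : 1 ≤ G := by
  have h1 := h.growth x₀ x₀ le_rfl le_rfl
  have h2 := h.pos x₀ le_rfl
  rw [div_self h.base.ne', Real.one_rpow, mul_one] at h1
  by_contra hcon
  push Not at hcon
  nlinarith

theorem repG_finite (Φ : ℕ → ℝ) (N : ℕ) (δ : ℝ) (y : ℝ → ℝ) (c : ℕ) : (repG Φ N δ y c).Finite :=
  (Set.finite_lt_nat c).subset fun _ ha => ha.2.1

theorem exists_log_large (X : ℝ) : ∃ n : ℕ, ∀ c : ℕ, n < c → X < Real.log c := by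
  obtain ⟨n, hn⟩ := exists_nat_gt (Real.exp X)
  refine ⟨n, fun c hc => ?_⟩
  have h1 : (n : ℝ) < c := by exact_mod_cast hc
  rw [Real.lt_log_iff_exp_lt ((Real.exp_pos _).trans (hn.trans h1))]
  exact hn.trans h1

theorem exists_gauge_large {g : ℝ → ℝ} (hg : Tendsto g atTop atTop) (X : ℝ) :
    ∃ n : ℕ, ∀ c : ℕ, n < c → X < g (Real.log c) := by
  obtain ⟨x₁, hx₁⟩ := (hg.eventually_gt_atTop X).exists_forall_of_atTop
  obtain ⟨n, hn⟩ := exists_log_large x₁
  exact ⟨n, fun c hc => hx₁ _ (hn c hc).le⟩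

/-- the triples near the cusp -/
theorem near_boundG {Φ : ℕ → ℝ} {A : ℝ} (hΦ : RadLike Φ A) (M N : ℕ) (δ : ℝ) (hδ0 : 0 ≤ δ)
    (hδ : δ * 2 ^ M ≤ 1) (hN : M.factorial ∣ N)
    {g : ℝ → ℝ} {θ G x₀ : ℝ} (hg : Gauge g θ G x₀)
    (D : ℕ) (hD : 1 ≤ D) (V : Finset (List (ℕ × ℕ))) (hV : ∀ w ∈ V, (∀ l ∈ w, Good l ∧ l.1 ≤ M) ∧ deg w = D)
    (t τ : ℝ) (ht : 0 ≤ t) (hτ : 0 < τ) (hD2 : t * (G * (D : ℝ) ^ θ) ≤ τ / 2) (B : ℝ) (hB : B < V.card)
    (hfew : FewG Φ N δ (fun x => t * g x) B) :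
    ∃ c₂ : ℕ, ∀ a b c : ℕ, 0 < a → 0 < b → Nat.Coprime a b → a + b = c → N ∣ a → (a : ℝ) ≤ δ * c → c₂ < c →
      str Φ a b c < τ * g (Real.log c) := by
  classical
  obtain ⟨c₀, hc₀⟩ := hfew
  set Z : Finset ℚ := (V ×ˢ V).biUnion fun p => (wp p.1 - wp p.2 : ℚ[X]).roots.toFinset with hZ
  set Q₀ : ℕ := ∑ z ∈ Z, z.den with hQ₀
  have hQ : ∀ z ∈ Z, z.den ≤ Q₀ := fun z hz => Finset.single_le_sum (f := fun z : ℚ => z.den)
    (fun _ _ => Nat.zero_le _) hz
  obtain ⟨T, hT1, hTw⟩ : ∃ T : ℕ, 1 ≤ T ∧ ∀ w ∈ V, 4 ^ tot w ≤ T :=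
    ⟨∑ w ∈ V, 4 ^ tot w + 1, by omega, fun w hw =>
      (Finset.single_le_sum (f := fun w : List (ℕ × ℕ) => 4 ^ tot w) (fun _ _ => Nat.zero_le _) hw).trans
        (Nat.le_succ _)⟩
  have hTR : (1 : ℝ) ≤ T := by exact_mod_cast hT1
  have hA1 := hΦ.one_le
  obtain ⟨n₁, hn₁⟩ := exists_gauge_large hg.lim (2 * Real.log (A * T) / τ)
  obtain ⟨n₂, hn₂⟩ := exists_log_large x₀
  refine ⟨c₀ + Q₀ + n₁ + n₂ + 1, fun a b c ha hb hab habc hNa hδa hc => ?_⟩
  by_contra hcon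
  push Not at hcon
  have hac : a < c := by omega
  have hcop : Nat.Coprime a c := by rw [← habc]; simpa using hab
  have hbc : b = c - a := by omega
  have hc1 : 1 < c := by omega
  have hcR : (1 : ℝ) < c := by exact_mod_cast hc1
  have hc0 : (0 : ℝ) < c := by linarith
  have hcN : 0 < c := by omega
  set ℓ : ℝ := Real.log c with hℓ
  have hℓx : x₀ < ℓ := hn₂ c (by omega)
  have hℓ0 : 0 < ℓ := Real.log_pos hcR
  have hgpos : 0 < g ℓ := hg.pos ℓ hℓx.le
  set ρ : ℝ := Φ (a * b * c) with hρ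
  have habc0 : a * b * c ≠ 0 := by positivity
  have hρ0 : 0 < ρ := hΦ.pos _ habc0
  have h1 : τ * g ℓ ≤ ℓ - Real.log ρ := by
    rw [str, ← hρ, Real.log_div hc0.ne' hρ0.ne', ← hℓ] at hcon
    exact hcon
  have h2 : Real.log (A * T) ≤ τ / 2 * g ℓ := by
    have := hn₁ c (by omega)
    rw [← hℓ, div_lt_iff₀ hτ] at this
    linarith
  have hDR : (1 : ℝ) ≤ D := by exact_mod_cast hD
  have hmaps : ∀ w ∈ V, (run w (a, c)).1 ∈ repG Φ N δ (fun x => t * g x) (c ^ D) := by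
    intro w hw
    obtain ⟨h1', h2', h3, h4, g1, g2, -, -⟩ := run_spec M N δ hδ0 hδ hN w (hV w hw).1
      a c ha hac hcop hNa hδa
    obtain ⟨W, hW0, hWle, hp1, hp2⟩ := run_primes M N δ hδ0 hδ hN w (hV w hw).1
      a c ha hac hcop hNa hδa
    rw [(hV w hw).2] at h4 hWle
    rw [h4] at h2' h3 g2 hp1 hp2
    refine ⟨h1', h2', h3, g1, g2, ?_⟩
    set q := (run w (a, c)).1
    have hq0 : q * (c ^ D - q) * c ^ D ≠ 0 := by
      have h5 : 0 < c ^ D - q := by omega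
      have h6 : 0 < c ^ D := by positivity
      positivity
    have hR0 := hΦ.pos _ hq0
    rw [← hbc] at hp1 hp2
    have h6 := hΦ.le _ _ W habc0 hq0 hW0 hp1 hp2
    have h6' : Φ (q * (c ^ D - q) * c ^ D) ≤ (A * T) * ρ * (c : ℝ) ^ (D - 1) := by
      have h7 : (W : ℝ) ≤ T * (c : ℝ) ^ (D - 1) := by
        have := hWle.trans (Nat.mul_le_mul_right _ (hTw w hw))
        exact_mod_cast this
      calc Φ (q * (c ^ D - q) * c ^ D) ≤ A * ρ * W := h6
        _ ≤ A * ρ * (T * (c : ℝ) ^ (D - 1)) := mul_le_mul_of_nonneg_left h7 (by positivity)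
        _ = _ := by ring
    have h7 : Real.log (Φ (q * (c ^ D - q) * c ^ D)) ≤ Real.log (A * T) + Real.log ρ + (D - 1) * ℓ := by
      have h8 := Real.log_le_log hR0 h6'
      rw [Real.log_mul (by positivity) (by positivity), Real.log_mul (by positivity) hρ0.ne',
        Real.log_pow, Nat.cast_sub hD, Nat.cast_one] at h8
      linarith
    have h9 : Real.log ((c ^ D : ℕ) : ℝ) = D * ℓ := by push_cast; rw [Real.log_pow]
    have hcD : ((c ^ D : ℕ) : ℝ) ≠ 0 := by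
      have : 0 < c ^ D := by positivity
      exact_mod_cast this.ne'
    rw [str, Real.log_div hcD hR0.ne', h9]
    have h10 : ℓ ≤ D * ℓ := by nlinarith
    have h11 := hg.growth ℓ (D * ℓ) hℓx.le h10
    rw [mul_div_cancel_right₀ _ hℓ0.ne'] at h11
    calc t * g (D * ℓ) ≤ t * (G * (D : ℝ) ^ θ * g ℓ) := mul_le_mul_of_nonneg_left h11 ht
      _ = t * (G * (D : ℝ) ^ θ) * g ℓ := by ring
      _ ≤ τ / 2 * g ℓ := mul_le_mul_of_nonneg_right hD2 hgpos.le
      _ ≤ _ := by linarith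
  have hinj : Set.InjOn (fun w => (run w (a, c)).1) V := by
    intro w hw w' hw' h
    simp only at h
    have hw := Finset.mem_coe.1 hw
    have hw' := Finset.mem_coe.1 hw'
    obtain ⟨-, -, -, h4, -, -, -, h6⟩ := run_spec M N δ hδ0 hδ hN w (hV w hw).1
      a c ha hac hcop hNa hδa
    obtain ⟨-, -, -, g4, -, -, -, g6⟩ := run_spec M N δ hδ0 hδ hN w' (hV w' hw').1
      a c ha hac hcop hNa hδa
    rw [(hV w hw).2] at h4
    rw [(hV w' hw').2] at g4
    rw [h4] at h6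
    rw [g4] at g6
    by_contra hne
    have hwp : (wp w : ℚ[X]) ≠ wp w' := fun he =>
      hne (wp_inj w w' (fun l hl => ((hV w hw).1 l hl).1) (fun l hl => ((hV w' hw').1 l hl).1) he)
    have hcD : ((c ^ D : ℕ) : ℚ) ≠ 0 := by
      have : 0 < c ^ D := by positivity
      exact_mod_cast this.ne'
    have heval : (wp w : ℚ[X]).eval ((a : ℚ) / c) = (wp w' : ℚ[X]).eval ((a : ℚ) / c) := by
      apply mul_left_cancel₀ hcD
      rw [← h6, ← g6, h]
    have hroot : (a : ℚ) / c ∈ Z := by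
      rw [hZ, Finset.mem_biUnion]
      refine ⟨(w, w'), Finset.mk_mem_product hw hw', ?_⟩
      rw [Multiset.mem_toFinset, mem_roots (sub_ne_zero.2 hwp)]
      simp [IsRoot, heval]
    have hden : ((a : ℚ) / c).den = c := by
      have := Rat.den_div_eq_of_coprime (a := (a : ℤ)) (b := (c : ℤ)) (by omega) (by simpa using hcop)
      push_cast at this
      exact_mod_cast this
    have := hQ _ hroot
    rw [hden] at this
    omega
  have hcard : V.card ≤ (repG Φ N δ (fun x => t * g x) (c ^ D)).ncard := by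
    calc V.card = (V.image fun w => (run w (a, c)).1).card := (Finset.card_image_of_injOn hinj).symm
      _ = ((V.image fun w => (run w (a, c)).1 : Finset ℕ) : Set ℕ).ncard := (Set.ncard_coe_finset _).symm
      _ ≤ _ := by
          apply Set.ncard_le_ncard _ (repG_finite _ _ _ _ _)
          intro q hq
          rw [Finset.mem_coe, Finset.mem_image] at hq
          obtain ⟨w, hw, rfl⟩ := hq
          exact hmaps w hw
  have h10 := hc₀ (c ^ D) (lt_of_lt_of_le (by omega) (Nat.le_self_pow (by omega) c))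
  have h11 : (V.card : ℝ) ≤ ((repG Φ N δ (fun x => t * g x) (c ^ D)).ncard : ℝ) := by exact_mod_cast hcard
  linarith

/-- **Bounded multiplicity implies an upper bound.** -/
theorem main_boundG {Φ : ℕ → ℝ} {A : ℝ} (hΦ : RadLike Φ A) (s : ℝ) (hs0 : 0 < s) (M : ℕ)
    (hs : 1 < ∑ m ∈ Icc 3 M, ((m : ℝ) - 2) * (m : ℝ) ^ (-s))
    (N : ℕ) (hN : 1 ≤ N) (δ₀ : ℝ) (hδ₀ : 0 < δ₀) (θ G : ℝ) (hθ : 0 ≤ θ) (hG : 1 ≤ G) :
    ∃ κ : ℝ, 0 < κ ∧ ∀ (g : ℝ → ℝ) (x₀ : ℝ), Gauge g θ G x₀ → ∀ t B : ℝ, 0 < t → 0 ≤ B →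
      FewG Φ N δ₀ (fun x => t * g x) B → EvG Φ (fun x => κ * t * (1 + B ^ (1 / s)) ^ θ * g x) := by
  set N' : ℕ := M.factorial * N with hN'
  set δ : ℝ := min δ₀ (1 / 2 ^ M) with hδ
  have hδ0 : 0 < δ := lt_min hδ₀ (by positivity)
  have hδM : δ * 2 ^ M ≤ 1 := by
    have : δ ≤ 1 / 2 ^ M := min_le_right _ _
    rwa [le_div_iff₀ (by positivity)] at this
  obtain ⟨E, K, hE, hK, hmap⟩ := near_primes N' δ (Nat.mul_pos (Nat.factorial_pos _) (by omega)) hδ0
  obtain ⟨δ₁, hδ₁, hgr⟩ := growth (letters M) Prod.fst M (fun l hl => by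
    have := mem_letters.1 hl
    unfold Good at this
    omega) s hs0.le (by rw [sum_letters]; exact hs) 1 one_pos
  have hER : (2 : ℝ) ≤ E := by exact_mod_cast hE
  have hA1 := hΦ.one_le
  have hG0 : 0 < G := by linarith
  have hK0 : 0 < K := by linarith
  have hE2 : (0 : ℝ) < (2 * E) ^ θ := by positivity
  refine ⟨4 * G ^ 2 * (2 * E) ^ θ * (1 + 1 / δ₁) ^ θ, by positivity, fun g x₀ hg t B ht hB hfew => ?_⟩
  set β : ℝ := B ^ (1 / s) with hβ
  have hβ0 : 0 ≤ β := by positivity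
  set Y : ℝ := 1 + 1 / δ₁ + β with hY
  have hY0 : 0 < Y := by positivity
  set τ : ℝ := 2 * (t * (G * Y ^ θ)) with hτ
  have hτ0 : 0 < τ := by positivity
  obtain ⟨D, V, hD, hV, hDε, hcard⟩ := hgr (1 / Y) (by positivity) (by
    rw [div_lt_iff₀ hY0]
    have h1 : 1 / δ₁ < Y := by rw [hY]; linarith
    rw [div_lt_iff₀ hδ₁] at h1
    linarith)
  have hDY : (D : ℝ) ≤ Y := by
    rw [mul_one_div, div_le_one hY0] at hDε
    exact hDε
  have hBV : B < V.card := by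
    refine lt_of_lt_of_le ?_ hcard
    have h1 : (1 / Y : ℝ) ^ (-s) = Y ^ s := by
      rw [one_div, Real.inv_rpow hY0.le, Real.rpow_neg hY0.le, inv_inv]
    rw [h1]
    have h2 : B = β ^ s := by
      rw [hβ, ← Real.rpow_mul hB, one_div, inv_mul_cancel₀ hs0.ne', Real.rpow_one]
    rw [h2]
    have : 0 < 1 / δ₁ := by positivity
    exact Real.rpow_lt_rpow hβ0 (by rw [hY]; linarith) hs0
  have hD2 : t * (G * (D : ℝ) ^ θ) ≤ τ / 2 := by
    have h1 : (D : ℝ) ^ θ ≤ Y ^ θ := Real.rpow_le_rpow (Nat.cast_nonneg _) hDY hθ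
    have h2 : G * (D : ℝ) ^ θ ≤ G * Y ^ θ := mul_le_mul_of_nonneg_left h1 hG0.le
    have := mul_le_mul_of_nonneg_left h2 ht.le
    rw [hτ]; linarith
  have hfew' : FewG Φ N' δ (fun x => t * g x) B := by
    obtain ⟨c₀, hc₀⟩ := hfew
    refine ⟨c₀, fun c hc => le_trans ?_ (hc₀ c hc)⟩
    have : (repG Φ N' δ (fun x => t * g x) c).ncard ≤ (repG Φ N δ₀ (fun x => t * g x) c).ncard := by
      apply Set.ncard_le_ncard _ (repG_finite _ _ _ _ _)
      rintro a ⟨h1, h2, h3, h4, h5, h6⟩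
      exact ⟨h1, h2, h3, (Dvd.intro_left _ rfl).trans h4,
        h5.trans (mul_le_mul_of_nonneg_right (min_le_left _ _) (Nat.cast_nonneg _)), h6⟩
    exact_mod_cast this
  obtain ⟨c₂, hc₂⟩ := near_boundG hΦ M N' δ hδ0.le hδM (Dvd.intro _ rfl) hg D hD V
    (fun w hw => ⟨fun l hl => mem_letters.1 ((hV w hw).1 l hl), (hV w hw).2⟩) t τ ht.le hτ0 hD2 B hBV hfew'
  set τ₀ : ℝ := 2 * (G * (2 * E) ^ θ * τ) with hτ₀
  have hτ₀0 : 0 < τ₀ := by positivity
  have hle : τ₀ ≤ 4 * G ^ 2 * (2 * E) ^ θ * (1 + 1 / δ₁) ^ θ * t * (1 + β) ^ θ := by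
    have h1 : Y ≤ (1 + 1 / δ₁) * (1 + β) := by
      rw [hY]
      have : 0 ≤ 1 / δ₁ * β := by positivity
      linarith
    have h2 : Y ^ θ ≤ (1 + 1 / δ₁) ^ θ * (1 + β) ^ θ := by
      rw [← Real.mul_rpow (by positivity) (by positivity)]
      exact Real.rpow_le_rpow hY0.le h1 hθ
    calc τ₀ = 4 * G ^ 2 * (2 * E) ^ θ * t * Y ^ θ := by rw [hτ₀, hτ]; ring
      _ ≤ 4 * G ^ 2 * (2 * E) ^ θ * t * ((1 + 1 / δ₁) ^ θ * (1 + β) ^ θ) :=
          mul_le_mul_of_nonneg_left h2 (by positivity)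
      _ = _ := by ring
  obtain ⟨n₁, hn₁⟩ := exists_gauge_large hg.lim (4 * Real.log (A * K) / τ₀)
  obtain ⟨n₂, hn₂⟩ := exists_nat_gt (K * (c₂ + 1))
  obtain ⟨n₃, hn₃⟩ := exists_log_large (x₀ + Real.log K)
  -- the triples with `2 a ≤ c`
  have main : ∀ a b c : ℕ, 0 < a → 0 < b → Nat.Coprime a b → a + b = c → n₁ + n₂ + n₃ + 3 < c → 2 * a ≤ c →
      str Φ a b c < τ₀ * g (Real.log c) := by
    intro a b c ha hb hab habc hc h2a
    by_contra hcon
    push Not at hcon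
    obtain ⟨a', b', c', W, ha', hb', hab', habc', hN'a, hδa', hcd, hc'd, hW0, hWle, hp1, hp2⟩ :=
      hmap a b c ha hb hab habc h2a
    have hc1 : 1 < c := by omega
    have hcR : (1 : ℝ) < c := by exact_mod_cast hc1
    have hc0 : (0 : ℝ) < c := by linarith
    have hcc' : (c : ℝ) ≤ K * c' := by
      calc (c : ℝ) = (c : ℝ) ^ 1 := (pow_one _).symm
        _ ≤ (c : ℝ) ^ E := pow_le_pow_right₀ hcR.le (by omega)
        _ ≤ _ := hcd
    have hc'2 : c₂ < c' := by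
      have h1 : (n₂ : ℝ) < c := by exact_mod_cast (by omega : n₂ < c)
      have h2 : K * (c₂ + 1) < K * c' := by linarith
      have h3 := lt_of_mul_lt_mul_left h2 (by linarith : (0 : ℝ) ≤ K)
      have h4 : (c₂ : ℝ) < c' := by linarith
      exact_mod_cast h4
    have hnear := hc₂ a' b' c' ha' hb' hab' habc' hN'a hδa' hc'2
    set ℓ : ℝ := Real.log c with hℓ
    have hℓ0 : 0 < ℓ := Real.log_pos hcR
    have hlK : 0 ≤ Real.log K := Real.log_nonneg hK
    have hℓx : x₀ + Real.log K < ℓ := hn₃ c (by omega)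
    have hx₀ := hg.base
    have hgpos : 0 < g ℓ := hg.pos ℓ (by linarith)
    have hcN : 0 < c := by omega
    have hcN' : 0 < c' := by omega
    set ρ : ℝ := Φ (a * b * c) with hρ
    have habc0 : a * b * c ≠ 0 := by positivity
    have hρ0 : 0 < ρ := hΦ.pos _ habc0
    set ρ' : ℝ := Φ (a' * b' * c') with hρ'
    have habc0' : a' * b' * c' ≠ 0 := by positivity
    have hρ'0 : 0 < ρ' := hΦ.pos _ habc0'
    have hc'1 : 1 < c' := by omega
    have hc'R : (1 : ℝ) < c' := by exact_mod_cast hc'1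
    have hc'0 : (0 : ℝ) < c' := by linarith
    have h1 : τ₀ * g ℓ ≤ ℓ - Real.log ρ := by
      rw [str, ← hρ, Real.log_div hc0.ne' hρ0.ne', ← hℓ] at hcon
      exact hcon
    -- the radical
    have hRR : ρ' * c ≤ (A * K) * ρ * (c : ℝ) ^ E := by
      have h6 := hΦ.le _ _ W habc0 habc0' hW0 hp1 hp2
      calc ρ' * c ≤ (A * ρ * W) * c := mul_le_mul_of_nonneg_right h6 hc0.le
        _ = (A * ρ) * (W * c) := by ring
        _ ≤ (A * ρ) * (K * (c : ℝ) ^ E) := mul_le_mul_of_nonneg_left hWle (by positivity)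
        _ = _ := by ring
    have h5 : Real.log ρ' + ℓ ≤ Real.log (A * K) + Real.log ρ + E * ℓ := by
      have := Real.log_le_log (by positivity) hRR
      rw [Real.log_mul hρ'0.ne' hc0.ne', Real.log_mul (by positivity) (by positivity),
        Real.log_mul (by positivity) hρ0.ne', Real.log_pow] at this
      exact this
    have h3 : E * ℓ ≤ Real.log K + Real.log c' := by
      have := Real.log_le_log (by positivity) hcd
      rw [Real.log_pow, Real.log_mul hK0.ne' hc'0.ne'] at this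
      exact this
    have h4 : Real.log c' ≤ Real.log K + E * ℓ := by
      have := Real.log_le_log hc'0 hc'd
      rw [Real.log_mul hK0.ne' (by positivity), Real.log_pow] at this
      exact this
    have hlK2 : Real.log K ≤ Real.log (A * K) := Real.log_le_log hK0 (by nlinarith)
    -- the strength
    have h8 : Real.log c' - Real.log ρ' < τ * g (Real.log c') := by
      rw [str, ← hρ', Real.log_div hc'0.ne' hρ'0.ne'] at hnear
      exact hnear
    have h9 : 2 * Real.log (A * K) ≤ τ₀ / 2 * g ℓ := by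
      have := hn₁ c (by omega)
      rw [← hℓ, div_lt_iff₀ hτ₀0] at this
      linarith
    have h10 : ℓ ≤ Real.log c' := by nlinarith
    have h11 : Real.log c' ≤ 2 * E * ℓ := by nlinarith
    have h12 := hg.growth ℓ (Real.log c') (by linarith) h10
    have h13 : (Real.log c' / ℓ) ^ θ ≤ (2 * E) ^ θ := by
      apply Real.rpow_le_rpow (by positivity) _ hθ
      rw [div_le_iff₀ hℓ0]
      exact h11
    have h14 : τ * g (Real.log c') ≤ τ₀ / 2 * g ℓ := by
      calc τ * g (Real.log c') ≤ τ * (G * (Real.log c' / ℓ) ^ θ * g ℓ) := mul_le_mul_of_nonneg_left h12 hτ0.le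
        _ ≤ τ * (G * (2 * E) ^ θ * g ℓ) := by
            apply mul_le_mul_of_nonneg_left _ hτ0.le
            apply mul_le_mul_of_nonneg_right _ hgpos.le
            exact mul_le_mul_of_nonneg_left h13 hG0.le
        _ = _ := by rw [hτ₀]; ring
    linarith
  refine ⟨n₁ + n₂ + n₃ + 3, fun a b c ha hb hab habc hc => ?_⟩
  obtain ⟨x, hx⟩ : ∃ x : ℝ, x = Real.log c := ⟨_, rfl⟩
  have hmain : str Φ a b c < τ₀ * g (Real.log c) := by
    rcases le_total (2 * a) c with h1 | h1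
    · exact main a b c ha hb hab habc hc h1
    · have h2 := main b a c hb ha hab.symm (by omega) hc (by omega)
      rw [str, mul_comm b a] at h2
      exact h2
  have hgpos : 0 < g (Real.log c) := by
    have := hn₃ c (by omega)
    have hlK : 0 ≤ Real.log K := Real.log_nonneg hK
    exact hg.pos _ (by linarith)
  exact hmain.trans_le (mul_le_mul_of_nonneg_right hle hgpos.le)

end Pool.Agent.H423.AB
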