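import Mathlib
import Pool.Agent.H423.AB.GAmp
import Pool.Graph.R_pool_sql_team_seeded_63374d34.N757.OH.HFun

/-!
# Amplification for `H (n) = γ (n) / (log γ (n)) ^ ω (n)`
-/

set_option autoImplicit false

namespace Pool.Agent.H423.AB

open Finset Filter Pool.Agent.N757.OH

theorem gauge_id : Gauge (fun x => x) 1 1 1 where
  order := zero_le_one
  base := one_pos
  pos := fun x hx => by linarith
  growth := fun x y hx hxy => by
    have : x ≠ 0 := by linarith
    rw [Real.rpow_one, one_mul, div_mul_cancel₀ _ this]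
  lim := tendsto_id

theorem log_ge_one {x : ℝ} (hx : Real.exp 1 ≤ x) : 1 ≤ Real.log x := by
  rw [← Real.log_exp 1]
  exact Real.log_le_log (Real.exp_pos _) hx

theorem sqrt_le_div_log {x : ℝ} (hx : Real.exp 1 ≤ x) : √x / 2 ≤ x / Real.log x := by
  have h0 : 0 < x := (Real.exp_pos _).trans_le hx
  have h1 := log_ge_one hx
  have h2 : 0 < √x := Real.sqrt_pos.2 h0
  have h3 : Real.log x = 2 * Real.log (√x) := by rw [Real.log_sqrt h0.le]; ring
  have h4 : Real.log (√x) ≤ √x := (Real.log_le_sub_one_of_pos h2).trans (by linarith)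
  rw [div_le_div_iff₀ two_pos (by linarith)]
  have h5 : √x * Real.log x ≤ √x * (2 * √x) := mul_le_mul_of_nonneg_left (by linarith) h2.le
  have h6 : √x * √x = x := Real.mul_self_sqrt h0.le
  nlinarith

/-- the scale `x / log x` -/
theorem gauge_log : Gauge (fun x => x / Real.log x) 1 1 (Real.exp 1) where
  order := zero_le_one
  base := Real.exp_pos _
  pos := fun x hx => div_pos ((Real.exp_pos _).trans_le hx) (by linarith [log_ge_one hx])
  growth := fun x y hx hxy => by
    have h0 : 0 < x := (Real.exp_pos _).trans_le hx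
    have h1 := log_ge_one hx
    have h2 : Real.log x ≤ Real.log y := Real.log_le_log h0 hxy
    rw [Real.rpow_one, one_mul, div_mul_div_comm, mul_comm x, mul_div_mul_right _ _ h0.ne']
    exact div_le_div_of_nonneg_left (by linarith) (by linarith) h2
  lim := by
    refine tendsto_atTop_mono' atTop (f₁ := fun x => √x / 2) ?_ ?_
    · filter_upwards [eventually_ge_atTop (Real.exp 1)] with x hx
      exact sqrt_le_div_log hx
    · exact (Real.tendsto_sqrt_atTop).atTop_div_const two_pos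

/-- the condition on the exponent is open -/
theorem exists_larger (s : ℝ) (M : ℕ) (hs : 1 < ∑ m ∈ Icc 3 M, ((m : ℝ) - 2) * (m : ℝ) ^ (-s)) :
    ∃ s' : ℝ, s < s' ∧ 1 < ∑ m ∈ Icc 3 M, ((m : ℝ) - 2) * (m : ℝ) ^ (-s') := by
  have hc : Continuous fun s : ℝ => ∑ m ∈ Icc 3 M, ((m : ℝ) - 2) * (m : ℝ) ^ (-s) := by
    refine continuous_finsetSum _ fun m hm => continuous_const.mul ?_
    have hm0 : (m : ℝ) ≠ 0 := by
      have := (Finset.mem_Icc.1 hm).1
      exact_mod_cast (by omega : m ≠ 0)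
    exact (Real.continuous_const_rpow hm0).comp continuous_neg
  have h1 : ∀ᶠ x in nhds s, 1 < ∑ m ∈ Icc 3 M, ((m : ℝ) - 2) * (m : ℝ) ^ (-x) :=
    hc.continuousAt.eventually (lt_mem_nhds hs)
  obtain ⟨ε, hε, h2⟩ := Metric.eventually_nhds_iff.1 h1
  refine ⟨s + ε / 2, by linarith, h2 ?_⟩
  rw [Real.dist_eq, add_sub_cancel_left, abs_of_pos (by positivity)]
  linarith

/-- `(a, b, c)` is an admissible triple -/
def Adm (a b c : ℕ) : Prop := 0 < a ∧ 0 < b ∧ a + b = c ∧ Nat.gcd (Nat.gcd a b) c = 1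

theorem adm_coprime {a b c : ℕ} (h : Adm a b c) : Nat.Coprime a b := by
  obtain ⟨ha, hb, hsum, hgcd⟩ := h
  have h1 : Nat.gcd a b ∣ c := by
    rw [← hsum]
    exact dvd_add (Nat.gcd_dvd_left a b) (Nat.gcd_dvd_right a b)
  rwa [Nat.gcd_eq_left h1] at hgcd

/-- the statement of Q1 -/
def HQ1 : Prop :=
  ∀ ε : ℝ, 0 < ε → ∃ C : ℝ, ∀ a b c : ℕ, Adm a b c → (c : ℝ) < C * H (a * b * c) ^ (1 + ε)

theorem str_lt_iff {a b c : ℕ} (hc : 0 < c) (y : ℝ) :
    str H a b c < y ↔ Real.log c - y < Real.log (H (a * b * c)) := by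
  have h1 : (c : ℝ) ≠ 0 := by exact_mod_cast hc.ne'
  rw [str, Real.log_div h1 (H_pos _).ne']
  constructor <;> intro h <;> linarith

/-- Q1 in the logarithmic form -/
theorem hq1_iff : HQ1 ↔ ∀ η : ℝ, 0 < η → EvG H fun x => η * x := by
  constructor
  · intro h
    have key : ∀ η : ℝ, 0 < η → η < 1 → EvG H fun x => η * x := by
      intro η hη hη1
      obtain ⟨C, hC⟩ := h η hη
      obtain ⟨n, hn⟩ := exists_log_large (Real.log (max C 1) / η ^ 2)
      refine ⟨n + 1, fun a b c ha hb hab habc hc => ?_⟩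
      have hcN : 0 < c := by omega
      have hc0 : (0 : ℝ) < c := by exact_mod_cast hcN
      rw [str_lt_iff hcN]
      by_contra hcon
      push Not at hcon
      have h1 := hC a b c ⟨ha, hb, habc, by rw [hab, Nat.gcd_one_left]⟩
      have hH := H_pos (a * b * c)
      have h2 : (c : ℝ) < max C 1 * H (a * b * c) ^ (1 + η) :=
        h1.trans_le (mul_le_mul_of_nonneg_right (le_max_left _ _) (by positivity))
      have hm : 0 < max C 1 := lt_max_of_lt_right one_pos
      have h3 := Real.log_lt_log hc0 h2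
      rw [Real.log_mul hm.ne' (by positivity), Real.log_rpow hH] at h3
      have h4 := hn c (by omega)
      rw [div_lt_iff₀ (by positivity)] at h4
      nlinarith
    intro η hη
    rcases lt_or_ge η 1 with h1 | h1
    · exact key η hη h1
    · obtain ⟨c₀, h2⟩ := key (1 / 2) (by norm_num) (by norm_num)
      refine ⟨c₀ + 1, fun a b c ha hb hab habc hc => (h2 a b c ha hb hab habc (by omega)).trans_le ?_⟩
      have h3 : 0 ≤ Real.log c := Real.log_natCast_nonneg c
      simp only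
      nlinarith
  · intro h ε hε
    have h1ε : 0 < 1 + ε := by linarith
    obtain ⟨c₀, hc₀⟩ := h (ε / (1 + ε)) (by positivity)
    set S : ℝ := ∑ n ∈ range (c₀ ^ 3 + 1), (c₀ : ℝ) / H n ^ (1 + ε) with hS
    have hSn : ∀ n ∈ range (c₀ ^ 3 + 1), (c₀ : ℝ) / H n ^ (1 + ε) ≤ S := fun n hn =>
      Finset.single_le_sum (f := fun n => (c₀ : ℝ) / H n ^ (1 + ε)) (fun m _ => by
        have := H_pos m
        positivity) hn
    have hS0 : 0 ≤ S := Finset.sum_nonneg fun n _ => by
      have := H_pos n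
      positivity
    refine ⟨S + 1, fun a b c habc => ?_⟩
    have hab := adm_coprime habc
    obtain ⟨ha, hb, hsum, -⟩ := habc
    have hcN : 0 < c := by omega
    have hc0 : (0 : ℝ) < c := by exact_mod_cast hcN
    have hH := H_pos (a * b * c)
    have hHp : 0 < H (a * b * c) ^ (1 + ε) := by positivity
    rcases le_or_gt c c₀ with h1 | h1
    · have h2 : a * b * c ∈ range (c₀ ^ 3 + 1) := by
        rw [Finset.mem_range]
        have : a * b * c ≤ c₀ * c₀ * c₀ := Nat.mul_le_mul (Nat.mul_le_mul (by omega) (by omega)) h1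
        have e : c₀ ^ 3 = c₀ * c₀ * c₀ := by ring
        omega
      have h3 := hSn _ h2
      rw [div_le_iff₀ hHp] at h3
      have h4 : (c : ℝ) ≤ c₀ := by exact_mod_cast h1
      nlinarith
    · have h2 := hc₀ a b c ha hb hab hsum h1
      rw [str_lt_iff hcN] at h2
      have h3 : Real.log c < (1 + ε) * Real.log (H (a * b * c)) := by
        have e : Real.log c - ε / (1 + ε) * Real.log c = Real.log c / (1 + ε) := by field_simp; ring
        rw [e, div_lt_iff₀ h1ε] at h2
        linarith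
      rw [← Real.log_rpow hH] at h3
      have h4 : (c : ℝ) < H (a * b * c) ^ (1 + ε) := (Real.log_lt_log_iff hc0 hHp).1 h3
      nlinarith

/-- the `a` with `N ∣ a`, `a ≤ δ c`, prime to `c`, such that `c ≥ H (a (c - a) c) ^ (1 + ε)` -/
def excH (N : ℕ) (δ ε : ℝ) (c : ℕ) : Set ℕ :=
  {a | 0 < a ∧ a < c ∧ Nat.Coprime a c ∧ N ∣ a ∧ (a : ℝ) ≤ δ * c ∧ H (a * (c - a) * c) ^ (1 + ε) ≤ c}

theorem excH_finite (N : ℕ) (δ ε : ℝ) (c : ℕ) : (excH N δ ε c).Finite :=
  (Set.finite_lt_nat c).subset fun _ ha => ha.2.1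

theorem strength_ge {ε : ℝ} (hε : 0 < ε) {a c : ℕ} (hc : 0 < c) :
    ε / (1 + ε) * Real.log c ≤ str H a (c - a) c ↔ H (a * (c - a) * c) ^ (1 + ε) ≤ c := by
  have h1ε : 0 < 1 + ε := by linarith
  have hc0 : (0 : ℝ) < c := by exact_mod_cast hc
  have hH := H_pos (a * (c - a) * c)
  rw [str, Real.log_div hc0.ne' hH.ne', ← Real.log_le_log_iff (by positivity) hc0, Real.log_rpow hH]
  have e : Real.log c - ε / (1 + ε) * Real.log c = Real.log c / (1 + ε) := by field_simp; ring
  constructor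
  · intro h
    have h2 : Real.log (H (a * (c - a) * c)) ≤ Real.log c / (1 + ε) := by rw [← e]; linarith
    rw [le_div_iff₀ h1ε] at h2
    linarith
  · intro h
    have h2 : Real.log (H (a * (c - a) * c)) ≤ Real.log c / (1 + ε) := by
      rw [le_div_iff₀ h1ε]; linarith
    rw [← e] at h2
    linarith

/-- **Q1 and the number of the exceptional representations.** -/
theorem multiplicityH (s : ℝ) (hs0 : 0 ≤ s) (M : ℕ)
    (hs : 1 < ∑ m ∈ Icc 3 M, ((m : ℝ) - 2) * (m : ℝ) ^ (-s)) (N : ℕ) (hN : 1 ≤ N) (δ₀ : ℝ) (hδ₀ : 0 < δ₀) :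
    HQ1 ↔ ∀ δ : ℝ, 0 < δ → ∃ ε : ℝ, 0 < ε ∧ ε < δ ∧ ∃ c₀ : ℕ, ∀ c : ℕ, c₀ < c →
        ((excH N δ₀ ε c).ncard : ℝ) < ε ^ (-s) := by
  rw [hq1_iff]
  constructor
  · intro h δ hδ
    obtain ⟨ε, hε0, hεδ⟩ : ∃ ε : ℝ, 0 < ε ∧ ε < δ := ⟨δ / 2, by positivity, by linarith⟩
    obtain ⟨c₀, hc₀⟩ := h (ε / (1 + ε)) (by positivity)
    refine ⟨ε, hε0, hεδ, c₀, fun c hc => ?_⟩
    have : excH N δ₀ ε c = ∅ := by
      rw [Set.eq_empty_iff_forall_notMem]
      rintro a ⟨h1, h2, h3, h4, h5, h6⟩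
      have hcop : Nat.Coprime a (c - a) := by
        rw [Nat.coprime_sub_self_right h2.le]
        exact h3
      have h7 := hc₀ a (c - a) c h1 (by omega) hcop (by omega) hc
      rw [← strength_ge hε0 (by omega)] at h6
      linarith
    rw [this]
    simp only [Set.ncard_empty, Nat.cast_zero]
    positivity
  · intro h η hη
    obtain ⟨s', hss', hs'⟩ := exists_larger s M hs
    have hs'0 : 0 < s' := by linarith
    obtain ⟨κ, hκ, hmain⟩ := main_boundG radLike_H s' hs'0 M hs' N hN δ₀ hδ₀ 1 1 zero_le_one le_rfl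
    -- choice of `δ`
    have hu : 0 < 1 - s / s' := by
      rw [sub_pos, div_lt_one hs'0]; exact hss'
    set μ : ℝ := min (η / (4 * κ)) 1 with hμ
    have hμ0 : 0 < μ := lt_min (by positivity) one_pos
    set δ : ℝ := min μ (μ ^ (1 / (1 - s / s'))) with hδ
    have hδ0 : 0 < δ := lt_min hμ0 (by positivity)
    obtain ⟨ε, hε0, hεδ, c₀, hc₀⟩ := h δ hδ0
    have hε1 : ε < μ := hεδ.trans_le (min_le_left _ _)
    have hε2 : ε ^ (1 - s / s') ≤ μ := by
      calc ε ^ (1 - s / s') ≤ (μ ^ (1 / (1 - s / s'))) ^ (1 - s / s') :=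
            Real.rpow_le_rpow hε0.le (hεδ.le.trans (min_le_right _ _)) hu.le
        _ = μ := by rw [← Real.rpow_mul hμ0.le, one_div_mul_cancel hu.ne', Real.rpow_one]
    set t : ℝ := ε / (1 + ε) with ht
    have ht0 : 0 < t := by positivity
    have htε : t ≤ ε := by
      rw [ht]
      exact div_le_self hε0.le (by linarith)
    have hfew : FewG H N δ₀ (fun x => t * x) (ε ^ (-s)) := by
      refine ⟨c₀ + 1, fun c hc => ?_⟩
      have h1 := hc₀ c (by omega)
      have h2 : repG H N δ₀ (fun x => t * x) c = excH N δ₀ ε c := by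
        ext a
        constructor
        · rintro ⟨g1, g2, g3, g4, g5, g6⟩
          exact ⟨g1, g2, g3, g4, g5, (strength_ge hε0 (by omega)).1 g6⟩
        · rintro ⟨g1, g2, g3, g4, g5, g6⟩
          exact ⟨g1, g2, g3, g4, g5, (strength_ge hε0 (by omega)).2 g6⟩
      rw [h2]
      exact h1.le
    obtain ⟨c₁, h1⟩ := hmain (fun x => x) 1 gauge_id t (ε ^ (-s)) ht0 (by positivity) hfew
    refine ⟨c₁ + 1, fun a b c ha hb hab habc hc => (h1 a b c ha hb hab habc (by omega)).trans_le ?_⟩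
    have h3 : 0 ≤ Real.log c := Real.log_natCast_nonneg c
    apply mul_le_mul_of_nonneg_right _ h3
    rw [Real.rpow_one]
    have e1 : (ε ^ (-s)) ^ (1 / s') * ε = ε ^ (1 - s / s') := by
      rw [← Real.rpow_mul hε0.le]
      nth_rewrite 2 [← Real.rpow_one ε]
      rw [← Real.rpow_add hε0]
      congr 1
      field_simp
      ring
    have h4 : κ * μ ≤ η / 4 := by
      calc κ * μ ≤ κ * (η / (4 * κ)) := mul_le_mul_of_nonneg_left (min_le_left _ _) hκ.le
        _ = η / 4 := by field_simp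
    calc κ * t * (1 + (ε ^ (-s)) ^ (1 / s')) ≤ κ * ε * (1 + (ε ^ (-s)) ^ (1 / s')) := by
          apply mul_le_mul_of_nonneg_right _ (by positivity)
          exact mul_le_mul_of_nonneg_left htε hκ.le
      _ = κ * (ε + (ε ^ (-s)) ^ (1 / s') * ε) := by ring
      _ ≤ κ * (μ + μ) := by
          apply mul_le_mul_of_nonneg_left _ hκ.le
          rw [e1]
          linarith
      _ ≤ η := by linarith

end Pool.Agent.H423.AB
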