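import Mathlib
import Pool.Graph.R_pool_sql_team_seeded_63374d34.N746.NF.Multi
import Pool.Agent.H423.AB.Poly

/-!
# The partial sums of the binomial expansion over a number field, near a cusp
-/

set_option linter.unusedSectionVars false

namespace Pool.Agent.H423.AB

open NumberField IsDedekindDomain Height Polynomial
open Pool.Agent.N746.NF (norm_pos mk_lt_iff small_le finite_ne S_finite Rr finsum_mem_le_add)

variable {K : Type} [Field K] [NumberField K]

theorem eval_bp (m a : ℕ) (t : K) : (bp m a : K[X]).eval t = ps m a t (1 - t) := by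
  have := map_ps (evalRingHom t) m a (X : K[X]) (1 - X)
  simp only [coe_evalRingHom] at this
  rw [bp, this]
  simp

/-! ### archimedean absolute values -/

theorem abv_sum_le {R : Type*} [CommRing R] (abv : AbsoluteValue R ℝ) {ι : Type*} (s : Finset ι) (f : ι → R) :
    abv (∑ i ∈ s, f i) ≤ ∑ i ∈ s, abv (f i) := by
  classical
  induction s using Finset.induction_on with
  | empty => simp
  | insert a s ha ih =>
    rw [Finset.sum_insert ha, Finset.sum_insert ha]
    exact (abv.add_le _ _).trans (by linarith)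

theorem abv_qs_le (abv : AbsoluteValue K ℝ) (m a : ℕ) (ham : a ≤ m) (x y : K) (hx : abv x ≤ 2) (hy : abv y ≤ 2) :
    abv (qs m a x y) ≤ 4 ^ m := by
  unfold qs
  refine (abv_sum_le abv _ _).trans ?_
  calc ∑ i ∈ Finset.range (m + 1 - a), abv ((m.choose (a + i) : K) * x ^ i * y ^ (m - (a + i)))
      ≤ ∑ i ∈ Finset.range (m + 1 - a), (m.choose (a + i) : ℝ) * 2 ^ m := by
        refine Finset.sum_le_sum fun i hi => ?_
        have hi' : i < m + 1 - a := Finset.mem_range.1 hi
        rw [map_mul, map_mul, map_pow, map_pow, mul_assoc]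
        apply mul_le_mul (abv.apply_nat_le_self _) _ (by positivity) (by positivity)
        calc abv x ^ i * abv y ^ (m - (a + i)) ≤ 2 ^ i * 2 ^ (m - (a + i)) :=
              mul_le_mul (pow_le_pow_left₀ (abv.nonneg _) hx _) (pow_le_pow_left₀ (abv.nonneg _) hy _)
                (by positivity) (by positivity)
          _ = 2 ^ (i + (m - (a + i))) := by rw [pow_add]
          _ ≤ 2 ^ m := pow_le_pow_right₀ (by norm_num) (by omega)
    _ = ((∑ i ∈ Finset.range (m + 1 - a), m.choose (a + i) : ℕ) : ℝ) * 2 ^ m := by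
        push_cast
        rw [Finset.sum_mul]
    _ ≤ ((2 ^ m : ℕ) : ℝ) * 2 ^ m := by
        apply mul_le_mul_of_nonneg_right _ (by positivity)
        rw [Nat.cast_le, ← Finset.sum_Ico_eq_sum_range (fun j => m.choose j) a (m + 1), ← Nat.sum_range_choose]
        apply Finset.sum_le_sum_of_subset
        intro j hj
        rw [Finset.mem_range]
        exact (Finset.mem_Ico.1 hj).2
    _ = 4 ^ m := by
        push_cast
        rw [← mul_pow]; norm_num

theorem abv_small (abv : AbsoluteValue K ℝ) (δ : ℝ) (hδ0 : 0 < δ) (M : ℕ) (hδ : δ * 4 ^ M ≤ 1) (m a : ℕ)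
    (ha : 2 ≤ a) (ham : a ≤ m) (hm : m ≤ M) (x : K) (hx : abv x < δ) : abv (ps m a x (1 - x)) < δ := by
  have hδ1 : δ ≤ 1 := by
    have : δ * 1 ≤ δ * 4 ^ M := mul_le_mul_of_nonneg_left (one_le_pow₀ (by norm_num)) hδ0.le
    linarith
  have h1 : abv (1 - x) ≤ 2 := by
    have := abv.sub_le_add 1 x
    rw [abv.map_one] at this
    linarith
  have h2 := abv_qs_le abv m a ham x (1 - x) (by linarith) h1
  rw [ps_eq, map_mul, map_pow]
  obtain ⟨b, rfl⟩ : ∃ b, a = b + 2 := ⟨a - 2, by omega⟩
  have hx0 := abv.nonneg x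
  have h3 : abv x ^ b ≤ 1 := pow_le_one₀ hx0 (by linarith)
  have h4 : (4 : ℝ) ^ m ≤ 4 ^ M := pow_le_pow_right₀ (by norm_num) hm
  calc abv x ^ (b + 2) * abv (qs m (b + 2) x (1 - x)) = abv x * (abv x * abv x ^ b * abv (qs m (b + 2) x (1 - x))) := by
        ring
    _ ≤ abv x * (δ * 1 * 4 ^ M) := by
        apply mul_le_mul_of_nonneg_left _ hx0
        apply mul_le_mul _ (h2.trans h4) (abv.nonneg _) (by positivity)
        exact mul_le_mul hx.le h3 (by positivity) hδ0.le
    _ ≤ abv x * 1 := by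
        apply mul_le_mul_of_nonneg_left _ hx0
        linarith
    _ < δ := by linarith

/-! ### finite places -/

theorem fp_nat (v : FinitePlace K) (n : ℕ) : v (n : K) ≤ 1 := by
  induction n with
  | zero => simp
  | succ n ih =>
    push_cast
    refine (FinitePlace.add_le v _ _).trans (max_le ih ?_)
    rw [map_one]

theorem fp_sum_le (v : FinitePlace K) {ι : Type*} (s : Finset ι) (f : ι → K) (t : ℝ) (ht : 0 ≤ t)
    (h : ∀ i ∈ s, v (f i) ≤ t) : v (∑ i ∈ s, f i) ≤ t := by
  classical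
  induction s using Finset.induction_on with
  | empty => simpa using ht
  | insert a s ha ih =>
    rw [Finset.sum_insert ha]
    exact (FinitePlace.add_le v _ _).trans (max_le (h a (by simp)) (ih fun i hi => h i (by simp [hi])))

theorem fp_one_sub (v : FinitePlace K) (x : K) : v (1 - x) ≤ max 1 (v x) := by
  rw [sub_eq_add_neg]
  refine (FinitePlace.add_le v _ _).trans ?_
  rw [map_one, map_neg_eq_map]

theorem fp_one_sub_big (v : FinitePlace K) (x : K) (h : 1 < v x) : v (1 - x) = v x := by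
  apply le_antisymm
  · exact (fp_one_sub v x).trans (by rw [max_eq_right h.le])
  · have h2 := fp_one_sub v (1 - x)
    rw [sub_sub_cancel] at h2
    rcases le_max_iff.1 h2 with h3 | h3
    · linarith
    · exact h3

theorem fp_qs_le (v : FinitePlace K) (m a : ℕ) (x y : K) (hx : v x ≤ 1) (hy : v y ≤ 1) : v (qs m a x y) ≤ 1 := by
  unfold qs
  refine fp_sum_le v _ _ 1 zero_le_one fun i _ => ?_
  rw [map_mul, map_mul, map_pow, map_pow]
  have h1 : v x ^ i ≤ 1 := pow_le_one₀ (apply_nonneg v x) hx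
  have h2 : v y ^ (m - (a + i)) ≤ 1 := pow_le_one₀ (apply_nonneg v y) hy
  have h3 := fp_nat v (m.choose (a + i))
  exact mul_le_one₀ (mul_le_one₀ h3 (pow_nonneg (apply_nonneg v x) _) h1) (pow_nonneg (apply_nonneg v y) _) h2

theorem fp_ps_le (v : FinitePlace K) (m a : ℕ) (x y : K) (t : ℝ) (ht : 0 ≤ t) (hx : v x ≤ t) (hy : v y ≤ t) :
    v (ps m a x y) ≤ t ^ m := by
  unfold ps
  refine fp_sum_le v _ _ _ (by positivity) fun j hj => ?_
  have hj' := Finset.mem_Ico.1 hj
  rw [map_mul, map_mul, map_pow, map_pow]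
  have h1 : v x ^ j ≤ t ^ j := pow_le_pow_left₀ (apply_nonneg v x) hx _
  have h2 : v y ^ (m - j) ≤ t ^ (m - j) := pow_le_pow_left₀ (apply_nonneg v y) hy _
  have h3 := fp_nat v (m.choose j)
  calc v ((m.choose j : ℕ) : K) * v x ^ j * v y ^ (m - j) ≤ 1 * t ^ j * t ^ (m - j) := by
        apply mul_le_mul _ h2 (pow_nonneg (apply_nonneg v y) _) (by positivity)
        exact mul_le_mul h3 h1 (pow_nonneg (apply_nonneg v x) _) zero_le_one
    _ = t ^ m := by rw [one_mul, ← pow_add]; congr 1; omega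

/-- the denominators after one step -/
theorem fp_big (v : FinitePlace K) (m a : ℕ) (ha : 1 ≤ a) (ham : a ≤ m) (hv : v ((m.factorial : ℕ) : K) = 1) (x : K)
    (hx : 1 < v x) : v (ps m a x (1 - x)) = v x ^ m := by
  obtain ⟨m, rfl⟩ : ∃ k, m = k + 1 := ⟨m - 1, by omega⟩
  obtain ⟨a, rfl⟩ : ∃ k, a = k + 1 := ⟨a - 1, by omega⟩
  have h1x := fp_one_sub_big v x hx
  rw [ps_succ m a (by omega), add_sub_cancel, one_mul]
  have hC : v ((m.choose a : ℕ) : K) = 1 := by
    have h4 : m.choose a ∣ (m + 1).factorial := by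
      have h5 : m.choose a ∣ m.factorial := by
        rw [← Nat.choose_mul_factorial_mul_factorial (show a ≤ m by omega)]
        exact (Dvd.intro _ rfl).mul_right _
      exact h5.trans (Nat.factorial_dvd_factorial (by omega))
    obtain ⟨k, hk⟩ := h4
    rw [hk, Nat.cast_mul, map_mul] at hv
    have h6 := fp_nat v (m.choose a)
    have h7 := fp_nat v k
    have h8 : 0 ≤ v ((m.choose a : ℕ) : K) := apply_nonneg v _
    have h9 : 0 ≤ v ((k : ℕ) : K) := apply_nonneg v _
    nlinarith
  have hT : v ((m.choose a : K) * x ^ (a + 1) * (1 - x) ^ (m - a)) = v x ^ (m + 1) := by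
    rw [map_mul, map_mul, hC, map_pow, map_pow, h1x, one_mul, ← pow_add]
    congr 1; omega
  have hP : v (ps m (a + 1) x (1 - x)) ≤ v x ^ m := fp_ps_le v m _ x _ _ (by linarith) le_rfl h1x.le
  have hlt : v x ^ m < v x ^ (m + 1) := pow_lt_pow_right₀ hx (Nat.lt_succ_self m)
  apply le_antisymm
  · refine (FinitePlace.add_le v _ _).trans (max_le (hP.trans hlt.le) hT.le)
  · rw [← hT]
    set A := ps m (a + 1) x (1 - x)
    set B := (m.choose a : K) * x ^ (a + 1) * (1 - x) ^ (m - a)
    have h2 : v B ≤ max (v (A + B)) (v A) := by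
      have : B = (A + B) + (-A) := by ring
      calc v B = v ((A + B) + (-A)) := by rw [← this]
        _ ≤ max (v (A + B)) (v (-A)) := FinitePlace.add_le v _ _
        _ = _ := by rw [map_neg_eq_map]
    rcases le_max_iff.1 h2 with h3 | h3
    · exact h3
    · exfalso
      rw [hT] at h3
      linarith

/-- `y` is close to the cusp `0` at the infinite places and at the places in `S` -/
def Near (S : Finset (FinitePlace K)) (δ : ℝ) (y : K) : Prop :=
  (∀ w : InfinitePlace K, w y < δ) ∧ ∀ v ∈ S, v y < δ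

theorem near_step (S : Finset (FinitePlace K)) (δ : ℝ) (hδ0 : 0 < δ) (M : ℕ) (hδ : δ * 4 ^ M ≤ 1) (m a : ℕ)
    (ha : 2 ≤ a) (ham : a ≤ m) (hm : m ≤ M) (y : K) (hy : Near S δ y) : Near S δ (ps m a y (1 - y)) := by
  have hδ1 : δ ≤ 1 := by
    have : δ * 1 ≤ δ * 4 ^ M := mul_le_mul_of_nonneg_left (one_le_pow₀ (by norm_num)) hδ0.le
    linarith
  refine ⟨fun w => abv_small w.1 δ hδ0 M hδ m a ha ham hm y (hy.1 w), fun v hv => ?_⟩
  have h1 := hy.2 v hv
  have h0 := apply_nonneg v y
  have h2 : v (1 - y) ≤ 1 := (fp_one_sub v y).trans (max_le le_rfl (by linarith))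
  rw [ps_eq, map_mul, map_pow]
  obtain ⟨b, rfl⟩ : ∃ b, a = b + 1 := ⟨a - 1, by omega⟩
  have h3 : v y ^ b ≤ 1 := pow_le_one₀ h0 (by linarith)
  have h4 := fp_qs_le v m (b + 1) y (1 - y) (by linarith) h2
  calc v y ^ (b + 1) * v (qs m (b + 1) y (1 - y)) = v y * (v y ^ b * v (qs m (b + 1) y (1 - y))) := by ring
    _ ≤ v y * 1 := mul_le_mul_of_nonneg_left (mul_le_one₀ h3 (apply_nonneg v _) h4) h0
    _ < δ := by linarith

/-- the denominators after one step -/
theorem den_step (S : Finset (FinitePlace K)) (δ : ℝ) (hδ : δ ≤ 1) (M : ℕ)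
    (hS : ∀ v : FinitePlace K, v ((M.factorial : ℕ) : K) ≠ 1 → v ∈ S) (m a : ℕ)
    (ha : 1 ≤ a) (ham : a ≤ m) (hm : m ≤ M) (y : K) (hy : Near S δ y) (v : FinitePlace K) :
    max 1 (v (ps m a y (1 - y))) = (max 1 (v y)) ^ m := by
  rcases le_or_gt (v y) 1 with h | h
  · rw [max_eq_left h, one_pow]
    apply max_eq_left
    have h2 : v (1 - y) ≤ 1 := (fp_one_sub v y).trans (max_le le_rfl h)
    have := fp_ps_le v m a y (1 - y) 1 zero_le_one h h2
    rwa [one_pow] at this
  · have hvS : v ∉ S := fun hvS => by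
      have := hy.2 v hvS
      linarith
    have hv1 : v ((M.factorial : ℕ) : K) = 1 := by
      by_contra h2; exact hvS (hS v h2)
    have hvm : v ((m.factorial : ℕ) : K) = 1 := by
      obtain ⟨k, hk⟩ := Nat.factorial_dvd_factorial hm
      rw [hk, Nat.cast_mul, map_mul] at hv1
      have h6 := fp_nat v m.factorial
      have h7 := fp_nat v k
      have h8 : 0 ≤ v ((m.factorial : ℕ) : K) := apply_nonneg v _
      have h9 : 0 ≤ v ((k : ℕ) : K) := apply_nonneg v _
      nlinarith
    rw [max_eq_right h.le, fp_big v m a ha ham hvm y h]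
    exact max_eq_right (one_le_pow₀ h.le)

/-- the height near the cusp in terms of the denominators -/
theorem height_near (S : Finset (FinitePlace K)) (δ : ℝ) (hδ : δ ≤ 1) (y : K) (hy : Near S δ y) :
    logHeight₁ y = ∑ᶠ v : FinitePlace K, Real.log (max 1 (v y)) := by
  rw [NumberField.logHeight₁_eq]
  have h1 : ∑ v : InfinitePlace K, (v.mult : ℝ) * Real.posLog (v y) = 0 := by
    apply Finset.sum_eq_zero
    intro w _
    have h2 : Real.posLog (w y) = 0 := by
      rw [Real.posLog_eq_zero_iff, abs_of_nonneg (apply_nonneg w y)]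
      exact (hy.1 w).le.trans hδ
    rw [h2, mul_zero]
  rw [h1, zero_add]
  refine finsum_congr fun v => ?_
  rw [Real.posLog_eq_log_max_one (apply_nonneg v y)]

/-- the height of the cofactor -/
theorem height_qs (m a : ℕ) (ham : a ≤ m) :
    ∃ C : ℝ, ∀ y : K, logHeight₁ (qs m a y (1 - y)) ≤ (m - a : ℝ) * logHeight₁ y + C := by
  set p : Fin 2 → MvPolynomial (Fin 2) K :=
    ![qs m a (MvPolynomial.X 0) (MvPolynomial.X 1 - MvPolynomial.X 0), MvPolynomial.X 1 ^ (m - a)] with hp
  have hhom : ∀ i, (p i).IsHomogeneous (m - a) := by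
    intro i
    fin_cases i
    · show (qs m a (MvPolynomial.X 0) (MvPolynomial.X 1 - MvPolynomial.X 0) :
        MvPolynomial (Fin 2) K).IsHomogeneous (m - a)
      unfold qs
      apply MvPolynomial.IsHomogeneous.sum
      intro i hi
      rw [Finset.mem_range] at hi
      have h1 := (MvPolynomial.isHomogeneous_C (Fin 2) ((m.choose (a + i) : ℕ) : K)).mul
        (MvPolynomial.isHomogeneous_X_pow (R := K) (0 : Fin 2) i)
      have h2 := ((MvPolynomial.isHomogeneous_X K (1 : Fin 2)).sub
        (MvPolynomial.isHomogeneous_X K (0 : Fin 2))).pow (m - (a + i))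
      have h3 := h1.mul h2
      rw [show 0 + i + 1 * (m - (a + i)) = m - a by omega] at h3
      simpa using h3
    · exact MvPolynomial.isHomogeneous_X_pow _ _
  obtain ⟨C, hC⟩ := logHeight_eval_le' hhom
  refine ⟨C, fun y => ?_⟩
  have h1 := hC ![y, 1]
  have e : (fun j => MvPolynomial.eval ![y, 1] (p j)) = ![qs m a y (1 - y), 1] := by
    funext j
    fin_cases j
    · simp [hp, qs]
    · simp [hp]
  rw [e, ← logHeight₁_eq_logHeight, ← logHeight₁_eq_logHeight, Nat.cast_sub ham] at h1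
  linarith

theorem height_qs' (m a : ℕ) (ham : a ≤ m) :
    ∃ C : ℝ, ∀ y : K, logHeight₁ (qs m a (1 - y) y) ≤ (m - a : ℝ) * logHeight₁ y + C := by
  obtain ⟨C, hC⟩ := height_qs (K := K) m a ham
  refine ⟨C + (m - a : ℝ) * (totalWeight K * Real.log 2), fun y => ?_⟩
  have h1 := hC (1 - y)
  rw [sub_sub_cancel] at h1
  have h2 := logHeight₁_sub_le (1 : K) y
  rw [logHeight₁_one] at h2
  have h3 : (0 : ℝ) ≤ (m - a : ℝ) := by
    have : (a : ℝ) ≤ m := by exact_mod_cast ham
    linarith
  have h4 := mul_le_mul_of_nonneg_left h2 h3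
  linarith

/-- the radical after one step -/
theorem rad_step (m a : ℕ) (ha : 1 ≤ a) (ham : a ≤ m) :
    ∃ C : ℝ, ∀ y : K, y ≠ 0 → y ≠ 1 → ps m a y (1 - y) ≠ 0 → ps m a y (1 - y) ≠ 1 →
      Rr (ps m a y (1 - y)) ≤ Rr y + (m - 1 : ℝ) * logHeight₁ y + C := by
  obtain ⟨C₁, hC₁⟩ := height_qs (K := K) m a ham
  obtain ⟨C₂, hC₂⟩ := height_qs' (K := K) m (m + 1 - a) (by omega)
  refine ⟨C₁ + C₂, fun y h0 h1 h2 h3 => ?_⟩
  set A : K := qs m a y (1 - y) with hA
  set B : K := qs m (m + 1 - a) (1 - y) y with hB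
  have eA : ps m a y (1 - y) = y ^ a * A := ps_eq _ _ _ _
  have eB : 1 - ps m a y (1 - y) = (1 - y) ^ (m + 1 - a) * B := by
    have := ps_add m a (by omega) y (1 - y)
    rw [add_sub_cancel, one_pow, ps_eq m (m + 1 - a)] at this
    rw [hB]
    linear_combination -this
  have hA0 : A ≠ 0 := by
    intro h; rw [h, mul_zero] at eA; exact h2 eA
  have hB0 : B ≠ 0 := by
    intro h; rw [h, mul_zero] at eB
    exact h3 (sub_eq_zero.1 eB).symm
  have hfA : {v : HeightOneSpectrum (𝓞 K) | v.valuation K A < 1}.Finite :=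
    (finite_ne A hA0).subset fun v hv => (ne_of_lt hv)
  have hfB : {v : HeightOneSpectrum (𝓞 K) | v.valuation K B < 1}.Finite :=
    (finite_ne B hB0).subset fun v hv => (ne_of_lt hv)
  have hsub : Pool.Agent.N746.NF.S (ps m a y (1 - y)) ⊆ Pool.Agent.N746.NF.S y ∪
      ({v : HeightOneSpectrum (𝓞 K) | v.valuation K A < 1} ∪ {v | v.valuation K B < 1}) := by
    intro v hv
    by_contra hn
    rw [Set.mem_union, Set.mem_union, not_or, not_or] at hn
    obtain ⟨hn1, hn2, hn3⟩ := hn
    have hy : v.valuation K y = 1 := by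
      by_contra h; exact hn1 (Or.inl h)
    have hy1 : v.valuation K (1 - y) = 1 := by
      by_contra h; exact hn1 (Or.inr h)
    have hnat : ∀ n : ℕ, v.valuation K ((n : ℕ) : K) ≤ 1 := by
      intro n
      have := v.valuation_le_one (K := K) (n : 𝓞 K)
      simpa using this
    have hle : ∀ (x z : K) (c : ℕ), v.valuation K x = 1 → v.valuation K z = 1 → v.valuation K (qs m c x z) ≤ 1 := by
      intro x z c hx hz
      unfold qs
      apply Valuation.map_sum_le
      intro i _
      rw [map_mul, map_mul, map_pow, map_pow, hx, hz, one_pow, one_pow, mul_one, mul_one]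
      exact hnat _
    have hA1 : v.valuation K A = 1 := le_antisymm (hle _ _ _ hy hy1) (not_lt.1 hn2)
    have hB1 : v.valuation K B = 1 := le_antisymm (hle _ _ _ hy1 hy) (not_lt.1 hn3)
    rcases hv with hv | hv
    · apply hv
      rw [eA, map_mul, map_pow, hy, hA1, one_pow, one_mul]
    · apply hv
      rw [eB, map_mul, map_pow, hy1, hB1, one_pow, one_mul]
  have hsA := small_le A hA0
  have hsB := small_le B hB0
  have hAB := finsum_mem_le_add
    ({v : HeightOneSpectrum (𝓞 K) | v.valuation K A < 1} ∪ {v | v.valuation K B < 1})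
    {v : HeightOneSpectrum (𝓞 K) | v.valuation K A < 1} {v | v.valuation K B < 1} hfA hfB (le_refl _)
  have hall := finsum_mem_le_add _ _ _ (S_finite y h0 h1) (hfA.union hfB) hsub
  have e1 := hC₁ y
  have e2 := hC₂ y
  have e3 : ((m + 1 - a : ℕ) : ℝ) = m + 1 - a := by
    rw [Nat.cast_sub (by omega)]; push_cast; ring
  rw [e3] at e2
  have e4 : Rr (ps m a y (1 - y)) ≤ Rr y + (logHeight₁ A + logHeight₁ B) := by
    unfold Rr
    linarith
  linarith

end Pool.Agent.H423.AB
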