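import Mathlib
import Pool.Agent.H423.AB.KStep
import Pool.Agent.H423.AB.Run
import Pool.Agent.H423.AB.Count
import Pool.Graph.R_pool_sql_team_seeded_3997aac3.Results.MP_a793bb_nt.Localisation

/-!
# Words over a number field, near a cusp
-/

set_option linter.unusedSectionVars false

namespace Pool.Agent.H423.AB

open NumberField IsDedekindDomain Height Polynomial
open Pool.Agent.N746.NF (norm_pos mk_lt_iff small_le finite_ne S_finite Rr finsum_mem_le_add Rr_nonneg)

variable {K : Type} [Field K] [NumberField K]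

/-- the action of a word -/
noncomputable def runK : List (ℕ × ℕ) → K → K
  | [], y => y
  | l :: w, y => runK w (ps l.1 l.2 y (1 - y))

theorem runK_eval (w : List (ℕ × ℕ)) : ∀ y : K, runK w y = (wp w : K[X]).eval y := by
  induction w with
  | nil => intro y; simp [runK, wp]
  | cons l w ih => intro y; rw [runK, ih, wp, eval_comp, eval_bp]

theorem runK_near (S : Finset (FinitePlace K)) (δ : ℝ) (hδ0 : 0 < δ) (M : ℕ) (hδ : δ * 4 ^ M ≤ 1)
    (w : List (ℕ × ℕ)) (hw : ∀ l ∈ w, Good l ∧ l.1 ≤ M) : ∀ y : K, Near S δ y → Near S δ (runK w y) := by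
  induction w with
  | nil => intro y hy; exact hy
  | cons l w ih =>
    intro y hy
    obtain ⟨h1, h2⟩ := hw l (by simp)
    unfold Good at h1
    exact ih (fun k hk => hw k (by simp [hk])) _ (near_step S δ hδ0 M hδ l.1 l.2 h1.1 h1.2.le h2 y hy)

theorem runK_den (S : Finset (FinitePlace K)) (δ : ℝ) (hδ0 : 0 < δ) (M : ℕ) (hδ : δ * 4 ^ M ≤ 1)
    (hS : ∀ v : FinitePlace K, v ((M.factorial : ℕ) : K) ≠ 1 → v ∈ S)
    (w : List (ℕ × ℕ)) (hw : ∀ l ∈ w, Good l ∧ l.1 ≤ M) (v : FinitePlace K) : ∀ y : K, Near S δ y →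
    max 1 (v (runK w y)) = (max 1 (v y)) ^ deg w := by
  have hδ1 : δ ≤ 1 := by
    have : δ * 1 ≤ δ * 4 ^ M := mul_le_mul_of_nonneg_left (one_le_pow₀ (by norm_num)) hδ0.le
    linarith
  induction w with
  | nil => intro y _; simp [runK, deg]
  | cons l w ih =>
    intro y hy
    obtain ⟨h1, h2⟩ := hw l (by simp)
    unfold Good at h1
    rw [runK, ih (fun k hk => hw k (by simp [hk])) _
      (near_step S δ hδ0 M hδ l.1 l.2 h1.1 h1.2.le h2 y hy),
      den_step S δ hδ1 M hS l.1 l.2 (by omega) h1.2.le h2 y hy, deg_cons, pow_mul]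

theorem runK_height (S : Finset (FinitePlace K)) (δ : ℝ) (hδ0 : 0 < δ) (M : ℕ) (hδ : δ * 4 ^ M ≤ 1)
    (hS : ∀ v : FinitePlace K, v ((M.factorial : ℕ) : K) ≠ 1 → v ∈ S)
    (w : List (ℕ × ℕ)) (hw : ∀ l ∈ w, Good l ∧ l.1 ≤ M) (y : K) (hy : Near S δ y) :
    logHeight₁ (runK w y) = deg w * logHeight₁ y := by
  have hδ1 : δ ≤ 1 := by
    have : δ * 1 ≤ δ * 4 ^ M := mul_le_mul_of_nonneg_left (one_le_pow₀ (by norm_num)) hδ0.le
    linarith
  rw [height_near S δ hδ1 _ (runK_near S δ hδ0 M hδ w hw y hy), height_near S δ hδ1 y hy, ← smul_eq_mul,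
    smul_finsum]
  refine finsum_congr fun v => ?_
  rw [runK_den S δ hδ0 M hδ hS w hw v y hy, Real.log_pow, smul_eq_mul]

theorem ne_of_run (w : List (ℕ × ℕ)) (hw : ∀ l ∈ w, Good l) : ∀ y : K, (y = 0 → runK w y = 0) ∧
    (y = 1 → runK w y = 1) := by
  induction w with
  | nil => intro y; simp [runK]
  | cons l w ih =>
    intro y
    have hl : Good l := hw l (by simp)
    unfold Good at hl
    have h := ih (fun k hk => hw k (by simp [hk])) (ps l.1 l.2 y (1 - y))
    refine ⟨fun hy => ?_, fun hy => ?_⟩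
    · rw [runK]
      apply h.1
      rw [ps_eq, hy, zero_pow (by omega), zero_mul]
    · rw [runK]
      apply h.2
      have := ps_add l.1 l.2 (by omega) y (1 - y)
      rw [add_sub_cancel, one_pow, ps_eq l.1 (l.1 + 1 - l.2), hy, sub_self, zero_pow (by omega), zero_mul,
        add_zero] at this
      rw [hy, sub_self]
      exact this

theorem runK_rad (S : Finset (FinitePlace K)) (δ : ℝ) (hδ0 : 0 < δ) (M : ℕ) (hδ : δ * 4 ^ M ≤ 1)
    (hS : ∀ v : FinitePlace K, v ((M.factorial : ℕ) : K) ≠ 1 → v ∈ S)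
    (w : List (ℕ × ℕ)) (hw : ∀ l ∈ w, Good l ∧ l.1 ≤ M) :
    ∃ C : ℝ, ∀ y : K, Near S δ y → runK w y ≠ 0 → runK w y ≠ 1 →
      Rr (runK w y) ≤ Rr y + (deg w - 1 : ℝ) * logHeight₁ y + C := by
  induction w with
  | nil =>
    refine ⟨0, fun y _ _ _ => ?_⟩
    simp [runK, deg]
  | cons l w ih =>
    have hw' : ∀ k ∈ w, Good k ∧ k.1 ≤ M := fun k hk => hw k (by simp [hk])
    obtain ⟨C, hC⟩ := ih hw'
    obtain ⟨h1, h2⟩ := hw l (by simp)
    have hg := h1
    unfold Good at h1
    obtain ⟨C₁, hC₁⟩ := rad_step (K := K) l.1 l.2 (by omega) h1.2.le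
    refine ⟨C + C₁, fun y hy hr0 hr1 => ?_⟩
    have hn := near_step S δ hδ0 M hδ l.1 l.2 h1.1 h1.2.le h2 y hy
    have hall := ne_of_run (K := K) (l :: w) (fun k hk => (hw k hk).1) y
    have hw0 := ne_of_run (K := K) w (fun k hk => (hw' k hk).1) (ps l.1 l.2 y (1 - y))
    have e1 : ps l.1 l.2 y (1 - y) ≠ 0 := fun h => hr0 (by rw [runK]; exact hw0.1 h)
    have e2 : ps l.1 l.2 y (1 - y) ≠ 1 := fun h => hr1 (by rw [runK]; exact hw0.2 h)
    have h3 := hC _ hn hr0 hr1
    have h4 := hC₁ y (fun h => hr0 (hall.1 h)) (fun h => hr1 (hall.2 h)) e1 e2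
    have h5 := runK_height S δ hδ0 M hδ hS [l] (by simpa using hw l (by simp)) y hy
    have h6 : deg [l] = l.1 := by simp [deg]
    rw [h6] at h5
    have h7 : runK [l] y = ps l.1 l.2 y (1 - y) := rfl
    rw [h7] at h5
    rw [h5] at h3
    rw [runK, deg_cons, Nat.cast_mul]
    calc _ ≤ _ := h3
      _ ≤ (Rr y + (l.1 - 1 : ℝ) * logHeight₁ y + C₁) + (deg w - 1 : ℝ) * (l.1 * logHeight₁ y) + C := by
          linarith
      _ = _ := by ring

/-! ### the point `(y : 1 - y : -1)` in the form of `Localisation` -/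

theorem rad_bridge (x : Fin 3 → K) :
    Pool.Agent.Results.MP_a793bb_nt.Localisation.rad x = Pool.Agent.N746.NF.rad x := by
  unfold Pool.Agent.Results.MP_a793bb_nt.Localisation.rad Pool.Agent.N746.NF.rad
  congr 1
  have key : ∀ (v : FinitePlace K) (a b : K), v a = v b ↔
      v.maximalIdeal.valuation K a = v.maximalIdeal.valuation K b := by
    intro v a b
    have hv : FinitePlace.mk v.maximalIdeal = v := FinitePlace.mk_maximalIdeal v
    have h1 : ∀ a b : K, v a < v b ↔ v.maximalIdeal.valuation K a < v.maximalIdeal.valuation K b := by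
      intro a b
      rw [← mk_lt_iff, hv]
    constructor
    · intro h
      apply le_antisymm
      · by_contra hn
        rw [not_le, ← h1] at hn
        linarith
      · by_contra hn
        rw [not_le, ← h1] at hn
        linarith
    · intro h
      apply le_antisymm
      · by_contra hn
        rw [not_le, h1, h] at hn
        exact lt_irrefl _ hn
      · by_contra hn
        rw [not_le, h1, h] at hn
        exact lt_irrefl _ hn
  rw [finsum_mem_def, finsum_mem_def,
    ← finsum_comp_equiv (FinitePlace.equivHeightOneSpectrum (K := K))]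
  refine finsum_congr fun v => ?_
  classical
  rw [Set.indicator_apply, Set.indicator_apply]
  have hmem : v ∈ {v : FinitePlace K | ∃ i j, v (x i) ≠ v (x j)} ↔
      FinitePlace.equivHeightOneSpectrum v ∈ {v : HeightOneSpectrum (𝓞 K) | ∃ i j, v.valuation K (x i) ≠
        v.valuation K (x j)} := by
    constructor
    · rintro ⟨i, j, h⟩
      exact ⟨i, j, fun h2 => h ((key v _ _).2 h2)⟩
    · rintro ⟨i, j, h⟩
      exact ⟨i, j, fun h2 => h ((key v _ _).1 h2)⟩
  by_cases hv : v ∈ {v : FinitePlace K | ∃ i j, v (x i) ≠ v (x j)}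
  · rw [if_pos hv, if_pos (hmem.1 hv)]
    rfl
  · rw [if_neg hv, if_neg fun h => hv (hmem.2 h)]

theorem h_bridge (x : Fin 3 → K) :
    Pool.Agent.Results.MP_a793bb_nt.Localisation.h x = Pool.Agent.N746.NF.height x := rfl

end Pool.Agent.H423.AB
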