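import Mathlib
import Pool.Agent.H423.AB.KRun
import Pool.Agent.H423.AB.Amp

/-!
# Amplification of failures of the abc inequality over a number field near a cusp
-/

set_option linter.unusedSectionVars false

namespace Pool.Agent.H423.AB

open NumberField IsDedekindDomain Height Polynomial
open Pool.Agent.N746.NF (Rr pt_rad pt_height pt_rad_nonneg)
open Pool.Agent.Results.MP_a793bb_nt.Localisation (h rad IsPoint ABCOn ABC Close)

variable {K : Type} [Field K] [NumberField K]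

/-- the `y ≠ 0, 1` with denominators given by `f`, that is `max 1 |y|_v = f v` at all finite places `v`,
of absolute value less than `δ` at all infinite places and at the places in `S`, for which the point
`P = (y : 1 - y : -1)` satisfies `h (P) ≥ (1 + ε) rad (P) + C` -/
def ExcNear (S : Finset (FinitePlace K)) (δ ε C : ℝ) (f : FinitePlace K → ℝ) : Set K :=
  {y | y ≠ 0 ∧ y ≠ 1 ∧ (∀ v : FinitePlace K, max 1 (v y) = f v) ∧ Near S δ y ∧
    (1 + ε) * rad ![y, 1 - y, -1] + C ≤ h ![y, 1 - y, -1]}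

theorem exc_finite (S : Finset (FinitePlace K)) (δ ε C : ℝ) (f : FinitePlace K → ℝ) :
    (ExcNear S δ ε C f).Finite := by
  rcases Set.eq_empty_or_nonempty (ExcNear S δ ε C f) with h0 | ⟨y₀, hy₀⟩
  · rw [h0]; exact Set.finite_empty
  set B : ℝ := ∑ v : InfinitePlace K, (v.mult : ℝ) * Real.posLog δ + ∑ᶠ v : FinitePlace K, Real.posLog (v y₀)
    with hB
  refine (NumberField.finite_setOfPred_logHeight₁_le (K := K) B).subset ?_
  intro y hy
  show logHeight₁ y ≤ B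
  rw [NumberField.logHeight₁_eq, hB]
  have h1 : ∑ v : InfinitePlace K, (v.mult : ℝ) * Real.posLog (v y) ≤
      ∑ v : InfinitePlace K, (v.mult : ℝ) * Real.posLog δ := by
    apply Finset.sum_le_sum
    intro w _
    apply mul_le_mul_of_nonneg_left _ (Nat.cast_nonneg _)
    exact Real.posLog_le_posLog (apply_nonneg w y) (hy.2.2.2.1.1 w).le
  have h2 : ∑ᶠ v : FinitePlace K, Real.posLog (v y) = ∑ᶠ v : FinitePlace K, Real.posLog (v y₀) := by
    refine finsum_congr fun v => ?_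
    rw [Real.posLog_eq_log_max_one (apply_nonneg v y), Real.posLog_eq_log_max_one (apply_nonneg v y₀),
      hy.2.2.1 v, hy₀.2.2.1 v]
  rw [h2]
  linarith

theorem rad_smul (x : Fin 3 → K) (c : K) (hc : c ≠ 0) :
    Pool.Agent.N746.NF.rad (c • x) = Pool.Agent.N746.NF.rad x := by
  have hv : ∀ v : HeightOneSpectrum (𝓞 K), v.valuation K c ≠ 0 := fun v => (Valuation.ne_zero_iff _).2 hc
  have hset : {v : HeightOneSpectrum (𝓞 K) | ∃ i j, v.valuation K ((c • x) i) ≠ v.valuation K ((c • x) j)} =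
      {v : HeightOneSpectrum (𝓞 K) | ∃ i j, v.valuation K (x i) ≠ v.valuation K (x j)} := by
    ext v
    simp only [Set.mem_ofPred_eq, Pi.smul_apply, smul_eq_mul, map_mul]
    constructor
    · rintro ⟨i, j, h⟩
      exact ⟨i, j, fun h' => h (by rw [h'])⟩
    · rintro ⟨i, j, h⟩
      exact ⟨i, j, fun h' => h (mul_left_cancel₀ (hv v) h')⟩
  unfold Pool.Agent.N746.NF.rad
  rw [hset]

/-- the points of `Close` -/
theorem close_pt (S : Finset (FinitePlace K)) (δ : ℝ) (x : Fin 3 → K) (hx : x ∈ Close S δ 1) :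
    ∃ y : K, y ≠ 0 ∧ y ≠ 1 ∧ Near S δ y ∧ h x = h ![y, 1 - y, -1] ∧ rad x = rad ![y, 1 - y, -1] := by
  obtain ⟨⟨hsum, hne⟩, ζ, h0, h1, h2⟩ := hx
  rw [pow_one] at h0
  have hx2 : -x 2 ≠ 0 := neg_ne_zero.2 (hne 2)
  have hx' : x = (-x 2) • ![ζ, 1 - ζ, -1] := by
    funext i
    fin_cases i
    · show x 0 = (-x 2) * ζ
      rw [h0]; ring
    · show x 1 = (-x 2) * (1 - ζ)
      rw [h0] at hsum
      linear_combination hsum
    · show x 2 = (-x 2) * (-1)
      ring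
  refine ⟨ζ, ?_, ?_, ⟨h1, h2⟩, ?_, ?_⟩
  · rintro rfl
    exact hne 0 (by rw [h0]; ring)
  · rintro rfl
    apply hne 1
    rw [h0] at hsum
    linear_combination hsum
  · rw [h_bridge, h_bridge]
    unfold Pool.Agent.N746.NF.height
    congr 1
    conv_lhs => rw [hx']
    exact logHeight_smul_eq_logHeight _ hx2
  · rw [rad_bridge, rad_bridge]
    conv_lhs => rw [hx']
    exact rad_smul _ _ hx2

/-- the finitely many numbers to be avoided -/
theorem avoid (V : Finset (List (ℕ × ℕ))) (hV : ∀ w ∈ V, ∀ l ∈ w, Good l) :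
    ∃ F : Set K, F.Finite ∧ ∀ y, y ∉ F → (∀ w ∈ V, runK w y ≠ 0 ∧ runK w y ≠ 1) ∧
      ∀ w ∈ V, ∀ w' ∈ V, runK w y = runK w' y → w = w' := by
  classical
  set Z : Finset K := ((V ×ˢ V).biUnion fun p => (wp p.1 - wp p.2 : K[X]).roots.toFinset) ∪
    ((V.biUnion fun w => (wp w : K[X]).roots.toFinset) ∪ V.biUnion fun w => (wp w - 1 : K[X]).roots.toFinset)
    with hZ
  refine ⟨Z, Z.finite_toSet, fun y hy => ?_⟩
  rw [Finset.mem_coe, hZ, Finset.mem_union, Finset.mem_union, not_or, not_or] at hy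
  obtain ⟨hy1, hy2, hy3⟩ := hy
  refine ⟨fun w hw => ⟨fun h0 => hy2 ?_, fun h1 => hy3 ?_⟩, fun w hw w' hw' heq => ?_⟩
  · rw [Finset.mem_biUnion]
    refine ⟨w, hw, ?_⟩
    have hne : (wp w : K[X]) ≠ 0 := by
      intro h
      have := (ne_of_run (K := K) w (hV w hw) 1).2 rfl
      rw [runK_eval, h, eval_zero] at this
      exact zero_ne_one this
    rw [Multiset.mem_toFinset, mem_roots hne, IsRoot.def, ← runK_eval]
    exact h0
  · rw [Finset.mem_biUnion]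
    refine ⟨w, hw, ?_⟩
    have hne : (wp w - 1 : K[X]) ≠ 0 := by
      intro h
      have := (ne_of_run (K := K) w (hV w hw) 0).1 rfl
      rw [runK_eval, sub_eq_zero.1 h, eval_one] at this
      exact one_ne_zero this
    rw [Multiset.mem_toFinset, mem_roots hne, IsRoot.def, eval_sub, eval_one, ← runK_eval, h1, sub_self]
  · by_contra hne
    apply hy1
    have hwp : (wp w : K[X]) ≠ wp w' := fun he => hne (wp_inj w w' (hV w hw) (hV w' hw') he)
    rw [Finset.mem_biUnion]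
    refine ⟨(w, w'), Finset.mk_mem_product hw hw', ?_⟩
    rw [Multiset.mem_toFinset, mem_roots (sub_ne_zero.2 hwp), IsRoot.def, eval_sub, ← runK_eval,
      ← runK_eval, heq, sub_self]

/-- one exception of large height produces many exceptions with the same denominators -/
theorem amplifyK (S : Finset (FinitePlace K)) (δ : ℝ) (hδ0 : 0 < δ) (M : ℕ) (hδ : δ * 4 ^ M ≤ 1)
    (hS : ∀ v : FinitePlace K, v ((M.factorial : ℕ) : K) ≠ 1 → v ∈ S) (ε₀ : ℝ) (hε₀ : 0 < ε₀)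
    (hbad : ∀ T : ℝ, ∃ y : K, y ≠ 0 ∧ y ≠ 1 ∧ Near S δ y ∧
      (1 + ε₀) * rad ![y, 1 - y, -1] + T ≤ h ![y, 1 - y, -1])
    (D : ℕ) (hD : 1 ≤ D) (V : Finset (List (ℕ × ℕ))) (hV : ∀ w ∈ V, (∀ l ∈ w, Good l ∧ l.1 ≤ M) ∧ deg w = D)
    (ε : ℝ) (hε : 0 < ε) (hεD : D * ε ≤ ε₀ / (1 + ε₀)) (C : ℝ) :
    ∃ f : FinitePlace K → ℝ, V.card ≤ (ExcNear S δ ε C f).ncard := by
  classical
  have hd : (1 : ℝ) ≤ (Module.finrank ℚ K : ℝ) := by
    have : 0 < Module.finrank ℚ K := Module.finrank_pos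
    exact_mod_cast this
  set d : ℝ := (Module.finrank ℚ K : ℝ) with hdd
  have hd0 : 0 < d := by linarith
  obtain ⟨C₀, hC₀, hpt⟩ := pt_height (K := K)
  obtain ⟨F, hF, hav⟩ := avoid (K := K) V (fun w hw l hl => ((hV w hw).1 l hl).1)
  -- the constants for the radicals
  have hr : ∀ w : List (ℕ × ℕ), ∃ C : ℝ, w ∈ V → ∀ y : K, Near S δ y → runK w y ≠ 0 → runK w y ≠ 1 →
      Rr (runK w y) ≤ Rr y + (D - 1 : ℝ) * logHeight₁ y + C := by
    intro w
    by_cases hw : w ∈ V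
    · obtain ⟨C, hC⟩ := runK_rad S δ hδ0 M hδ hS w (hV w hw).1
      rw [(hV w hw).2] at hC
      exact ⟨C, fun _ => hC⟩
    · exact ⟨0, fun h => absurd h hw⟩
  choose Cr hCr using hr
  set C₂ : ℝ := ∑ w ∈ V, |Cr w| with hC₂
  have hC₂0 : 0 ≤ C₂ := Finset.sum_nonneg fun w _ => abs_nonneg _
  have hCw : ∀ w ∈ V, Cr w ≤ C₂ := fun w hw => (le_abs_self _).trans
    (Finset.single_le_sum (f := fun w => |Cr w|) (fun w _ => abs_nonneg _) hw)
  set C₁ : ℝ := ((D + 1) * C₀ + C₂) / d with hC₁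
  have hDR : (1 : ℝ) ≤ D := by exact_mod_cast hD
  have hC₁0 : 0 ≤ C₁ := by rw [hC₁]; positivity
  -- a bound for the heights on `F`
  obtain ⟨B, hB⟩ : ∃ B : ℝ, ∀ y ∈ F, h ![y, 1 - y, -1] ≤ B := by
    obtain ⟨B, hB⟩ := (hF.image fun y : K => h ![y, 1 - y, -1]).bddAbove
    exact ⟨B, fun y hy => hB ⟨y, hy, rfl⟩⟩
  set ε₁ : ℝ := ε₀ / (1 + ε₀) with hε₁
  have hε₁0 : 0 < ε₁ := by positivity
  have hε₁1 : ε₁ < 1 := by rw [hε₁, div_lt_one (by linarith)]; linarith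
  have hε₁e : (1 + ε₀) * (1 - ε₁) = 1 := by rw [hε₁]; field_simp; ring
  set T : ℝ := |B| + 1 + (1 + ε₀) * ((1 + ε) * C₁ + |C| + C₁) with hT
  have hT0 : 0 ≤ T := by positivity
  obtain ⟨y, hy0, hy1, hyn, hy⟩ := hbad T
  have hρ0 : 0 ≤ rad ![y, 1 - y, -1] := by rw [rad_bridge]; exact pt_rad_nonneg y
  have hhT : T ≤ h ![y, 1 - y, -1] := by nlinarith
  have hyF : y ∉ F := by
    intro hmem
    have h1 := hB y hmem
    have h2 := le_abs_self B
    have h3 : |B| + 1 ≤ T := by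
      rw [hT]
      have : 0 ≤ (1 + ε₀) * ((1 + ε) * C₁ + |C| + C₁) := by positivity
      linarith
    linarith
  obtain ⟨hall, hinj⟩ := hav y hyF
  set η : ℝ := h ![y, 1 - y, -1] with hη
  set ρ : ℝ := rad ![y, 1 - y, -1] with hρ
  have hη0 : 0 ≤ η := by linarith
  have hηd : d * η = logHeight (![y, 1 - y, -1] : Fin 3 → K) := by
    rw [hη]; unfold h; rw [← hdd]; field_simp
  have hρd : d * ρ = Rr y := by
    rw [hρ, rad_bridge, pt_rad, ← hdd]; field_simp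
  obtain ⟨b1, b2⟩ := hpt y
  rw [← hηd] at b1 b2
  refine ⟨fun v => (max 1 (v y)) ^ D, ?_⟩
  have hmaps : ∀ w ∈ V, runK w y ∈ ExcNear S δ ε C (fun v => (max 1 (v y)) ^ D) := by
    intro w hw
    obtain ⟨h1, h2⟩ := hall w hw
    have hnear := runK_near S δ hδ0 M hδ w (hV w hw).1 y hyn
    have hheight := runK_height S δ hδ0 M hδ hS w (hV w hw).1 y hyn
    rw [(hV w hw).2] at hheight
    obtain ⟨a1, a2⟩ := hpt (runK w y)
    have h3 : D * η - C₁ ≤ h ![runK w y, 1 - runK w y, -1] := by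
      unfold h
      rw [← hdd, le_div_iff₀ hd0, hC₁]
      have e : (D * η - ((D + 1) * C₀ + C₂) / d) * d = D * (d * η) - ((D + 1) * C₀ + C₂) := by
        field_simp
      rw [e]
      have : (D : ℝ) * (d * η) ≤ D * (logHeight₁ y + C₀) := mul_le_mul_of_nonneg_left b2 (by linarith)
      rw [hheight] at a1
      nlinarith
    have h5 : rad ![runK w y, 1 - runK w y, -1] ≤ ρ + (D - 1 : ℝ) * η + C₁ := by
      rw [rad_bridge, pt_rad, ← hdd, div_le_iff₀ hd0, hC₁]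
      have e : (ρ + (D - 1 : ℝ) * η + ((D + 1) * C₀ + C₂) / d) * d =
          d * ρ + (D - 1 : ℝ) * (d * η) + ((D + 1) * C₀ + C₂) := by
        field_simp
      rw [e, hρd]
      have h6 := hCr w hw y hyn h1 h2
      have h7 := hCw w hw
      have h8 : (D - 1 : ℝ) * logHeight₁ y ≤ (D - 1 : ℝ) * (d * η + C₀) :=
        mul_le_mul_of_nonneg_left (by linarith) (by linarith)
      nlinarith
    refine ⟨h1, h2, fun v => ?_, hnear, ?_⟩
    · rw [runK_den S δ hδ0 M hδ hS w (hV w hw).1 v y hyn, (hV w hw).2]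
    · -- the inequality
      have e1 : ρ ≤ (1 - ε₁) * (η - T) := by
        have e2 : (1 + ε₀) * ρ ≤ η - T := by linarith
        calc ρ = ((1 + ε₀) * (1 - ε₁)) * ρ := by rw [hε₁e, one_mul]
          _ = (1 - ε₁) * ((1 + ε₀) * ρ) := by ring
          _ ≤ _ := mul_le_mul_of_nonneg_left e2 (by linarith)
      have e3 : (1 + ε) * rad ![runK w y, 1 - runK w y, -1] ≤
          (1 + ε) * ((1 - ε₁) * (η - T) + (D - 1 : ℝ) * η + C₁) :=
        mul_le_mul_of_nonneg_left (by linarith) (by linarith)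
      have e4 : (1 - ε₁) * T ≥ (1 + ε) * C₁ + |C| + C₁ := by
        calc (1 - ε₁) * T ≥ (1 - ε₁) * ((1 + ε₀) * ((1 + ε) * C₁ + |C| + C₁)) := by
              apply mul_le_mul_of_nonneg_left _ (by linarith)
              rw [hT]
              have := abs_nonneg B
              linarith
          _ = ((1 + ε₀) * (1 - ε₁)) * ((1 + ε) * C₁ + |C| + C₁) := by ring
          _ = _ := by rw [hε₁e, one_mul]
      have e5 : (1 + ε) * ((1 - ε₁) * T) ≥ (1 - ε₁) * T := by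
        have : 0 ≤ (1 - ε₁) * T := mul_nonneg (by linarith) hT0
        nlinarith
      have e6 : (1 + ε) * (D - ε₁) ≤ D := by nlinarith [mul_pos hε hε₁0]
      have e7 : (1 + ε) * (D - ε₁) * η ≤ D * η := mul_le_mul_of_nonneg_right e6 hη0
      have e8 := le_abs_self C
      calc (1 + ε) * rad ![runK w y, 1 - runK w y, -1] + C
          ≤ (1 + ε) * ((1 - ε₁) * (η - T) + (D - 1 : ℝ) * η + C₁) + C := by linarith
        _ = (1 + ε) * (D - ε₁) * η - (1 + ε) * ((1 - ε₁) * T) + (1 + ε) * C₁ + C := by ring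
        _ ≤ D * η - C₁ := by linarith
        _ ≤ _ := h3
  calc V.card = (V.image fun w => runK w y).card :=
        (Finset.card_image_of_injOn fun w hw w' hw' he => hinj w hw w' hw' he).symm
    _ = ((V.image fun w => runK w y : Finset K) : Set K).ncard := (Set.ncard_coe_finset _).symm
    _ ≤ _ := by
        apply Set.ncard_le_ncard _ (exc_finite _ _ _ _ _)
        intro q hq
        rw [Finset.mem_coe, Finset.mem_image] at hq
        obtain ⟨w, hw, rfl⟩ := hq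
        exact hmaps w hw

variable (K) in
/-- if the abc conjecture over `K` fails, the exceptions are numerous -/
theorem manyK (hnot : ¬ ABC K) (s : ℝ) (hs0 : 0 ≤ s) (M : ℕ)
    (hs : 1 < ∑ m ∈ Finset.Icc 3 M, ((m : ℝ) - 2) * (m : ℝ) ^ (-s)) (S₀ : Finset (FinitePlace K)) (δ₀ : ℝ)
    (hδ₀ : 0 < δ₀) :
    ∃ δ₁ : ℝ, 0 < δ₁ ∧ ∀ ε : ℝ, 0 < ε → ε < δ₁ → ∀ C : ℝ, ∃ f : FinitePlace K → ℝ,
      ε ^ (-s) ≤ ((ExcNear S₀ δ₀ ε C f).ncard : ℝ) := by
  classical
  have hfin : {v : FinitePlace K | v ((M.factorial : ℕ) : K) ≠ 1}.Finite :=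
    FinitePlace.hasFiniteMulSupport (by exact_mod_cast M.factorial_ne_zero)
  set S : Finset (FinitePlace K) := S₀ ∪ hfin.toFinset with hS
  have hSM : ∀ v : FinitePlace K, v ((M.factorial : ℕ) : K) ≠ 1 → v ∈ S := fun v hv => by
    rw [hS, Finset.mem_union, Set.Finite.mem_toFinset]
    exact Or.inr hv
  set δ : ℝ := min δ₀ (1 / 4 ^ M) with hδ
  have hδ0 : 0 < δ := lt_min hδ₀ (by positivity)
  have hδM : δ * 4 ^ M ≤ 1 := by
    have : δ ≤ 1 / 4 ^ M := min_le_right _ _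
    rwa [le_div_iff₀ (by positivity)] at this
  have hnot' : ¬ ABCOn (Close S δ 1) := fun h =>
    hnot ((Pool.Agent.Results.MP_a793bb_nt.Localisation.result K S δ hδ0 1 le_rfl).2 h)
  have hbad : ∃ ε₀ : ℝ, 0 < ε₀ ∧ ∀ T : ℝ, ∃ y : K, y ≠ 0 ∧ y ≠ 1 ∧ Near S δ y ∧
      (1 + ε₀) * rad ![y, 1 - y, -1] + T ≤ h ![y, 1 - y, -1] := by
    unfold ABCOn at hnot'
    push Not at hnot'
    obtain ⟨ε₀, hε₀, h1⟩ := hnot'
    refine ⟨ε₀, hε₀, fun T => ?_⟩
    obtain ⟨x, h2, h3⟩ := h1 T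
    obtain ⟨y, h5, h6, h7, h8, h9⟩ := close_pt S δ x h2
    exact ⟨y, h5, h6, h7, by rw [← h8, ← h9]; exact h3⟩
  obtain ⟨ε₀, hε₀, hbad⟩ := hbad
  obtain ⟨δ₁, hδ₁, hg⟩ := growth (letters M) Prod.fst M (fun l hl => by
    have := mem_letters.1 hl
    unfold Good at this
    omega) s hs0 (by rw [sum_letters]; exact hs) (ε₀ / (1 + ε₀)) (by positivity)
  refine ⟨δ₁, hδ₁, fun ε hε hεδ C => ?_⟩
  obtain ⟨D, V, hD, hV, hDε, hcard⟩ := hg ε hε hεδ
  obtain ⟨f, hc2⟩ := amplifyK S δ hδ0 M hδM hSM ε₀ hε₀ hbad D hD V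
    (fun w hw => ⟨fun l hl => mem_letters.1 ((hV w hw).1 l hl), (hV w hw).2⟩) ε hε hDε C
  refine ⟨f, hcard.trans ?_⟩
  have h3 : (ExcNear S δ ε C f).ncard ≤ (ExcNear S₀ δ₀ ε C f).ncard := by
    apply Set.ncard_le_ncard _ (exc_finite _ _ _ _ _)
    rintro y ⟨h1, h2, h3, h4, h5⟩
    refine ⟨h1, h2, h3, ⟨fun w => (h4.1 w).trans_le (min_le_left _ _), fun v hv => ?_⟩, h5⟩
    exact (h4.2 v (Finset.mem_union_left _ hv)).trans_le (min_le_left _ _)
  exact_mod_cast hc2.trans h3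

variable (K) in
theorem multiplicityK (s : ℝ) (hs0 : 0 ≤ s) (M : ℕ)
    (hs : 1 < ∑ m ∈ Finset.Icc 3 M, ((m : ℝ) - 2) * (m : ℝ) ^ (-s)) (S : Finset (FinitePlace K)) (δ₀ : ℝ)
    (hδ₀ : 0 < δ₀) :
    ABC K ↔ ∀ δ : ℝ, 0 < δ → ∃ ε : ℝ, 0 < ε ∧ ε < δ ∧ ∃ C : ℝ, ∀ f : FinitePlace K → ℝ,
        ((ExcNear S δ₀ ε C f).ncard : ℝ) < ε ^ (-s) := by
  constructor
  · intro hK δ hδ
    obtain ⟨C, hC⟩ := hK (δ / 2) (by positivity)
    refine ⟨δ / 2, by positivity, by linarith, C, fun f => ?_⟩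
    have : ExcNear S δ₀ (δ / 2) C f = ∅ := by
      rw [Set.eq_empty_iff_forall_notMem]
      rintro y ⟨h0, h1, -, -, h2⟩
      have h1' : (1 : K) - y ≠ 0 := sub_ne_zero.2 (Ne.symm h1)
      have h3 := hC ![y, 1 - y, -1] ⟨by simp, fun i => by
        fin_cases i
        · exact h0
        · exact h1'
        · exact neg_ne_zero.2 one_ne_zero⟩
      linarith
    rw [this]
    simp only [Set.ncard_empty, Nat.cast_zero]
    positivity
  · intro hh
    by_contra hnot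
    obtain ⟨δ₁, hδ₁, h1⟩ := manyK K hnot s hs0 M hs S δ₀ hδ₀
    obtain ⟨ε, hε, hεδ, C, hC⟩ := hh δ₁ hδ₁
    obtain ⟨f, h2⟩ := h1 ε hε hεδ C
    have := hC f
    linarith

end Pool.Agent.H423.AB
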