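import Mathlib
import Pool.Agent.H423.AB.HAmp

/-!
# The scale `log H / log log H`
-/

set_option autoImplicit false

namespace Pool.Agent.H423.AB

open Finset Filter Pool.Agent.N757.OH

theorem div_log_mono {x y : ℝ} (hx : Real.exp 1 ≤ x) (hxy : x ≤ y) : x / Real.log x ≤ y / Real.log y := by
  have h := Real.log_div_self_antitoneOn (a := x) (b := y) hx (hx.trans hxy) hxy
  simp only at h
  have hx0 : 0 < x := (Real.exp_pos _).trans_le hx
  have hy0 : 0 < y := hx0.trans_le hxy
  have h1 := log_ge_one hx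
  have h2 := log_ge_one (hx.trans hxy)
  rw [div_le_div_iff₀ hy0 hx0] at h
  rw [div_le_div_iff₀ (by linarith) (by linarith)]
  linarith

/-- `max (H (n), e ^ e)` -/
noncomputable def HH (n : ℕ) : ℝ := max (H n) (Real.exp (Real.exp 1))

/-- `H exp (K log H / log log H)`, `H = max (H (n), e ^ e)` -/
noncomputable def HK (K : ℝ) (n : ℕ) : ℝ :=
  HH n * Real.exp (K * Real.log (HH n) / Real.log (Real.log (HH n)))

/-- `c ≤ H exp (K log H / log log H)` for all admissible triples, for some `K` -/
def BdK : Prop := ∃ K : ℝ, ∀ a b c : ℕ, Adm a b c → (c : ℝ) ≤ HK K (a * b * c)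

/-- the `a` with `N ∣ a`, `a ≤ δ c`, prime to `c`, such that `c > H exp (K log H / log log H)` -/
def excK (N : ℕ) (δ K : ℝ) (c : ℕ) : Set ℕ :=
  {a | 0 < a ∧ a < c ∧ Nat.Coprime a c ∧ N ∣ a ∧ (a : ℝ) ≤ δ * c ∧ HK K (a * (c - a) * c) < c}

theorem excK_finite (N : ℕ) (δ K : ℝ) (c : ℕ) : (excK N δ K c).Finite :=
  (Set.finite_lt_nat c).subset fun _ ha => ha.2.1

theorem HH_pos (n : ℕ) : 0 < HH n := lt_max_of_lt_right (Real.exp_pos _)

theorem HK_pos (K : ℝ) (n : ℕ) : 0 < HK K n := mul_pos (HH_pos n) (Real.exp_pos _)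

theorem log_HK (K : ℝ) (n : ℕ) : Real.log (HK K n) =
    Real.log (HH n) + K * Real.log (HH n) / Real.log (Real.log (HH n)) := by
  rw [HK, Real.log_mul (HH_pos n).ne' (Real.exp_pos _).ne', Real.log_exp]

theorem log_HH (n : ℕ) : Real.log (HH n) = max (Real.log (H n)) (Real.exp 1) := by
  have hH := H_pos n
  rw [HH]
  rcases le_total (H n) (Real.exp (Real.exp 1)) with h | h
  · rw [max_eq_right h, Real.log_exp, max_eq_right]
    rw [← Real.log_exp (Real.exp 1)]
    exact Real.log_le_log hH h
  · rw [max_eq_left h, max_eq_left]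
    rw [← Real.log_exp (Real.exp 1)]
    exact Real.log_le_log (Real.exp_pos _) h

theorem bd_of_ev {κ : ℝ} (hκ : 0 < κ) (h : EvG H fun x => κ * (x / Real.log x)) : BdK := by
  obtain ⟨c₀, hc₀⟩ := h
  obtain ⟨n₁, hn₁⟩ := exists_log_large (Real.exp (2 * κ))
  obtain ⟨n₂, hn₂⟩ := exists_log_large (Real.exp 1)
  set c₁ : ℕ := c₀ + n₁ + n₂ + 1 with hc₁
  set L₀ : ℝ := Real.log c₁ with hL₀
  have hL₀0 : 0 ≤ L₀ := Real.log_natCast_nonneg _
  refine ⟨max (2 * κ) L₀, fun a b c habc => ?_⟩
  have hab := adm_coprime habc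
  obtain ⟨ha, hb, hsum, -⟩ := habc
  have hcN : 0 < c := by omega
  have hc0 : (0 : ℝ) < c := by exact_mod_cast hcN
  rw [← Real.log_le_log_iff hc0 (HK_pos _ _), log_HK]
  set h := Real.log (H (a * b * c)) with hh
  set hp := Real.log (HH (a * b * c)) with hhp
  have hpe : hp = max h (Real.exp 1) := log_HH _
  have hph : h ≤ hp := by rw [hpe]; exact le_max_left _ _
  have hp1 : Real.exp 1 ≤ hp := by rw [hpe]; exact le_max_right _ _
  have hp0 : 0 < hp := (Real.exp_pos _).trans_le hp1
  have hl1 := log_ge_one hp1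
  rw [mul_div_assoc]
  have hq0 : 0 < hp / Real.log hp := div_pos hp0 (by linarith)
  rcases le_or_gt c c₁ with h1 | h1
  · have h2 : Real.log c ≤ L₀ := Real.log_le_log hc0 (by exact_mod_cast h1)
    have h3 : 1 ≤ hp / Real.log hp := by
      rw [le_div_iff₀ (by linarith), one_mul]
      exact (Real.log_le_sub_one_of_pos hp0).trans (by linarith)
    have h4 : L₀ ≤ max (2 * κ) L₀ * (hp / Real.log hp) := by
      calc L₀ = L₀ * 1 := (mul_one _).symm
        _ ≤ max (2 * κ) L₀ * (hp / Real.log hp) :=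
            mul_le_mul (le_max_right _ _) h3 zero_le_one (hL₀0.trans (le_max_right _ _))
    linarith
  · set ℓ := Real.log c with hℓ
    have h2 := hc₀ a b c ha hb hab hsum (by omega)
    rw [str_lt_iff hcN, ← hℓ, ← hh] at h2
    simp only at h2
    have h3 : Real.exp (2 * κ) < ℓ := hn₁ c (by omega)
    have h4 : Real.exp 1 < ℓ := hn₂ c (by omega)
    have hℓ0 : 0 < ℓ := (Real.exp_pos _).trans h4
    have h5 : 2 * κ < Real.log ℓ := by
      rw [← Real.log_exp (2 * κ)]
      exact Real.log_lt_log (Real.exp_pos _) h3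
    have h6 : κ * (ℓ / Real.log ℓ) ≤ ℓ / 2 := by
      rw [← mul_div_assoc, div_le_div_iff₀ (by linarith) two_pos]
      nlinarith
    have h7 : ℓ ≤ 2 * hp := by linarith
    have h8 : ℓ / Real.log ℓ ≤ 2 * (hp / Real.log hp) := by
      calc ℓ / Real.log ℓ ≤ (2 * hp) / Real.log (2 * hp) := div_log_mono h4.le h7
        _ ≤ (2 * hp) / Real.log hp :=
            div_le_div_of_nonneg_left (by linarith) (by linarith) (Real.log_le_log hp0 (by linarith))
        _ = _ := by ring
    have h9 : κ * (ℓ / Real.log ℓ) ≤ max (2 * κ) L₀ * (hp / Real.log hp) := by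
      calc κ * (ℓ / Real.log ℓ) ≤ κ * (2 * (hp / Real.log hp)) := mul_le_mul_of_nonneg_left h8 hκ.le
        _ = (2 * κ) * (hp / Real.log hp) := by ring
        _ ≤ _ := mul_le_mul_of_nonneg_right (le_max_left _ _) hq0.le
    linarith

/-- **Boundedness in the extremal scale.** -/
theorem bdK_iff (N : ℕ) (hN : 1 ≤ N) (δ₀ : ℝ) (hδ₀ : 0 < δ₀) :
    BdK ↔ ∃ K B : ℝ, ∃ c₀ : ℕ, ∀ c : ℕ, c₀ < c → ((excK N δ₀ K c).ncard : ℝ) ≤ B := by
  constructor
  · rintro ⟨K, hK⟩
    refine ⟨K, 0, 0, fun c _ => ?_⟩
    have : excK N δ₀ K c = ∅ := by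
      rw [Set.eq_empty_iff_forall_notMem]
      rintro a ⟨h1, h2, h3, h4, h5, h6⟩
      have hcop : Nat.Coprime a (c - a) := by
        rw [Nat.coprime_sub_self_right h2.le]
        exact h3
      have h7 := hK a (c - a) c ⟨h1, by omega, by omega, by rw [hcop, Nat.gcd_one_left]⟩
      linarith
    rw [this]; simp
  · rintro ⟨K, B, c₀, hc₀⟩
    obtain ⟨κ, hκ, hmain⟩ := main_boundG radLike_H (12 / 5) (by norm_num) 160 num N hN δ₀ hδ₀ 1 1
      zero_le_one le_rfl
    set t : ℝ := max K 0 + 1 with ht
    have ht0 : 0 < t := by positivity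
    have hKt : max K 0 < t := by rw [ht]; linarith
    obtain ⟨n₁, hn₁⟩ := exists_log_large (Real.exp 1 + max K 0 * Real.exp 1)
    have hfew : FewG H N δ₀ (fun x => t * (x / Real.log x)) (max B 0) := by
      refine ⟨c₀ + n₁ + 1, fun c hc => ?_⟩
      have h1 := hc₀ c (by omega)
      have hcN : 0 < c := by omega
      have hc0 : (0 : ℝ) < c := by exact_mod_cast hcN
      have hsub : repG H N δ₀ (fun x => t * (x / Real.log x)) c ⊆ excK N δ₀ K c := by
        rintro a ⟨g1, g2, g3, g4, g5, g6⟩
        refine ⟨g1, g2, g3, g4, g5, ?_⟩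
        have hH := H_pos (a * (c - a) * c)
        rw [← Real.log_lt_log_iff (HK_pos _ _) hc0, log_HK]
        rw [str, Real.log_div hc0.ne' hH.ne'] at g6
        simp only at g6
        set h := Real.log (H (a * (c - a) * c)) with hh
        set hp := Real.log (HH (a * (c - a) * c)) with hhp
        have hpe : hp = max h (Real.exp 1) := log_HH _
        set ℓ := Real.log c with hℓ
        have hℓ1 : Real.exp 1 + max K 0 * Real.exp 1 < ℓ := hn₁ c (by omega)
        have he := Real.exp_pos 1
        have hK0 : 0 ≤ max K 0 := le_max_right _ _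
        have hℓe : Real.exp 1 < ℓ := by
          have : 0 ≤ max K 0 * Real.exp 1 := by positivity
          linarith
        rw [mul_div_assoc]
        rcases le_total h (Real.exp 1) with h2 | h2
        · rw [hpe, max_eq_right h2, Real.log_exp, div_one]
          have : K * Real.exp 1 ≤ max K 0 * Real.exp 1 := mul_le_mul_of_nonneg_right (le_max_left _ _) he.le
          linarith
        · rw [hpe, max_eq_left h2]
          have hlℓ := log_ge_one hℓe.le
          have hq : 0 < ℓ / Real.log ℓ := div_pos (he.trans hℓe) (by linarith)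
          have hlh := log_ge_one h2
          have hqh : 0 < h / Real.log h := div_pos (he.trans_le h2) (by linarith)
          have h3 : h ≤ ℓ := by
            have : 0 < t * (ℓ / Real.log ℓ) := by positivity
            linarith
          have h4 := div_log_mono h2 h3
          calc h + K * (h / Real.log h) ≤ h + max K 0 * (h / Real.log h) := by
                have := mul_le_mul_of_nonneg_right (le_max_left K 0) hqh.le
                linarith
            _ ≤ h + max K 0 * (ℓ / Real.log ℓ) := by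
                have := mul_le_mul_of_nonneg_left h4 hK0
                linarith
            _ < h + t * (ℓ / Real.log ℓ) := by
                have := mul_lt_mul_of_pos_right hKt hq
                linarith
            _ ≤ ℓ := by linarith
      have h2 := Set.ncard_le_ncard hsub (excK_finite _ _ _ _)
      calc ((repG H N δ₀ (fun x => t * (x / Real.log x)) c).ncard : ℝ) ≤ ((excK N δ₀ K c).ncard : ℝ) := by
            exact_mod_cast h2
        _ ≤ B := h1
        _ ≤ _ := le_max_left _ _
    have h3 := hmain _ _ gauge_log t (max B 0) ht0 (le_max_right _ _) hfew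
    refine bd_of_ev (κ := κ * t * (1 + max B 0 ^ (1 / (12 / 5 : ℝ))) ^ (1 : ℝ)) (by positivity) h3

end Pool.Agent.H423.AB
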