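import Mathlib
import Pool.Graph.R_pool_sql_team_seeded_63374d34.Results.MP_7aad9f_nt.SphericalSignatures

/-!
# Every abc-triple has an image near a cusp
-/

namespace Pool.Agent.H423.AB

open Finset Pool.Agent.N746.Self

/-- every abc-triple of large height has an image near the cusp `a = 0` under a map of bounded degree -/
theorem near_map (N : ℕ) (hN : 1 ≤ N) (δ : ℝ) (hδ : 0 < δ) :
    ∃ (E : ℕ) (K : ℝ), 1 ≤ E ∧ 1 ≤ K ∧ ∀ a b c : ℕ, 0 < a → 0 < b → Nat.Coprime a b → a + b = c → 3 ≤ c →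
      ∃ d a' b' c' : ℕ, 1 ≤ d ∧ d ≤ E ∧ 0 < a' ∧ 0 < b' ∧ Nat.Coprime a' b' ∧ a' + b' = c' ∧
        N ∣ a' ∧ (a' : ℝ) ≤ δ * c' ∧ (c : ℝ) ^ d ≤ K * c' ∧ (c' : ℝ) ≤ (c : ℝ) ^ d ∧
        (R (a' * b' * c') : ℝ) ≤ K * R (a * b * c) * (c : ℝ) ^ (d - 1) := by
  obtain ⟨η, hη0, hη1, hη3⟩ : ∃ η : ℝ, 0 < η ∧ η < 1 ∧ 64 * η ^ 2 ≤ δ := by
    set u : ℝ := min (1 / 2) (δ / 64) with hu
    have h1 : u ≤ 1 / 2 := min_le_left _ _
    have h2 : u ≤ δ / 64 := min_le_right _ _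
    have h0 : 0 < u := lt_min (by norm_num) (by positivity)
    have h4 : u ^ 2 ≤ u := by nlinarith
    exact ⟨u, h0, by linarith, by linarith⟩
  obtain ⟨L, hL⟩ := exists_pow_lt_of_lt_one hη0 (show 1 - η < 1 by linarith)
  have : NeZero (2 * N) := ⟨by omega⟩
  obtain ⟨m₀, hm₀, hidem⟩ := exists_pow_idem (2 * N)
  set J : ℕ := L + 1 with hJ
  have hm01 : 1 ≤ m₀ := Nat.pos_of_ne_zero hm₀
  have hmJ1 : 1 ≤ m₀ * J := Nat.mul_pos hm01 (by omega)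
  refine ⟨8 * (m₀ * J), max (4 ^ 6) (4 * (m₀ * J : ℕ)), by omega, le_max_of_le_left (by norm_num), ?_⟩
  intro a b c ha hb hab habc hc
  have hc0 : 0 < c := by omega
  have hcR : (0 : ℝ) < c := by exact_mod_cast hc0
  have haR : (0 : ℝ) < a := by exact_mod_cast ha
  have hac : (a : ℝ) < c := by exact_mod_cast (show a < c by omega)
  -- the ratio
  set ρ : ℝ := (a : ℝ) / c with hρ
  have hρ0 : 0 < ρ := by positivity
  have hρ1 : ρ < 1 := by rw [hρ, div_lt_one hcR]; exact hac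
  -- choice of the exponent
  obtain ⟨j, hj1, hjJ, hjρ⟩ : ∃ j : ℕ, 1 ≤ j ∧ j ≤ J ∧ (ρ ^ (m₀ * j) ≤ η ∨ 1 - η ≤ ρ ^ (m₀ * j)) := by
    rcases le_or_gt (1 - η) (ρ ^ (m₀ * 1)) with h | h
    · exact ⟨1, le_rfl, by omega, Or.inr h⟩
    · refine ⟨J, by omega, le_rfl, Or.inl ?_⟩
      have hle : (m₀ * 1) * L ≤ m₀ * J := by
        rw [mul_one]
        exact Nat.mul_le_mul_left _ (by omega)
      calc ρ ^ (m₀ * J) ≤ ρ ^ ((m₀ * 1) * L) := pow_le_pow_of_le_one hρ0.le hρ1.le hle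
        _ = (ρ ^ (m₀ * 1)) ^ L := pow_mul _ _ _
        _ ≤ (1 - η) ^ L := pow_le_pow_left₀ (by positivity) h.le L
        _ ≤ η := hL.le
  set m : ℕ := m₀ * j with hm
  have hm1 : 1 ≤ m := Nat.mul_pos hm01 hj1
  have hmJ : m ≤ m₀ * J := Nat.mul_le_mul_left _ hjJ
  have hlt : a ^ m < c ^ m := Nat.pow_lt_pow_left (by omega) (by omega)
  have ha1 : 0 < a ^ m := by positivity
  have hac' : Nat.Coprime a c := by rw [← habc]; simpa using hab
  have hcop : Nat.Coprime (a ^ m) (c ^ m - a ^ m) := by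
    rw [Nat.coprime_sub_self_right hlt.le]
    exact hac'.pow m m
  have hsum : a ^ m + (c ^ m - a ^ m) = c ^ m := by omega
  have hne : a ^ m ≠ c ^ m - a ^ m := by
    intro h
    rw [← h] at hcop
    rw [Nat.coprime_self] at hcop
    have h2 : c ^ m = 2 := by omega
    have h3 : c ^ 1 ≤ c ^ m := Nat.pow_le_pow_right hc0 hm1
    rw [pow_one] at h3
    omega
  have hclose : (min ((a ^ m : ℕ) : ℝ) ((c ^ m - a ^ m : ℕ) : ℝ)) ≤ η * ((c ^ m : ℕ) : ℝ) := by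
    have e : ((c ^ m - a ^ m : ℕ) : ℝ) = (c : ℝ) ^ m - (a : ℝ) ^ m := by
      rw [Nat.cast_sub hlt.le]; push_cast; ring
    have e2 : (a : ℝ) ^ m = ρ ^ m * (c : ℝ) ^ m := by rw [hρ, div_pow]; field_simp
    rw [e]
    push_cast
    rcases hjρ with h | h
    · refine (min_le_left _ _).trans ?_
      rw [e2]
      exact mul_le_mul_of_nonneg_right h (by positivity)
    · refine (min_le_right _ _).trans ?_
      rw [e2]
      have : 0 ≤ (c : ℝ) ^ m := by positivity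
      nlinarith
  have hdvd : 2 * N ∣ a ^ m * (c ^ m - a ^ m) * c ^ m :=
    dvd_of_idem (2 * N) m₀ hidem j a c (by omega)
  obtain ⟨x, y, z, hx, hy, hxy, hy0, hyx, hz, hxyz, hxc, hcx, hcl⟩ :=
    odd_terms _ _ _ ha1 (by omega) hcop hsum hne η hη0.le hclose
  have hz0 : 0 < z := by omega
  obtain ⟨x₃, y₃, z₃, hx3, hy3, hxy3, hy30, hyx3, hz3, hz30, hN3, hcl3, hcx3, hxc3, hR3⟩ :=
    to_cusp N x y z (c ^ m) hx hy hxy hy0 hyx hz hz0 hxc hcx (by rw [hxyz]; exact hdvd) η hη0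
      (by linarith) hcl
  have hx30 : 0 < x₃ := by omega
  have hx3R : (0 : ℝ) < x₃ := by exact_mod_cast hx30
  have hz3R : (z₃ : ℝ) = x₃ - y₃ := by rw [← hz3]; push_cast; ring
  have hzx : (z₃ : ℝ) ≤ 64 * η ^ 2 * x₃ := by rw [hz3R]; linarith
  refine ⟨8 * m, z₃, y₃, x₃, by omega, by omega, hz30, hy30, ?_, hz3, (Dvd.intro_left 2 rfl).trans hN3,
    hzx.trans (mul_le_mul_of_nonneg_right hη3 hx3R.le), ?_, ?_, ?_⟩
  · -- coprimality
    rw [← hz3] at hxy3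
    exact Nat.coprime_add_self_left.1 hxy3
  · have h1 : ((c : ℝ) ^ m) ^ 8 ≤ 4 ^ 6 * x₃ := by exact_mod_cast hcx3
    calc (c : ℝ) ^ (8 * m) = ((c : ℝ) ^ m) ^ 8 := by rw [← pow_mul]; congr 1; ring
      _ ≤ 4 ^ 6 * x₃ := h1
      _ ≤ _ := mul_le_mul_of_nonneg_right (le_max_left _ _) hx3R.le
  · have h1 : (x₃ : ℝ) ≤ ((c : ℝ) ^ m) ^ 8 := by exact_mod_cast hxc3
    calc (x₃ : ℝ) ≤ ((c : ℝ) ^ m) ^ 8 := h1
      _ = _ := by rw [← pow_mul]; congr 1; ring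
  · have hpm := power_map m hm1 a b c ha hb habc
    have h2 : (R (z₃ * y₃ * x₃) : ℝ) ≤ (R (a * b * c) * (m * (c : ℝ) ^ (m - 1))) * (4 * ((c : ℝ) ^ m) ^ 7) := by
      calc (R (z₃ * y₃ * x₃) : ℝ) = R (x₃ * y₃ * z₃) := by congr 2; ring
        _ ≤ ((R (x * y * z) * (4 * (c ^ m) ^ 7) : ℕ) : ℝ) := by exact_mod_cast hR3
        _ = ((R (a ^ m * (c ^ m - a ^ m) * c ^ m) * (4 * (c ^ m) ^ 7) : ℕ) : ℝ) := by rw [hxyz]
        _ ≤ (((R (a * b * c) * (m * c ^ (m - 1))) * (4 * (c ^ m) ^ 7) : ℕ) : ℝ) := by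
            exact_mod_cast Nat.mul_le_mul_right _ hpm
        _ = _ := by push_cast; ring
    calc (R (z₃ * y₃ * x₃) : ℝ) ≤ (R (a * b * c) * (m * (c : ℝ) ^ (m - 1))) * (4 * ((c : ℝ) ^ m) ^ 7) := h2
      _ = (4 * m) * R (a * b * c) * ((c : ℝ) ^ (m - 1) * ((c : ℝ) ^ m) ^ 7) := by ring
      _ = (4 * m) * R (a * b * c) * (c : ℝ) ^ (8 * m - 1) := by
          congr 1
          rw [← pow_mul, ← pow_add]
          congr 1
          omega
      _ ≤ _ := by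
          apply mul_le_mul_of_nonneg_right _ (by positivity)
          apply mul_le_mul_of_nonneg_right _ (Nat.cast_nonneg _)
          refine le_trans ?_ (le_max_right _ _)
          apply mul_le_mul_of_nonneg_left _ (by norm_num)
          exact_mod_cast hmJ

end Pool.Agent.H423.AB
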