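import Mathlib
import Pool.Agent.H423.AB.TNear
import Pool.Agent.H423.AB.Amp
import Pool.Agent.H423.AB.Num

/-!
# Amplification in the scale of `T`
-/

namespace Pool.Agent.H423.AB

open Finset Polynomial Filter Pool.Agent.N746.Self

/-- `T(a, b, c) = log (c / rad (abc)) / √(log c)` -/
noncomputable def TT (a b c : ℕ) : ℝ := Real.log ((c : ℝ) / R (a * b * c)) / √(Real.log c)

/-- the `a` such that `(a, c - a, c)` is an abc-triple with `T ≥ t`, `N ∣ a` and `a ≤ δ c` -/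
def rep (N : ℕ) (δ t : ℝ) (c : ℕ) : Set ℕ :=
  {a | 0 < a ∧ a < c ∧ Nat.Coprime a c ∧ N ∣ a ∧ (a : ℝ) ≤ δ * c ∧ t ≤ TT a (c - a) c}

/-- for all large `c` there are at most `B` such `a` -/
def Few (N : ℕ) (δ t B : ℝ) : Prop := ∃ c₀ : ℕ, ∀ c : ℕ, c₀ < c → ((rep N δ t c).ncard : ℝ) ≤ B

/-- all abc-triples with large `c` have `T < τ` -/
def EvBound (τ : ℝ) : Prop :=
  ∃ c₀ : ℕ, ∀ a b c : ℕ, 0 < a → 0 < b → Nat.Coprime a b → a + b = c → c₀ < c → TT a b c < τ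

theorem rep_finite (N : ℕ) (δ t : ℝ) (c : ℕ) : (rep N δ t c).Finite :=
  (Set.finite_lt_nat c).subset fun _ ha => ha.2.1

theorem exists_sqrt_log (X : ℝ) : ∃ n : ℕ, ∀ c : ℕ, n < c → X < √(Real.log c) := by
  obtain ⟨n, hn⟩ := exists_nat_gt (Real.exp (max X 0 ^ 2 + 1))
  refine ⟨n, fun c hc => ?_⟩
  have h1 : (n : ℝ) < c := by exact_mod_cast hc
  have h2 : max X 0 ^ 2 + 1 < Real.log c := by
    rw [← Real.log_exp (max X 0 ^ 2 + 1)]
    exact Real.log_lt_log (Real.exp_pos _) (hn.trans h1)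
  calc X ≤ max X 0 := le_max_left _ _
    _ = √(max X 0 ^ 2) := (Real.sqrt_sq (le_max_right _ _)).symm
    _ < √(Real.log c) := Real.sqrt_lt_sqrt (by positivity) (by linarith)

/-- the triples near the cusp -/
theorem near_bound (M N : ℕ) (δ : ℝ) (hδ0 : 0 ≤ δ) (hδ : δ * 2 ^ M ≤ 1) (hN : M.factorial ∣ N)
    (D : ℕ) (hD : 1 ≤ D) (V : Finset (List (ℕ × ℕ))) (hV : ∀ w ∈ V, (∀ l ∈ w, Good l ∧ l.1 ≤ M) ∧ deg w = D)
    (t τ : ℝ) (hτ : 0 < τ) (hD2 : t * √D ≤ τ / 2) (B : ℝ) (hB : B < V.card)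
    (hfew : Few N δ t B) :
    ∃ c₂ : ℕ, ∀ a b c : ℕ, 0 < a → 0 < b → Nat.Coprime a b → a + b = c → N ∣ a → (a : ℝ) ≤ δ * c → c₂ < c →
      TT a b c < τ := by
  classical
  obtain ⟨c₀, hc₀⟩ := hfew
  set Z : Finset ℚ := (V ×ˢ V).biUnion fun p => (wp p.1 - wp p.2 : ℚ[X]).roots.toFinset with hZ
  set Q₀ : ℕ := ∑ z ∈ Z, z.den with hQ₀
  have hQ : ∀ z ∈ Z, z.den ≤ Q₀ := fun z hz => Finset.single_le_sum (f := fun z : ℚ => z.den)
    (fun _ _ => Nat.zero_le _) hz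
  obtain ⟨T, hT1, hTw⟩ : ∃ T : ℕ, 1 ≤ T ∧ ∀ w ∈ V, 4 ^ tot w ≤ T :=
    ⟨∑ w ∈ V, 4 ^ tot w + 1, by omega, fun w hw =>
      (Finset.single_le_sum (f := fun w : List (ℕ × ℕ) => 4 ^ tot w) (fun _ _ => Nat.zero_le _) hw).trans
        (Nat.le_succ _)⟩
  have hTR : (1 : ℝ) ≤ T := by exact_mod_cast hT1
  obtain ⟨n₁, hn₁⟩ := exists_sqrt_log (2 * Real.log T / τ)
  refine ⟨c₀ + Q₀ + n₁ + 1, fun a b c ha hb hab habc hNa hδa hc => ?_⟩
  by_contra hcon
  push Not at hcon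
  have hac : a < c := by omega
  have hcop : Nat.Coprime a c := by rw [← habc]; simpa using hab
  have hbc : b = c - a := by omega
  have hc1 : 1 < c := by omega
  have hcR : (1 : ℝ) < c := by exact_mod_cast hc1
  have hc0 : (0 : ℝ) < c := by linarith
  set ℓ : ℝ := Real.log c with hℓ
  have hℓ0 : 0 < ℓ := Real.log_pos hcR
  have hsq : 0 < √ℓ := Real.sqrt_pos.2 hℓ0
  set ρ : ℝ := (R (a * b * c) : ℝ) with hρ
  have hρ1 : 1 ≤ ρ := by rw [hρ]; exact_mod_cast R_pos _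
  have hρ0 : 0 < ρ := by linarith
  -- `τ √ℓ ≤ ℓ - log ρ`
  have h1 : τ * √ℓ ≤ ℓ - Real.log ρ := by
    rw [TT, ← hρ, ← hℓ, Real.log_div hc0.ne' hρ0.ne', ← hℓ, le_div_iff₀ hsq] at hcon
    exact hcon
  have h2 : Real.log T ≤ τ / 2 * √ℓ := by
    have := hn₁ c (by omega)
    rw [← hℓ, div_lt_iff₀ hτ] at this
    linarith
  have hmaps : ∀ w ∈ V, (run w (a, c)).1 ∈ rep N δ t (c ^ D) := by
    intro w hw
    obtain ⟨h1', h2', h3, h4, g1, g2, h5, -⟩ := run_spec M N δ hδ0 hδ hN w (hV w hw).1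
      a c ha hac hcop hNa hδa
    rw [(hV w hw).2] at h4 h5
    rw [h4] at h2' h3 h5 g2
    refine ⟨h1', h2', h3, g1, g2, ?_⟩
    set q := (run w (a, c)).1
    have hR0 : (0 : ℝ) < R (q * (c ^ D - q) * c ^ D) := by exact_mod_cast R_pos _
    have h6 : (R (q * (c ^ D - q) * c ^ D) : ℝ) ≤ ρ * (T * (c : ℝ) ^ (D - 1)) := by
      rw [hρ, hbc]
      have := h5.trans (Nat.mul_le_mul_left _ (Nat.mul_le_mul_right _ (hTw w hw)))
      exact_mod_cast this
    have h7 : Real.log (R (q * (c ^ D - q) * c ^ D)) ≤ Real.log ρ + Real.log T + (D - 1) * ℓ := by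
      have h8 := Real.log_le_log hR0 h6
      rw [Real.log_mul hρ0.ne' (by positivity), Real.log_mul (by positivity) (by positivity),
        Real.log_pow, Nat.cast_sub hD, Nat.cast_one] at h8
      linarith
    have hD0 : (0 : ℝ) < D := by exact_mod_cast (by omega : 0 < D)
    have h9 : Real.log ((c ^ D : ℕ) : ℝ) = D * ℓ := by push_cast; rw [Real.log_pow]
    have hcD : ((c ^ D : ℕ) : ℝ) ≠ 0 := by
      have : 0 < c ^ D := by positivity
      exact_mod_cast this.ne'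
    rw [TT, Real.log_div hcD hR0.ne', h9, Real.sqrt_mul (by positivity), le_div_iff₀ (by positivity)]
    calc t * (√D * √ℓ) = (t * √D) * √ℓ := by ring
      _ ≤ τ / 2 * √ℓ := mul_le_mul_of_nonneg_right hD2 hsq.le
      _ ≤ _ := by nlinarith
  have hinj : Set.InjOn (fun w => (run w (a, c)).1) V := by
    intro w hw w' hw' h
    simp only at h
    have hw := Finset.mem_coe.1 hw
    have hw' := Finset.mem_coe.1 hw'
    obtain ⟨-, -, -, h4, -, -, -, h6⟩ := run_spec M N δ hδ0 hδ hN w (hV w hw).1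
      a c ha hac hcop hNa hδa
    obtain ⟨-, -, -, g4, -, -, -, g6⟩ := run_spec M N δ hδ0 hδ hN w' (hV w' hw').1
      a c ha hac hcop hNa hδa
    rw [(hV w hw).2] at h4
    rw [(hV w' hw').2] at g4
    rw [h4] at h6
    rw [g4] at g6
    by_contra hne
    have hwp : (wp w : ℚ[X]) ≠ wp w' := fun he =>
      hne (wp_inj w w' (fun l hl => ((hV w hw).1 l hl).1) (fun l hl => ((hV w' hw').1 l hl).1) he)
    have hcD : ((c ^ D : ℕ) : ℚ) ≠ 0 := by
      have : 0 < c ^ D := by positivity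
      exact_mod_cast this.ne'
    have heval : (wp w : ℚ[X]).eval ((a : ℚ) / c) = (wp w' : ℚ[X]).eval ((a : ℚ) / c) := by
      apply mul_left_cancel₀ hcD
      rw [← h6, ← g6, h]
    have hroot : (a : ℚ) / c ∈ Z := by
      rw [hZ, Finset.mem_biUnion]
      refine ⟨(w, w'), Finset.mk_mem_product hw hw', ?_⟩
      rw [Multiset.mem_toFinset, mem_roots (sub_ne_zero.2 hwp)]
      simp [IsRoot, heval]
    have hden : ((a : ℚ) / c).den = c := by
      have := Rat.den_div_eq_of_coprime (a := (a : ℤ)) (b := (c : ℤ)) (by omega) (by simpa using hcop)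
      push_cast at this
      exact_mod_cast this
    have := hQ _ hroot
    rw [hden] at this
    omega
  have hcard : V.card ≤ (rep N δ t (c ^ D)).ncard := by
    calc V.card = (V.image fun w => (run w (a, c)).1).card := (Finset.card_image_of_injOn hinj).symm
      _ = ((V.image fun w => (run w (a, c)).1 : Finset ℕ) : Set ℕ).ncard := (Set.ncard_coe_finset _).symm
      _ ≤ _ := by
          apply Set.ncard_le_ncard _ (rep_finite _ _ _ _)
          intro q hq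
          rw [Finset.mem_coe, Finset.mem_image] at hq
          obtain ⟨w, hw, rfl⟩ := hq
          exact hmaps w hw
  have h10 := hc₀ (c ^ D) (lt_of_lt_of_le (by omega) (Nat.le_self_pow (by omega) c))
  have h11 : (V.card : ℝ) ≤ ((rep N δ t (c ^ D)).ncard : ℝ) := by exact_mod_cast hcard
  linarith

/-- **Bounded multiplicity implies an upper bound for `T`.** -/
theorem main_bound (s : ℝ) (hs0 : 0 < s) (M : ℕ) (hs : 1 < ∑ m ∈ Icc 3 M, ((m : ℝ) - 2) * (m : ℝ) ^ (-s))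
    (N : ℕ) (hN : 1 ≤ N) (δ₀ : ℝ) (hδ₀ : 0 < δ₀) :
    ∃ κ : ℝ, 0 < κ ∧ ∀ t B : ℝ, 0 < t → 0 ≤ B → Few N δ₀ t B → EvBound (κ * t * (1 + B ^ (1 / (2 * s)))) := by
  set N' : ℕ := M.factorial * N with hN'
  set δ : ℝ := min δ₀ (1 / 2 ^ M) with hδ
  have hδ0 : 0 < δ := lt_min hδ₀ (by positivity)
  have hδM : δ * 2 ^ M ≤ 1 := by
    have : δ ≤ 1 / 2 ^ M := min_le_right _ _
    rwa [le_div_iff₀ (by positivity)] at this
  obtain ⟨E, K, hE, hK, hmap⟩ := near_map N' (Nat.mul_pos (Nat.factorial_pos _) (by omega)) δ hδ0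
  obtain ⟨δ₁, hδ₁, hg⟩ := growth (letters M) Prod.fst M (fun l hl => by
    have := mem_letters.1 hl
    unfold Good at this
    omega) s hs0.le (by rw [sum_letters]; exact hs) 1 one_pos
  have hER : (1 : ℝ) ≤ E := by exact_mod_cast hE
  have hsE : 1 ≤ √(E : ℝ) := by rw [Real.one_le_sqrt]; exact hER
  have hsd : 0 < 1 / √δ₁ := by positivity
  refine ⟨4 * √E * (1 + 1 / √δ₁), by positivity, fun t B ht hB hfew => ?_⟩
  set β : ℝ := B ^ (1 / (2 * s)) with hβ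
  have hβ0 : 0 ≤ β := by positivity
  set X : ℝ := 1 + 1 / √δ₁ + β with hX
  have hX0 : 0 < X := by positivity
  set τ : ℝ := 2 * t * X with hτ
  have hτ0 : 0 < τ := by positivity
  -- the words
  obtain ⟨D, V, hD, hV, hDε, hcard⟩ := hg (1 / X ^ 2) (by positivity) (by
    rw [div_lt_iff₀ (by positivity)]
    have h1 : 1 / √δ₁ < X := by rw [hX]; linarith
    have h2 : (1 / √δ₁) ^ 2 < X ^ 2 := pow_lt_pow_left₀ h1 hsd.le (by norm_num)
    rw [div_pow, one_pow, Real.sq_sqrt hδ₁.le, div_lt_iff₀ hδ₁] at h2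
    linarith)
  have hBV : B < V.card := by
    refine lt_of_lt_of_le ?_ hcard
    have h1 : (1 / X ^ 2 : ℝ) ^ (-s) = X ^ (2 * s) := by
      rw [one_div, Real.inv_rpow (by positivity), Real.rpow_neg (by positivity), inv_inv, ← Real.rpow_natCast,
        ← Real.rpow_mul hX0.le]
      norm_num
    rw [h1]
    have h2 : B = β ^ (2 * s) := by
      rw [hβ, ← Real.rpow_mul hB, one_div, inv_mul_cancel₀ (by positivity), Real.rpow_one]
    rw [h2]
    exact Real.rpow_lt_rpow hβ0 (by rw [hX]; linarith) (by positivity)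
  have hD2 : t * √D ≤ τ / 2 := by
    have h1 : (D : ℝ) ≤ X ^ 2 := by
      rw [mul_one_div, div_le_one (by positivity)] at hDε
      exact hDε
    have h2 : √(D : ℝ) ≤ X := by
      rw [Real.sqrt_le_left hX0.le]
      exact h1
    have := mul_le_mul_of_nonneg_left h2 ht.le
    rw [hτ]; linarith
  have hfew' : Few N' δ t B := by
    obtain ⟨c₀, hc₀⟩ := hfew
    refine ⟨c₀, fun c hc => le_trans ?_ (hc₀ c hc)⟩
    have : (rep N' δ t c).ncard ≤ (rep N δ₀ t c).ncard := by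
      apply Set.ncard_le_ncard _ (rep_finite _ _ _ _)
      rintro a ⟨h1, h2, h3, h4, h5, h6⟩
      exact ⟨h1, h2, h3, (Dvd.intro_left _ rfl).trans h4,
        h5.trans (mul_le_mul_of_nonneg_right (min_le_left _ _) (Nat.cast_nonneg _)), h6⟩
    exact_mod_cast this
  obtain ⟨c₂, hc₂⟩ := near_bound M N' δ hδ0.le hδM (Dvd.intro _ rfl) D hD V
    (fun w hw => ⟨fun l hl => mem_letters.1 ((hV w hw).1 l hl), (hV w hw).2⟩) t τ hτ0 hD2 B hBV hfew'
  -- all triples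
  set τ₀ : ℝ := 2 * √E * τ with hτ₀
  have hτ₀0 : 0 < τ₀ := by positivity
  obtain ⟨n₁, hn₁⟩ := exists_sqrt_log (4 * Real.log K / τ₀)
  obtain ⟨n₂, hn₂⟩ := exists_nat_gt (K * (c₂ + 1))
  refine ⟨n₁ + n₂ + 3, fun a b c ha hb hab habc hc => ?_⟩
  have hle : τ₀ ≤ 4 * √E * (1 + 1 / √δ₁) * t * (1 + β) := by
    have h1 : X ≤ (1 + 1 / √δ₁) * (1 + β) := by
      rw [hX]
      have : 0 ≤ 1 / √δ₁ * β := by positivity
      linarith
    calc τ₀ = 4 * √E * t * X := by rw [hτ₀, hτ]; ring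
      _ ≤ 4 * √E * t * ((1 + 1 / √δ₁) * (1 + β)) := mul_le_mul_of_nonneg_left h1 (by positivity)
      _ = _ := by ring
  refine lt_of_lt_of_le ?_ hle
  by_contra hcon
  push Not at hcon
  obtain ⟨d, a', b', c', hd1, hdE, ha', hb', hab', habc', hN'a, hδa', hcd, hc'd, hRR⟩ :=
    hmap a b c ha hb hab habc (by omega)
  have hc1 : 1 < c := by omega
  have hcR : (1 : ℝ) < c := by exact_mod_cast hc1
  have hc0 : (0 : ℝ) < c := by linarith
  have hcc' : (c : ℝ) ≤ K * c' := by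
    calc (c : ℝ) = (c : ℝ) ^ 1 := (pow_one _).symm
      _ ≤ (c : ℝ) ^ d := pow_le_pow_right₀ hcR.le hd1
      _ ≤ _ := hcd
  have hc'2 : c₂ < c' := by
    have h1 : (n₂ : ℝ) < c := by exact_mod_cast (by omega : n₂ < c)
    have h2 : K * (c₂ + 1) < K * c' := by linarith
    have h3 := lt_of_mul_lt_mul_left h2 (by linarith : (0 : ℝ) ≤ K)
    have h4 : (c₂ : ℝ) < c' := by linarith
    exact_mod_cast h4
  have hnear := hc₂ a' b' c' ha' hb' hab' habc' hN'a hδa' hc'2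
  set ℓ : ℝ := Real.log c with hℓ
  have hℓ0 : 0 < ℓ := Real.log_pos hcR
  have hsq : 0 < √ℓ := Real.sqrt_pos.2 hℓ0
  set ρ : ℝ := (R (a * b * c) : ℝ) with hρ
  have hρ1 : 1 ≤ ρ := by rw [hρ]; exact_mod_cast R_pos _
  have hρ0 : 0 < ρ := by linarith
  set ρ' : ℝ := (R (a' * b' * c') : ℝ) with hρ'
  have hρ'1 : 1 ≤ ρ' := by rw [hρ']; exact_mod_cast R_pos _
  have hρ'0 : 0 < ρ' := by linarith
  have hc'1 : 1 < c' := by omega
  have hc'R : (1 : ℝ) < c' := by exact_mod_cast hc'1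
  have hc'0 : (0 : ℝ) < c' := by linarith
  have hK0 : 0 < K := by linarith
  have hlK : 0 ≤ Real.log K := Real.log_nonneg hK
  have h1 : τ₀ * √ℓ ≤ ℓ - Real.log ρ := by
    rw [TT, ← hρ, ← hℓ, Real.log_div hc0.ne' hρ0.ne', ← hℓ, le_div_iff₀ hsq] at hcon
    exact hcon
  have h2 : 2 * Real.log K ≤ τ₀ / 2 * √ℓ := by
    have := hn₁ c (by omega)
    rw [← hℓ, div_lt_iff₀ hτ₀0] at this
    linarith
  have h3 : d * ℓ ≤ Real.log K + Real.log c' := by
    have := Real.log_le_log (by positivity) hcd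
    rw [Real.log_pow, Real.log_mul hK0.ne' hc'0.ne'] at this
    exact this
  have h4 : Real.log c' ≤ d * ℓ := by
    have := Real.log_le_log hc'0 hc'd
    rwa [Real.log_pow] at this
  have h5 : Real.log ρ' ≤ Real.log K + Real.log ρ + (d - 1 : ℝ) * ℓ := by
    have := Real.log_le_log hρ'0 hRR
    rw [Real.log_mul (by positivity) (by positivity), Real.log_mul hK0.ne' hρ0.ne',
      Real.log_pow, Nat.cast_sub hd1, Nat.cast_one] at this
    exact this
  have hlc' : 0 < Real.log c' := Real.log_pos hc'R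
  have h6 : τ₀ / 2 * √ℓ ≤ Real.log c' - Real.log ρ' := by nlinarith
  have h7 : √(Real.log c') ≤ √E * √ℓ := by
    rw [← Real.sqrt_mul (by positivity)]
    apply Real.sqrt_le_sqrt
    have : (d : ℝ) ≤ E := by exact_mod_cast hdE
    calc Real.log c' ≤ d * ℓ := h4
      _ ≤ E * ℓ := mul_le_mul_of_nonneg_right this hℓ0.le
  have h8 : Real.log c' - Real.log ρ' < τ * √(Real.log c') := by
    rw [TT, ← hρ', Real.log_div hc'0.ne' hρ'0.ne', div_lt_iff₀ (Real.sqrt_pos.2 hlc')] at hnear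
    exact hnear
  have h9 : τ * √(Real.log c') ≤ τ * (√E * √ℓ) := mul_le_mul_of_nonneg_left h7 hτ0.le
  have h10 : τ * (√E * √ℓ) = τ₀ / 2 * √ℓ := by rw [hτ₀]; ring
  linarith

/-- `T` is bounded if and only if there is a bound for the number of the representations -/
theorem bounded_iff (N : ℕ) (hN : 1 ≤ N) (δ₀ : ℝ) (hδ₀ : 0 < δ₀) :
    (∃ τ : ℝ, EvBound τ) ↔ ∃ t B : ℝ, Few N δ₀ t B := by
  constructor
  · rintro ⟨τ, c₀, h⟩
    refine ⟨τ, 0, c₀, fun c hc => ?_⟩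
    have : rep N δ₀ τ c = ∅ := by
      rw [Set.eq_empty_iff_forall_notMem]
      rintro a ⟨h1, h2, h3, h4, h5, h6⟩
      have hcop : Nat.Coprime a (c - a) := by
        rw [Nat.coprime_sub_self_right h2.le]
        exact h3
      have := h a (c - a) c h1 (by omega) hcop (by omega) hc
      linarith
    rw [this]; simp
  · rintro ⟨t, B, h⟩
    obtain ⟨κ, -, hκ⟩ := main_bound (12 / 5) (by norm_num) 160 num N hN δ₀ hδ₀
    have h' : Few N δ₀ (max t 1) (max B 0) := by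
      obtain ⟨c₀, hc₀⟩ := h
      refine ⟨c₀, fun c hc => le_trans ?_ ((hc₀ c hc).trans (le_max_left _ _))⟩
      have : (rep N δ₀ (max t 1) c).ncard ≤ (rep N δ₀ t c).ncard := by
        apply Set.ncard_le_ncard _ (rep_finite _ _ _ _)
        rintro a ⟨h1, h2, h3, h4, h5, h6⟩
        exact ⟨h1, h2, h3, h4, h5, (le_max_left _ _).trans h6⟩
      exact_mod_cast this
    exact ⟨_, hκ (max t 1) (max B 0) (lt_max_of_lt_right one_pos) (le_max_right _ _) h'⟩

/-- a criterion for `T < 1` -/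
theorem criterion (s : ℝ) (hs0 : 0 < s) (M : ℕ) (hs : 1 < ∑ m ∈ Icc 3 M, ((m : ℝ) - 2) * (m : ℝ) ^ (-s))
    (N : ℕ) (hN : 1 ≤ N) (δ₀ : ℝ) (hδ₀ : 0 < δ₀) :
    ∃ κ : ℝ, 0 < κ ∧ ∀ t τ : ℝ, 0 < t → t ≤ κ * τ → Few N δ₀ t (κ * (τ / t) ^ (2 * s)) → EvBound τ := by
  obtain ⟨κ, hκ, h⟩ := main_bound s hs0 M hs N hN δ₀ hδ₀
  set μ : ℝ := min (1 / (2 * κ)) ((1 / (2 * κ)) ^ (2 * s)) with hμ
  have hμ0 : 0 < μ := lt_min (by positivity) (by positivity)
  refine ⟨μ, hμ0, fun t τ ht htμ hfew => ?_⟩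
  have hτ : 0 < τ := by
    by_contra hneg
    push Not at hneg
    have : μ * τ ≤ 0 := mul_nonpos_of_nonneg_of_nonpos hμ0.le hneg
    linarith
  obtain ⟨c₀, h1⟩ := h t _ ht (by positivity) hfew
  refine ⟨c₀, fun a b c ha hb hab habc hc => lt_of_lt_of_le (h1 a b c ha hb hab habc hc) ?_⟩
  have e1 : (μ * (τ / t) ^ (2 * s)) ^ (1 / (2 * s)) = μ ^ (1 / (2 * s)) * (τ / t) := by
    rw [Real.mul_rpow hμ0.le (by positivity), ← Real.rpow_mul (by positivity),
      mul_one_div_cancel (by positivity), Real.rpow_one]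
  have e2 : μ ^ (1 / (2 * s)) ≤ 1 / (2 * κ) := by
    calc μ ^ (1 / (2 * s)) ≤ ((1 / (2 * κ)) ^ (2 * s)) ^ (1 / (2 * s)) :=
          Real.rpow_le_rpow hμ0.le (min_le_right _ _) (by positivity)
      _ = 1 / (2 * κ) := by
          rw [← Real.rpow_mul (by positivity), mul_one_div_cancel (by positivity), Real.rpow_one]
  have e3 : κ * t ≤ τ / 2 := by
    have h2 : μ * τ ≤ 1 / (2 * κ) * τ := mul_le_mul_of_nonneg_right (min_le_left _ _) hτ.le
    have h3 : κ * t ≤ κ * (1 / (2 * κ) * τ) := mul_le_mul_of_nonneg_left (htμ.trans h2) hκ.le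
    calc κ * t ≤ κ * (1 / (2 * κ) * τ) := h3
      _ = τ / 2 := by field_simp
  rw [e1]
  have e4 : κ * t * (μ ^ (1 / (2 * s)) * (τ / t)) ≤ τ / 2 := by
    calc κ * t * (μ ^ (1 / (2 * s)) * (τ / t)) = κ * τ * μ ^ (1 / (2 * s)) := by field_simp
      _ ≤ κ * τ * (1 / (2 * κ)) := mul_le_mul_of_nonneg_left e2 (by positivity)
      _ = τ / 2 := by field_simp
  calc κ * t * (1 + μ ^ (1 / (2 * s)) * (τ / t)) = κ * t + κ * t * (μ ^ (1 / (2 * s)) * (τ / t)) := by ring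
    _ ≤ τ / 2 + τ / 2 := add_le_add e3 e4
    _ = τ := by ring

end Pool.Agent.H423.AB
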